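import Mathlib

set_option autoImplicit false

/-!
# From subexponential bounds to the count
-/

open Set Filter Topology

namespace Pool.Agent.U256.RR

/-- logarithm of `n Φ` -/
lemma log_count {B : ℕ → ℝ → Prop}
    (hB : ∀ a : ℝ, 0 < a → ∀ᶠ n : ℕ in atTop, B n (Real.exp (a * n)))
    (hmono : ∀ n m Φ, n ≤ m → B m Φ → B n Φ) {ε : ℝ} (hε : 0 < ε) :
    ∃ C : ℝ, ∀ n : ℕ, 1 ≤ n → ∃ Φ, B n Φ ∧ Real.log (n * Φ) ≤ ε * n + C := by
  obtain ⟨N₀, hN₀⟩ := eventually_atTop.1 (hB (ε / 2) (half_pos hε))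
  refine ⟨ε / 2 * N₀ - 1 - Real.log (ε / 2), fun n hn => ?_⟩
  have hn0 : (0 : ℝ) < n := by exact_mod_cast hn
  refine ⟨Real.exp (ε / 2 * (max n N₀ : ℕ)), hmono n (max n N₀) _ (le_max_left _ _)
    (hN₀ _ (le_max_right _ _)), ?_⟩
  rw [Real.log_mul hn0.ne' (Real.exp_pos _).ne', Real.log_exp]
  have h1 : ((max n N₀ : ℕ) : ℝ) ≤ n + N₀ := by
    exact_mod_cast max_le (by omega) (by omega)
  have h2 := Real.log_le_sub_one_of_pos (show 0 < ε / 2 * n by positivity)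
  rw [Real.log_mul (by positivity) hn0.ne'] at h2
  have h3 : ε / 2 * ((max n N₀ : ℕ) : ℝ) ≤ ε / 2 * (n + N₀) := by gcongr
  linarith

/-- the count from the inequality with the derivatives -/
theorem count_aux {d : ℕ} (hd : 2 ≤ d) {K : ℝ} (hK : 0 < K) {T : ℝ → ℕ → ℝ} {B : ℕ → ℝ → Prop}
    (hB : ∀ a : ℝ, 0 < a → ∀ᶠ n : ℕ in atTop, B n (Real.exp (a * n)))
    (hmono : ∀ n m Φ, n ≤ m → B m Φ → B n Φ)
    (h : ∀ n : ℕ, 1 ≤ n → ∀ Φ, B n Φ → ∀ N : ℕ, 1 ≤ N → ∀ Ψ, B N Ψ → ∀ r : ℝ, 0 < r →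
      K * (N * Ψ) ^ 2 * r ≤ 1 → T r n ≤ K * ((d : ℝ) ^ n / (d : ℝ) ^ N + Real.log (n * Φ) + 1))
    {κ ε : ℝ} (hκ : 0 < κ) (hε : 0 < ε) :
    ∃ K' : ℝ, 0 < K' ∧ ∀ᶠ r : ℝ in 𝓝[>] 0, ∀ n : ℕ, 1 ≤ n →
      T r n ≤ (d : ℝ) ^ n * r ^ κ + ε * n + K' := by
  have hlogd : 0 < Real.log d := Real.log_pos (by exact_mod_cast (by omega : 1 < d))
  have hd0 : (0 : ℝ) < d := by exact_mod_cast (by omega : 0 < d)
  obtain ⟨C, hC⟩ := log_count hB hmono (show 0 < ε / K by positivity)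
  obtain ⟨a, ha⟩ : ∃ a, a = Real.log d / (8 * κ) := ⟨_, rfl⟩
  have ha0 : 0 < a := by rw [ha]; positivity
  obtain ⟨N₁, hN₁⟩ := eventually_atTop.1 (hB a ha0)
  refine ⟨max (K * (C + 1)) 1, lt_of_lt_of_le one_pos (le_max_right _ _), ?_⟩
  have hL : Tendsto (fun r : ℝ => -Real.log r) (𝓝[>] 0) atTop :=
    tendsto_neg_atBot_atTop.comp Real.tendsto_log_nhdsGT_zero
  have e1 := hL.eventually_ge_atTop (4 * a * (max N₁ 1 : ℕ))
  have e2 : ∀ᶠ r : ℝ in 𝓝[>] 0, (-Real.log r / 2) ^ 2 * Real.exp (-(-Real.log r / 2)) <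
      4 * a ^ 2 / K := by
    have h1 := (Real.tendsto_pow_mul_exp_neg_atTop_nhds_zero 2).comp
      (hL.atTop_div_const (show (0 : ℝ) < 2 by norm_num))
    exact h1.eventually_lt_const (by positivity)
  have e3 := hL.eventually_ge_atTop ((Real.log K + Real.log d) / κ)
  filter_upwards [self_mem_nhdsWithin, e1, e2, e3] with r hr h1 h2 h3
  have hr0 : 0 < r := hr
  obtain ⟨L, hLr⟩ : ∃ L, L = -Real.log r := ⟨_, rfl⟩
  rw [← hLr] at h1 h2 h3
  have hrL : r = Real.exp (-L) := by rw [hLr, neg_neg, Real.exp_log hr0]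
  obtain ⟨N, hN⟩ : ∃ N : ℕ, N = ⌊L / (4 * a)⌋₊ := ⟨_, rfl⟩
  have hLN : (max N₁ 1 : ℕ) ≤ L / (4 * a) := by
    rw [le_div_iff₀ (by positivity)]
    linarith
  have hL0 : 0 ≤ L / (4 * a) := le_trans (Nat.cast_nonneg _) hLN
  have hNge : max N₁ 1 ≤ N := hN ▸ Nat.le_floor hLN
  have hNle : (N : ℝ) ≤ L / (4 * a) := hN ▸ Nat.floor_le hL0
  have hNgt : L / (4 * a) < N + 1 := hN ▸ Nat.lt_floor_add_one _
  rw [le_div_iff₀ (by positivity)] at hNle
  rw [div_lt_iff₀ (by positivity)] at hNgt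
  have hN1 : 1 ≤ N := (le_max_right _ _).trans hNge
  have hBN := hN₁ N ((le_max_left _ _).trans hNge)
  intro n hn
  obtain ⟨Φ, hΦ, hΦ'⟩ := hC n hn
  have hcond : K * (N * Real.exp (a * N)) ^ 2 * r ≤ 1 := by
    have h4 : (N : ℝ) ^ 2 ≤ (L / 2) ^ 2 / (4 * a ^ 2) := by
      rw [le_div_iff₀ (by positivity)]
      have h5 : (N : ℝ) * (4 * a) ≤ L := hNle
      have h6 : 0 ≤ (N : ℝ) * (4 * a) := by positivity
      nlinarith
    have h5 : Real.exp (a * N) ^ 2 * r ≤ Real.exp (-(L / 2)) := by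
      rw [hrL, ← Real.exp_nat_mul, ← Real.exp_add]
      apply Real.exp_le_exp.2
      push_cast
      linarith
    have h6 : 0 ≤ Real.exp (a * N) ^ 2 * r := by positivity
    calc K * (N * Real.exp (a * N)) ^ 2 * r = K * ((N : ℝ) ^ 2 * (Real.exp (a * N) ^ 2 * r)) := by
          ring
      _ ≤ K * ((L / 2) ^ 2 / (4 * a ^ 2) * Real.exp (-(L / 2))) := by gcongr
      _ = (L / 2) ^ 2 * Real.exp (-(L / 2)) * (K / (4 * a ^ 2)) := by ring
      _ ≤ 4 * a ^ 2 / K * (K / (4 * a ^ 2)) := by gcongr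
      _ = 1 := by field_simp
  refine (h n hn Φ hΦ N hN1 _ hBN r hr0 hcond).trans ?_
  have h4 : K * ((d : ℝ) ^ n / (d : ℝ) ^ N) ≤ (d : ℝ) ^ n * r ^ κ := by
    have h5 : K ≤ (d : ℝ) ^ N * r ^ κ := by
      have h6 : (d : ℝ) ^ N = Real.exp (N * Real.log d) := by
        rw [mul_comm, Real.exp_mul, Real.exp_log hd0, Real.rpow_natCast]
      have h7 : r ^ κ = Real.exp (-(κ * L)) := by
        rw [hrL, ← Real.exp_mul]
        congr 1
        ring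
      rw [h6, h7, ← Real.exp_add, ← Real.log_le_iff_le_exp hK]
      rw [div_le_iff₀ hκ] at h3
      have h8 : 4 * a * (2 * κ) = Real.log d := by
        rw [ha]
        field_simp
        norm_num
      have h9 : L * (2 * κ) < (N + 1) * Real.log d := by
        rw [← h8]
        nlinarith
      nlinarith
    calc K * ((d : ℝ) ^ n / (d : ℝ) ^ N) ≤
        ((d : ℝ) ^ N * r ^ κ) * ((d : ℝ) ^ n / (d : ℝ) ^ N) := by gcongr
      _ = _ := by field_simp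
  have h5 : K * Real.log (n * Φ) ≤ ε * n + K * C := by
    calc K * Real.log (n * Φ) ≤ K * (ε / K * n + C) := by gcongr
      _ = _ := by field_simp
  have h6 := le_max_left (K * (C + 1)) 1
  nlinarith

end Pool.Agent.U256.RR
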