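import Pool.Agent.U256.RR.H2

set_option autoImplicit false

/-!
# Polynomial growth, for arbitrary first period
-/

open Set Filter Topology

namespace Pool.Agent.U256.RR

variable {d : ℕ} {c : ℝ} {p : ℕ → ℕ} {β : ℕ → ℝ}

/-- **Polynomial growth at the real infinitely renormalizable parameters of bounded type.** -/
theorem Tower.poly' (hd2 : 2 ≤ d) (h : Tower d c p β) {B : ℕ}
    (hB : ∀ k, p (k + 1) ≤ B * p k) : ∃ s : ℝ, 0 ≤ s ∧ ∃ C : ℝ, ∀ m n : ℕ,
      ‖deriv ((fun z : ℂ => z ^ d + (c : ℂ))^[n]) ((fun z : ℂ => z ^ d + (c : ℂ))^[m] 0)‖ ≤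
        C * ((n : ℝ) + 1) ^ s := by
  have hd1 : (1 : ℝ) ≤ d := by exact_mod_cast (by omega : 1 ≤ d)
  obtain ⟨R, hR1, hβR, hR⟩ := h.bounded
  obtain ⟨K, hK⟩ : ∃ K : ℝ, K = max (4 * (d : ℝ) * (1 + 8 * d)) (d * R ^ (d - 1)) := ⟨_, rfl⟩
  have hb := (h 0).2.2.2.1
  obtain ⟨p', hp'⟩ : ∃ p' : ℕ → ℕ, p' = fun k => if k = 0 then 1 else p k := ⟨_, rfl⟩
  have hp0 : p' 0 = 1 := by rw [hp']; simp
  have hps : ∀ k, p' (k + 1) = p (k + 1) := fun k => by rw [hp']; simp
  have hlt1 : 1 < p 1 := lt_of_le_of_lt (h 0).1 (h 0).2.2.1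
  have hch : Pool.Agent.U256.GD.Chain d (c : ℂ) p' (max B (p 1)) K := by
    refine ⟨hp0, fun k => ?_, fun k => ?_, fun k => ?_, ?_, fun k i => ?_⟩
    · rcases k with _ | k
      · rw [hp0]
        exact one_dvd _
      · rw [hps, hps]
        exact (h (k + 1)).2.1
    · rcases k with _ | k
      · rw [hp0, hps]
        exact hlt1
      · rw [hps, hps]
        exact (h (k + 1)).2.2.1
    · rcases k with _ | k
      · rw [hp0, hps, Nat.mul_one]
        exact le_max_right _ _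
      · rw [hps, hps]
        exact (hB (k + 1)).trans (Nat.mul_le_mul_right _ (le_max_left _ _))
    · rw [hK]
      refine le_max_of_le_left ?_
      nlinarith
    · rcases k with _ | k
      · rw [hp0, ← Pool.Agent.U256.GD.norm_deriv_iter d (c : ℂ) (1 * i) 1]
        refine le_trans (le_of_eq (norm_block d c (1 * i) 1)) ?_
        rw [hK]
        refine le_max_of_le_right ?_
        unfold D F
        rw [Finset.prod_range_one]
        refine mul_le_mul_of_nonneg_left ?_ (Nat.cast_nonneg d)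
        exact pow_le_pow_left₀ (abs_nonneg _) (hR 0 _ 0 ⟨by linarith, hb.le⟩) _
      · have h1 := h.complex_bounds hd2 (k + 1) i
        rw [hps, ← Pool.Agent.U256.GD.norm_deriv_iter d (c : ℂ) (p (k + 1) * i) (p (k + 1)), hK]
        refine le_max_of_le_left (le_trans (le_of_eq ?_) h1)
        rw [mul_comm i (p (k + 1))]
        rfl
  obtain ⟨s, hs, h1⟩ := hch.poly
  refine ⟨s, hs, K ^ (max B (p 1)), fun m n => ?_⟩
  have h2 := h1 m (m + n) (by omega)
  rw [Nat.add_sub_cancel_left] at h2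
  refine le_trans (le_of_eq ?_) h2
  exact Pool.Agent.U256.GD.norm_deriv_iter d (c : ℂ) m n

end Pool.Agent.U256.RR
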