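import Pool.Agent.U256.RR.Cx
import Pool.Agent.TH363.CD.Uniq

set_option autoImplicit false

/-!
# Real infinitely renormalizable unicritical maps have no attracting cycle
-/

open Set Filter Topology N62a1eb23

namespace Pool.Agent.U256.RR

variable {d : ℕ} {c : ℝ} {p : ℕ → ℕ} {β : ℕ → ℝ}

lemma side {S T : Set ℝ} (hS : S.OrdConnected) (hT : T.OrdConnected)
    (h : (S ∩ T).Subsingleton) {x s t : ℝ} (hxS : x ∈ S) (hxT : x ∈ T) (hs : s ∈ S) (ht : t ∈ T) :
    (s ≤ x ∨ t ≤ x) ∧ (x ≤ s ∨ x ≤ t) := by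
  have h1 := no_overlap hS hT h hxS hs hxT ht
  constructor
  · by_contra hcon
    push Not at hcon
    rw [max_eq_right hcon.1.le, max_eq_right hcon.2.le, min_eq_left hcon.1.le,
      min_eq_left hcon.2.le, max_self] at h1
    rcases min_le_iff.1 h1 with h2 | h2 <;> linarith [hcon.1, hcon.2]
  · by_contra hcon
    push Not at hcon
    rw [max_eq_left hcon.1.le, max_eq_left hcon.2.le, min_eq_right hcon.1.le,
      min_eq_right hcon.2.le, min_self] at h1
    rcases le_max_iff.1 h1 with h2 | h2 <;> linarith [hcon.1, hcon.2]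

/-- the images of the intervals are not single points -/
lemma exists_ne (hd : d ≠ 0) {b : ℝ} (hb : 0 < b) (n : ℕ) (x : ℝ) :
    ∃ y ∈ (g d c)^[n] '' Icc (-b) b, y ≠ x := by
  by_contra hcon
  push Not at hcon
  have h1 : Icc (-b) b ⊆ {u | (g d c)^[n] u = x} := fun u hu => hcon _ ⟨u, hu, rfl⟩
  exact (Icc_infinite (by linarith)) ((finite_fiber (c := c) hd n x).subset h1)

theorem Tower.no_attr (hd : 2 ≤ d) (h : Tower d c p β) (m : ℕ) (z : ℂ) :
    ¬ IsAttractingCycle (fun z : ℂ => z ^ d + (c : ℂ)) m z := by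
  intro hz
  have hm := hz.1
  obtain ⟨l, hl⟩ := Pool.Agent.TH363.CD.crit_conv hd hz
  obtain ⟨x, hx⟩ : ∃ x, x = ((Pool.Agent.W747.MB.f d c)^[l] z).re := ⟨_, rfl⟩
  have hu : Tendsto (fun k : ℕ => (g d c)^[m * k] 0) atTop (𝓝 x) := by
    have h1 := (Complex.continuous_re.tendsto _).comp hl
    rw [← hx] at h1
    refine h1.congr fun k => ?_
    have h2 := iter_ofReal d c (m * k) 0
    rw [Complex.ofReal_zero] at h2
    show ((fun z : ℂ => z ^ d + (c : ℂ))^[m * k] 0).re = _
    rw [h2, Complex.ofReal_re]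
  -- `x` is a periodic point
  have hper : (g d c)^[m] x = x := by
    have h1 := ((continuous_iter (d := d) (c := c) m).tendsto x).comp hu
    have h2 := hu.comp (tendsto_add_atTop_nat 1)
    refine tendsto_nhds_unique h1 (h2.congr fun k => ?_)
    simp only [Function.comp_apply]
    rw [← Function.iterate_add_apply]
    congr 2
    ring
  have hper2 : (g d c)^[2 * m] x = x := by
    rw [two_mul, Function.iterate_add_apply, hper, hper]
  -- it lies in all the intervals
  have hmem : ∀ j, x ∈ Icc (-β j) (β j) := by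
    intro j
    have h1 : Tendsto (fun k : ℕ => (g d c)^[m * (p j * k)] 0) atTop (𝓝 x) :=
      hu.comp (tendsto_id.const_mul_atTop' (h j).1)
    refine isClosed_Icc.mem_of_tendsto h1 (Eventually.of_forall fun k => ?_)
    have h2 := h.return_mem j (m * k)
    have e : m * (p j * k) = m * k * p j := by ring
    rwa [← e] at h2
  obtain ⟨j, hj⟩ : ∃ j, 2 * m < p j := ⟨2 * m + 1, lt_of_lt_of_le (Nat.lt_succ_self _)
    (h.mono.id_le (2 * m + 1))⟩
  have hb := (h j).2.2.2.1
  obtain ⟨J, hJ⟩ : ∃ J : ℕ → Set ℝ, J = fun i => (g d c)^[i] '' Icc (-β j) (β j) := ⟨_, rfl⟩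
  have hJo : ∀ i, (J i).OrdConnected := fun i => by
    rw [hJ]
    exact (isPreconnected_Icc.image _ (continuous_iter i).continuousOn).ordConnected
  have hx0 : x ∈ J 0 := by
    rw [hJ]
    exact ⟨x, hmem j, rfl⟩
  have hx1 : x ∈ J m := by
    rw [hJ]
    exact ⟨x, hmem j, hper⟩
  have hx2 : x ∈ J (2 * m) := by
    rw [hJ]
    exact ⟨x, hmem j, hper2⟩
  have hdis := (h j).2.2.2.2.2.2
  have h01 : (J 0 ∩ J m).Subsingleton := by
    rw [hJ]
    exact hdis 0 m hm (by omega)
  have h02 : (J 0 ∩ J (2 * m)).Subsingleton := by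
    rw [hJ]
    exact hdis 0 (2 * m) (by omega) hj
  have h12 : (J m ∩ J (2 * m)).Subsingleton := by
    rw [hJ]
    exact hdis m (2 * m) (by omega) hj
  have hne : ∀ i, ∃ y ∈ J i, y ≠ x := fun i => by
    rw [hJ]
    exact exists_ne (by omega) hb i x
  obtain ⟨y0, hy0, hn0⟩ := hne 0
  obtain ⟨y1, hy1, hn1⟩ := hne m
  obtain ⟨y2, hy2, hn2⟩ := hne (2 * m)
  have s01 := side (hJo _) (hJo _) h01 hx0 hx1 hy0 hy1
  have s02 := side (hJo _) (hJo _) h02 hx0 hx2 hy0 hy2
  have s12 := side (hJo _) (hJo _) h12 hx1 hx2 hy1 hy2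
  rcases lt_or_gt_of_ne hn0 with a0 | a0 <;> rcases lt_or_gt_of_ne hn1 with a1 | a1 <;>
    rcases lt_or_gt_of_ne hn2 with a2 | a2 <;>
    first
    | (rcases s01.1 with b | b <;> linarith)
    | (rcases s01.2 with b | b <;> linarith)
    | (rcases s02.1 with b | b <;> linarith)
    | (rcases s02.2 with b | b <;> linarith)
    | (rcases s12.1 with b | b <;> linarith)
    | (rcases s12.2 with b | b <;> linarith)

end Pool.Agent.U256.RR
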