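import Pool.Agent.U256.RR.H
import Pool.Agent.U256.GD3

set_option autoImplicit false

/-!
# Real a priori bounds and polynomial growth, in the complex plane
-/

open Set Filter Topology

namespace Pool.Agent.U256.RR

variable {d : ℕ} {c : ℝ} {p : ℕ → ℕ} {β : ℕ → ℝ}

lemma norm_block (d : ℕ) (c : ℝ) (m n : ℕ) :
    ‖deriv ((fun z : ℂ => z ^ d + (c : ℂ))^[n]) ((fun z : ℂ => z ^ d + (c : ℂ))^[m] 0)‖ =
      D d c n ((g d c)^[m] 0) := by
  have h1 : (fun z : ℂ => z ^ d + (c : ℂ))^[m] 0 = (((g d c)^[m] 0 : ℝ) : ℂ) := by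
    have := iter_ofReal d c m 0
    rwa [Complex.ofReal_zero] at this
  rw [h1, norm_deriv]

/-- **Real a priori bounds.** -/
theorem Tower.complex_bounds (hd2 : 2 ≤ d) (h : Tower d c p β) (k n : ℕ) :
    ‖deriv ((fun z : ℂ => z ^ d + (c : ℂ))^[p k])
      ((fun z : ℂ => z ^ d + (c : ℂ))^[n * p k] 0)‖ ≤ 4 * d * (1 + 8 * d) := by
  rw [norm_block]
  exact h.real_bounds hd2 k n

/-- **Polynomial growth at the real infinitely renormalizable parameters of bounded type.** -/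
theorem Tower.poly (hd2 : 2 ≤ d) (h : Tower d c p β) (hp0 : p 0 = 1) {B : ℕ}
    (hB : ∀ k, p (k + 1) ≤ B * p k) : ∃ s : ℝ, 0 ≤ s ∧ ∃ C : ℝ, ∀ m n : ℕ,
      ‖deriv ((fun z : ℂ => z ^ d + (c : ℂ))^[n]) ((fun z : ℂ => z ^ d + (c : ℂ))^[m] 0)‖ ≤
        C * ((n : ℝ) + 1) ^ s := by
  have hd1 : (1 : ℝ) ≤ d := by exact_mod_cast (by omega : 1 ≤ d)
  have hch : Pool.Agent.U256.GD.Chain d (c : ℂ) p B (4 * d * (1 + 8 * d)) := by
    refine ⟨hp0, fun k => (h k).2.1, fun k => (h k).2.2.1, hB, by nlinarith, fun k i => ?_⟩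
    have h1 := h.complex_bounds hd2 k i
    refine le_trans (le_of_eq ?_) h1
    rw [mul_comm i (p k)]
    exact (Pool.Agent.U256.GD.norm_deriv_iter d (c : ℂ) (p k * i) (p k)).symm
  obtain ⟨s, hs, h1⟩ := hch.poly
  refine ⟨s, hs, (4 * d * (1 + 8 * d)) ^ B, fun m n => ?_⟩
  have h2 := h1 m (m + n) (by omega)
  rw [Nat.add_sub_cancel_left] at h2
  refine le_trans (le_of_eq ?_) h2
  exact Pool.Agent.U256.GD.norm_deriv_iter d (c : ℂ) m n

end Pool.Agent.U256.RR
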