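import Pool.Agent.U256.RR.Gauge
import Pool.Agent.Helper202.Univ

set_option autoImplicit false

/-!
# Exponential access to a point of the Multibrot set

If a point `c` of the Multibrot set is the limit of an exponentially converging chain of discs of the
complement, for example if a cone with vertex `c` is in the complement, then Green's function is at
least a power of the distance along this chain, so that the derivatives of the iterates of `f_c`
along the critical orbit grow exponentially.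
-/

open Filter Topology Set Metric MeasureTheory Complex N62a1eb23

namespace Pool.Agent.U256.RR

open Pool.Agent.H713R2

/-- Harnack's inequality for the logarithm of the modulus -/
lemma harnack_log {h : ℂ → ℂ} {z₀ z₁ : ℂ} {ρ : ℝ} (hρ : 0 < ρ)
    (hd : DifferentiableOn ℂ h (ball z₀ ρ)) (h1 : ∀ z ∈ ball z₀ ρ, 1 < ‖h z‖)
    (hz : ‖z₁ - z₀‖ ≤ ρ / 2) : Real.log ‖h z₀‖ / 3 ≤ Real.log ‖h z₁‖ := by
  have hcm : z₀ ∈ ball z₀ ρ := mem_ball_self hρ
  have hz1 : z₁ ∈ ball z₀ ρ := by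
    rw [mem_ball, dist_eq_norm]
    linarith
  have hne : ∀ z ∈ ball z₀ ρ, h z ≠ 0 := fun z hz h0 => by
    have := h1 z hz
    rw [h0, norm_zero] at this
    linarith
  have hd' : DifferentiableOn ℂ (fun z => deriv h z / h z) (ball z₀ ρ) :=
    (hd.deriv isOpen_ball).div hd hne
  obtain ⟨L, hLc, hL⟩ := hd'.isExactOn_ball.with_val_at z₀ 0
  have hdh : ∀ z ∈ ball z₀ ρ, HasDerivAt h (deriv h z) z := fun z hz =>
    ((hd z hz).differentiableAt (isOpen_ball.mem_nhds hz)).hasDerivAt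
  have hcd : ∀ z ∈ ball z₀ ρ, HasDerivAt (fun z => h z * exp (-L z)) 0 z := by
    intro z hz
    have h1 := (hdh z hz).mul ((hL z hz).neg.cexp)
    refine h1.congr_deriv ?_
    have := hne z hz
    field_simp
    simp
  have hconst : ∀ z ∈ ball z₀ ρ, h z = h z₀ * exp (L z) := by
    intro z hz
    have h2 : (fun z => h z * exp (-L z)) z = (fun z => h z * exp (-L z)) z₀ := by
      apply isOpen_ball.is_const_of_deriv_eq_zero (convex_ball z₀ ρ).isPreconnected
        (f := fun z => h z * exp (-L z))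
        (fun w hw => (hcd w hw).differentiableAt.differentiableWithinAt)
        (fun w hw => (hcd w hw).deriv) hz hcm
    simp only [hLc, neg_zero, exp_zero, mul_one] at h2
    rw [← h2, mul_assoc, ← exp_add]
    simp
  obtain ⟨x, hx⟩ : ∃ x, x = Real.log ‖h z₀‖ := ⟨_, rfl⟩
  have hx0 : 0 < x := by rw [hx]; exact Real.log_pos (h1 z₀ hcm)
  have hre : ∀ z ∈ ball z₀ ρ, Real.log ‖h z‖ = x + (L z).re := by
    intro z hz
    rw [hconst z hz, norm_mul, Complex.norm_exp, Real.log_mul (norm_ne_zero_iff.2 (hne z₀ hcm))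
      (Real.exp_pos _).ne', Real.log_exp, ← hx]
  have hpos : ∀ z ∈ ball z₀ ρ, 0 < x + (L z).re := fun z hz => by
    rw [← hre z hz]
    exact Real.log_pos (h1 z hz)
  -- the Cayley transform
  have hden : ∀ z ∈ ball z₀ ρ, L z + 2 * x ≠ 0 := by
    intro z hz h0
    have h2 := congrArg Complex.re h0
    simp at h2
    have := hpos z hz
    linarith
  have hLd : DifferentiableOn ℂ L (ball z₀ ρ) := fun z hz =>
    (hL z hz).differentiableAt.differentiableWithinAt
  have hFd : DifferentiableOn ℂ (fun z => L z / (L z + 2 * x)) (ball z₀ ρ) :=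
    hLd.div (hLd.add_const _) hden
  have key : ∀ z ∈ ball z₀ ρ, normSq (L z + 2 * x) - normSq (L z) = 4 * x * (x + (L z).re) := by
    intro z _
    simp only [normSq_apply, add_re, add_im, mul_re, mul_im, ofReal_re, ofReal_im]
    norm_num
    ring
  have hmaps : MapsTo (fun z => L z / (L z + 2 * x)) (ball z₀ ρ)
      (closedBall ((fun z => L z / (L z + 2 * x)) z₀) 1) := by
    intro z hz
    have h0 : (fun z => L z / (L z + 2 * x)) z₀ = 0 := by simp [hLc]
    rw [h0, mem_closedBall_zero_iff, norm_div,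
      div_le_one (norm_pos_iff.2 (hden z hz))]
    have h2 := key z hz
    rw [normSq_eq_norm_sq, normSq_eq_norm_sq] at h2
    have h3 := mul_pos (mul_pos (show (0 : ℝ) < 4 by norm_num) hx0) (hpos z hz)
    nlinarith [norm_nonneg (L z), norm_nonneg (L z + 2 * x)]
  have h2 := dist_le_div_mul_dist_of_mapsTo_ball hFd hmaps hz1
  rw [hLc, zero_div, dist_zero_right, norm_div, div_le_iff₀ (norm_pos_iff.2 (hden z₁ hz1)),
    dist_eq_norm] at h2
  have h3 : 1 / ρ * ‖z₁ - z₀‖ ≤ 1 / 2 := by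
    rw [div_mul_eq_mul_div, div_le_iff₀ hρ]
    linarith
  have h4 : ‖L z₁‖ ≤ 1 / 2 * ‖L z₁ + 2 * x‖ :=
    h2.trans (mul_le_mul_of_nonneg_right h3 (norm_nonneg _))
  have h5 : normSq (L z₁) ≤ 1 / 4 * normSq (L z₁ + 2 * x) := by
    rw [normSq_eq_norm_sq, normSq_eq_norm_sq]
    have := norm_nonneg (L z₁)
    nlinarith
  rw [hre z₁ hz1, hre z₀ hcm, hLc]
  simp only [normSq_apply, add_re, add_im, mul_re, mul_im, ofReal_re, ofReal_im] at h5
  norm_num at h5
  simp only [zero_re, add_zero]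
  have h6 := hpos z₁ hz1
  by_contra hcon
  push Not at hcon
  nlinarith [mul_self_nonneg (L z₁).im]

/-- one step of the chain -/
lemma green_step {K : Set ℂ} {ψ : ℂ → ℂ} (hψ : IsExteriorMap K ψ) {w₀ w₁ : ℂ} (h0 : 1 < ‖w₀‖)
    (h1 : 1 < ‖w₁‖) {ρ : ℝ} (hρ : 0 < ρ) (hK : Disjoint (ball (ψ w₀) ρ) K)
    (hd : ‖ψ w₁ - ψ w₀‖ ≤ ρ / 2) : Real.log ‖w₀‖ / 3 ≤ Real.log ‖w₁‖ := by
  have hS : IsOpen {z : ℂ | 1 < ‖z‖} := isOpen_lt continuous_const continuous_norm
  have hmem : ∀ z ∈ ball (ψ w₀) ρ, z ∈ ψ '' {z : ℂ | 1 < ‖z‖} := by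
    intro z hz
    rw [hψ.image]
    exact disjoint_left.1 hK hz
  have h2 := harnack_log (h := Function.invFunOn ψ {z : ℂ | 1 < ‖z‖}) hρ
    (fun z hz => (Pool.Agent.Helper202.Univ.differentiableAt_inv hS hψ.diff hψ.inj
      (hmem z hz)).differentiableWithinAt)
    (fun z hz => Pool.Agent.Helper202.Univ.invFunOn_mem (hmem z hz)) hd
  rwa [Pool.Agent.Helper202.Univ.invFunOn_left hψ.inj h0,
    Pool.Agent.Helper202.Univ.invFunOn_left hψ.inj h1] at h2

/-- `c` is the limit of an exponentially converging chain of discs of the complement of `K` -/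
def ExpAcc (K : Set ℂ) (c : ℂ) : Prop :=
  ∃ (q A : ℝ) (z : ℕ → ℂ) (ρ : ℕ → ℝ), 0 < q ∧ q < 1 ∧ ∀ k : ℕ, 0 < ρ k ∧
    Disjoint (ball (z k) (ρ k)) K ∧ ‖z (k + 1) - z k‖ ≤ ρ k / 2 ∧ ‖z k - c‖ ≤ A * q ^ k

theorem ExpAcc.big {K : Set ℂ} {ψ : ℂ → ℂ} (hψ : IsExteriorMap K ψ) {c : ℂ} (hc : c ∈ K)
    (h : ExpAcc K c) : ∃ κ : ℝ, 0 < κ ∧ Pool.Agent.Y736.RN.Big ψ κ c := by
  obtain ⟨q, A, z, ρ, hq0, hq1, h⟩ := h
  have hzK : ∀ k, z k ∉ K := fun k => disjoint_left.1 (h k).2.1 (mem_ball_self (h k).1)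
  have hw : ∀ k, ∃ w : ℂ, 1 < ‖w‖ ∧ ψ w = z k := by
    intro k
    have h1 : z k ∈ ψ '' {z : ℂ | 1 < ‖z‖} := by
      rw [hψ.image]
      exact hzK k
    obtain ⟨w, hw, hw'⟩ := h1
    exact ⟨w, hw, hw'⟩
  choose w hw1 hwz using hw
  have hA : 0 < A := by
    have h1 : 0 < ‖z 0 - c‖ := norm_pos_iff.2 (sub_ne_zero.2 fun h0 => hzK 0 (h0 ▸ hc))
    have h2 := (h 0).2.2.2
    rw [pow_zero, mul_one] at h2
    linarith
  have hlow : ∀ k, Real.log ‖w 0‖ / 3 ^ k ≤ Real.log ‖w k‖ := by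
    intro k
    induction k with
    | zero => simp
    | succ k ih =>
      have h1 := green_step hψ (hw1 k) (hw1 (k + 1)) (h k).1 (by rw [hwz k]; exact (h k).2.1)
        (by rw [hwz k, hwz (k + 1)]; exact (h k).2.2.1)
      refine le_trans ?_ h1
      rw [pow_succ, ← div_div]
      gcongr
  have hlq : 0 < -Real.log q := by
    have := Real.log_neg hq0 hq1
    linarith
  have hlog3 : 0 < Real.log 3 := Real.log_pos (by norm_num)
  obtain ⟨κ, hκ⟩ : ∃ κ, κ = Real.log 3 / (-Real.log q) := ⟨_, rfl⟩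
  have hκ0 : 0 < κ := by rw [hκ]; positivity
  have hκq : κ * Real.log q = -Real.log 3 := by
    rw [hκ]
    have : Real.log q ≠ 0 := by linarith
    field_simp
  have hAκ : 0 < A ^ κ := Real.rpow_pos_of_pos hA _
  have hlogw : 0 < Real.log ‖w 0‖ := Real.log_pos (hw1 0)
  refine ⟨κ, hκ0, Real.log ‖w 0‖ / A ^ κ, by positivity, ?_⟩
  have hlim : Tendsto (fun k : ℕ => A * q ^ k) atTop (𝓝[>] 0) := by
    rw [tendsto_nhdsWithin_iff]
    refine ⟨?_, Eventually.of_forall fun k => ?_⟩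
    · have := (tendsto_pow_atTop_nhds_zero_of_lt_one hq0.le hq1).const_mul A
      rwa [mul_zero] at this
    · have : 0 < A * q ^ k := by positivity
      exact this
  refine hlim.frequently (Eventually.frequently (Eventually.of_forall fun k => ?_))
  refine ⟨w k, hw1 k, by rw [hwz k]; exact (h k).2.2.2, ?_⟩
  have e : (A * q ^ k) ^ κ = A ^ κ / 3 ^ k := by
    rw [Real.mul_rpow hA.le (by positivity), div_eq_mul_inv]
    congr 1
    rw [← Real.rpow_natCast q k, ← Real.rpow_mul hq0.le, Real.rpow_def_of_pos hq0,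
      ← Real.rpow_natCast (3 : ℝ) k, ← Real.rpow_neg (by norm_num),
      Real.rpow_def_of_pos (by norm_num : (0 : ℝ) < 3)]
    congr 1
    have : Real.log q * ((k : ℝ) * κ) = (κ * Real.log q) * k := by ring
    rw [this, hκq]
    ring
  rw [e]
  refine le_trans (le_of_eq ?_) (hlow k)
  field_simp

/-- **Growth of the derivatives at the parameters with a large Green's function.** -/
theorem growth_of_big {d : ℕ} (hd : 2 ≤ d) {ψ : ℂ → ℂ} (hψ : IsExteriorMap (multibrotSet d) ψ)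
    {c : ℂ} (hc : c ∈ multibrotSet d) {κ : ℝ} (hκ : 0 < κ)
    (hB : Pool.Agent.Y736.RN.Big ψ κ c) : ∃ a : ℝ, 0 < a ∧ ∀ᶠ p : ℕ in atTop, ∃ i : ℕ,
      Real.exp (a * p) < ‖deriv ((fun z : ℂ => z ^ d + c)^[p])
        ((fun z : ℂ => z ^ d + c)^[i * p] 0)‖ := by
  have hlogd : 0 < Real.log d := Real.log_pos (by exact_mod_cast (by omega : 1 < d))
  obtain ⟨a, ha⟩ : ∃ a, a = Real.log d / (2 * κ) := ⟨_, rfl⟩
  have ha0 : 0 < a := by rw [ha]; positivity
  have hκa : κ * a = Real.log d / 2 := by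
    rw [ha]
    field_simp
  refine ⟨a, ha0, ?_⟩
  obtain ⟨k, hk⟩ := exists_nat_gt (κ * Real.log 4 / (Real.log d / 2))
  rw [div_lt_iff₀ (by positivity)] at hk
  filter_upwards [eventually_ge_atTop (k + 1)] with q hkq
  by_contra hcon
  push Not at hcon
  have h1 : (k : ℝ) ≤ q := by exact_mod_cast (by omega : k ≤ q)
  have hq0 : (0 : ℝ) ≤ q := q.cast_nonneg
  obtain ⟨C, hC⟩ : ∃ C, C = Real.exp (a * q) := ⟨_, rfl⟩
  have hC1 : 1 ≤ C := by
    rw [hC]
    exact Real.one_le_exp (by positivity)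
  have hlogC0 : 0 < Real.log (C + 3) := Real.log_pos (by linarith)
  have hlogC : Real.log (C + 3) ≤ a * q + Real.log 4 := by
    have h2 : C + 3 ≤ C * 4 := by linarith
    have h3 := Real.log_le_log (by linarith) h2
    rw [Real.log_mul (by linarith) (by norm_num)] at h3
    have h4 : Real.log C = a * q := by rw [hC, Real.log_exp]
    linarith
  refine Pool.Agent.Y736.RN.not_fast (d := d) hd hc (p := q) (C := C) (by linarith) ?_
    (Pool.Agent.Y736.RN.fast_of_big (d := d) hd (by omega) hψ hκ hlogC0 ?_ hB isBounded_ball)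
  · intro i
    have h4 := hcon i
    rw [← hC, mul_comm i q] at h4
    exact h4
  · calc Real.log (C + 3) * κ ≤ (a * q + Real.log 4) * κ := by gcongr
      _ = q * (κ * a) + κ * Real.log 4 := by ring
      _ < q * Real.log d := by
        rw [hκa]
        nlinarith

/-- a cone in the complement gives an exponential chain -/
theorem expAcc_of_cone {K : Set ℂ} {c u : ℂ} (hu : ‖u‖ = 1) {ρ₀ η : ℝ} (hρ₀ : 0 < ρ₀) (hη : 0 < η)
    (h : ∀ z ∈ K, ‖z - c‖ < ρ₀ → ‖z - c - ‖z - c‖ * u‖ < η * ‖z - c‖ → False) : ExpAcc K c := by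
  obtain ⟨δ, hδ⟩ : ∃ δ, δ = min η 1 / 4 := ⟨_, rfl⟩
  have hm0 : 0 < min η 1 := lt_min hη one_pos
  have hm1 : min η 1 ≤ 1 := min_le_right _ _
  have hmη : min η 1 ≤ η := min_le_left _ _
  have hδ0 : 0 < δ := by rw [hδ]; positivity
  have hδ1 : δ ≤ 1 / 4 := by rw [hδ]; linarith
  obtain ⟨t, ht⟩ : ∃ t : ℕ → ℝ, t = fun k => ρ₀ / 2 * (1 - δ / 2) ^ k := ⟨_, rfl⟩
  have hq0 : 0 < 1 - δ / 2 := by linarith
  have ht0 : ∀ k, 0 < t k := fun k => by
    rw [ht]
    positivity
  have ht1 : ∀ k, t k ≤ ρ₀ / 2 := fun k => by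
    rw [ht]
    have : (1 - δ / 2) ^ k ≤ 1 := pow_le_one₀ hq0.le (by linarith)
    nlinarith
  have hnt : ∀ k, ‖(t k : ℂ) * u‖ = t k := fun k => by
    rw [norm_mul, hu, mul_one, Complex.norm_real, Real.norm_of_nonneg (ht0 k).le]
  refine ⟨1 - δ / 2, ρ₀ / 2, fun k => c + t k * u, fun k => δ * t k, hq0, by linarith,
    fun k => ⟨mul_pos hδ0 (ht0 k), ?_, ?_, ?_⟩⟩
  · rw [disjoint_left]
    intro z hz hzK
    rw [mem_ball, dist_eq_norm] at hz
    obtain ⟨v, hv⟩ : ∃ v, v = z - (c + t k * u) := ⟨_, rfl⟩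
    rw [← hv] at hz
    have e1 : z - c = t k * u + v := by rw [hv]; ring
    have n1 : ‖z - c‖ ≤ t k + ‖v‖ := by
      rw [e1]
      exact (norm_add_le _ _).trans (by rw [hnt])
    have n2 : t k ≤ ‖z - c‖ + ‖v‖ := by
      have h2 : (t k : ℂ) * u = (z - c) - v := by rw [e1]; ring
      calc t k = ‖(t k : ℂ) * u‖ := (hnt k).symm
        _ = ‖(z - c) - v‖ := by rw [h2]
        _ ≤ _ := norm_sub_le _ _
    have htk := ht0 k
    refine h z hzK ?_ ?_
    · have := ht1 k
      nlinarith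
    · have e2 : z - c - ‖z - c‖ * u = ((t k - ‖z - c‖ : ℝ) : ℂ) * u + v := by
        rw [e1]
        push_cast
        ring
      have n3 : |t k - ‖z - c‖| ≤ ‖v‖ := by
        rw [abs_le]
        constructor <;> linarith
      have n4 : ‖z - c - ‖z - c‖ * u‖ ≤ 2 * ‖v‖ := by
        rw [e2]
        refine (norm_add_le _ _).trans ?_
        rw [norm_mul, hu, mul_one, Complex.norm_real, Real.norm_eq_abs]
        linarith
      have n5 : 4 * δ ≤ η := by
        rw [hδ]
        linarith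
      have n6 : (1 - δ) * t k ≤ ‖z - c‖ := by nlinarith
      have n7 : 3 / 4 * t k ≤ ‖z - c‖ := by nlinarith
      have n8 : 4 * δ * (3 / 4 * t k) ≤ η * ‖z - c‖ := by
        apply mul_le_mul n5 n7 (by positivity) hη.le
      have n9 : 0 < δ * t k := mul_pos hδ0 htk
      nlinarith
  · have e : t (k + 1) = t k * (1 - δ / 2) := by
      rw [ht]
      ring
    have e2 : (fun k => c + (t k : ℂ) * u) (k + 1) - (fun k => c + (t k : ℂ) * u) k =
        -((δ / 2 * t k : ℝ) : ℂ) * u := by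
      simp only
      rw [e]
      push_cast
      ring
    rw [e2, norm_mul, norm_neg, hu, mul_one, Complex.norm_real, Real.norm_of_nonneg (by
      have := ht0 k
      positivity)]
    linarith
  · have e2 : (fun k => c + (t k : ℂ) * u) k - c = t k * u := by
      simp only
      ring
    rw [e2, hnt, ht]

end Pool.Agent.U256.RR
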