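import Pool.Agent.U256.GD3
import Pool.Agent.U256.RR.H2

set_option autoImplicit false

/-! # Explicit exponents for bounded type -/

namespace Pool.Agent.U256.GD

open Complex Metric Set Filter Topology MeasureTheory Pool.Agent.H713R2
open N62a1eb23

variable {d : ℕ}

theorem Chain.poly_explicit {c : ℂ} {p : ℕ → ℕ} {B : ℕ} {C : ℝ} (h : Chain d c p B C) :
    ∀ m n, m ≤ n → DD d c m n ≤
      C ^ B * (((n - m : ℕ) : ℝ) + 1) ^ (2 * Real.log (C ^ B) / Real.log 2) := by
  have hCB : (1 : ℝ) ≤ C ^ B := one_le_pow₀ h.one_le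
  have hlog2 : 0 < Real.log 2 := Real.log_pos (by norm_num)
  intro m n hmn
  rcases Nat.eq_or_lt_of_le hmn with h0 | h0
  · rw [h0, DD_self, Nat.sub_self, Nat.cast_zero, zero_add, Real.one_rpow, mul_one]
    exact hCB
  obtain ⟨K, hK1, hK2⟩ : ∃ K, p K ≤ n - m ∧ n - m < p (K + 1) := by
    have hex : ∃ K, n - m < p K := ⟨n - m, lt_of_lt_of_le Nat.lt_two_pow_self (h.two_pow _)⟩
    have h1 := Nat.find_spec hex
    obtain ⟨K, hK⟩ : ∃ K, Nat.find hex = K + 1 := by
      refine Nat.exists_eq_succ_of_ne_zero ?_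
      intro h2
      rw [h2, h.zero] at h1
      omega
    refine ⟨K, ?_, by rw [← hK]; exact h1⟩
    have h2 := Nat.find_min hex (m := K) (by omega)
    omega
  have hp := h.pos K
  -- the first multiple after `m`
  obtain ⟨i, hi1, hi2⟩ : ∃ i, m ≤ p K * i ∧ p K * i < m + p K := by
    refine ⟨(m + (p K - 1)) / p K, ?_, ?_⟩
    · have h3 := Nat.div_add_mod (m + (p K - 1)) (p K)
      have h4 := Nat.mod_lt (m + (p K - 1)) hp
      omega
    · have h3 := Nat.div_mul_le_self (m + (p K - 1)) (p K)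
      rw [Nat.mul_comm] at h3
      omega
  have h1 := h.finish K m (p K * i) (dvd_mul_right _ _) hi1 hi2
  obtain ⟨t, ht⟩ : ∃ t, t = (n - p K * i) / p K := ⟨_, rfl⟩
  have h3 := Nat.div_add_mod (n - p K * i) (p K)
  have h4 := Nat.mod_lt (n - p K * i) hp
  rw [← ht] at h3
  have ht2 : t ≤ B := by
    have h5 : p K * t < p K * B := by
      calc p K * t ≤ n - p K * i := by omega
        _ ≤ n - m := by omega
        _ < p (K + 1) := hK2
        _ ≤ B * p K := h.ratio K
        _ = p K * B := by ring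
    exact (Nat.lt_of_mul_lt_mul_left h5).le
  have e1 : p K * (i + t) = p K * i + p K * t := by ring
  have h5 := blocks h.one_le (h.block K) i t
  have h6 := h.start K (p K * (i + t)) n (dvd_mul_right _ _) (by omega) (by omega)
  have h7 : DD d c m n ≤ (C ^ B) ^ K * (C ^ B * (C ^ B) ^ K) := by
    rw [← DD_mul d c (k := p K * i) hi1 (by omega),
      ← DD_mul d c (m := p K * i) (k := p K * (i + t)) (by omega) (by omega)]
    apply mul_le_mul h1 _ (mul_nonneg (DD_nonneg _ _ _ _) (DD_nonneg _ _ _ _)) (by positivity)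
    exact mul_le_mul (h5.trans (pow_le_pow_right₀ h.one_le ht2)) h6 (DD_nonneg _ _ _ _)
      (by positivity)
  refine h7.trans ?_
  have h8 : (C ^ B) ^ K * (C ^ B * (C ^ B) ^ K) = C ^ B * (C ^ B) ^ (2 * K) := by ring
  rw [h8]
  apply mul_le_mul_of_nonneg_left _ (by positivity)
  have h9 : ((C ^ B) ^ (2 * K) : ℝ) = ((2 : ℝ) ^ K) ^ (2 * Real.log (C ^ B) / Real.log 2) := by
    rw [← Real.rpow_natCast (2 : ℝ) K, ← Real.rpow_mul (by norm_num : (0 : ℝ) ≤ 2),
      Real.rpow_def_of_pos (by norm_num : (0 : ℝ) < 2), ← Real.rpow_natCast (C ^ B),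
      Real.rpow_def_of_pos (by linarith : (0 : ℝ) < C ^ B)]
    congr 1
    push_cast
    field_simp
  rw [h9]
  apply Real.rpow_le_rpow (by positivity)
  · have h10 : 2 ^ K ≤ n - m + 1 := by
      have := h.two_pow K
      omega
    exact_mod_cast h10
  · have := Real.log_nonneg hCB
    positivity

end Pool.Agent.U256.GD

namespace Pool.Agent.U256.RR

variable {d : ℕ} {c : ℝ} {p : ℕ → ℕ} {β : ℕ → ℝ}

/-- **Explicit polynomial growth.** -/
theorem Tower.poly_explicit (hd2 : 2 ≤ d) (h : Tower d c p β) (hp0 : p 0 = 1) {B : ℕ}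
    (hB : ∀ k, p (k + 1) ≤ B * p k) (m n : ℕ) :
    ‖deriv ((fun z : ℂ => z ^ d + (c : ℂ))^[n]) ((fun z : ℂ => z ^ d + (c : ℂ))^[m] 0)‖ ≤
      (4 * (d : ℝ) * (1 + 8 * d)) ^ B *
        ((n : ℝ) + 1) ^ (2 * Real.log ((4 * (d : ℝ) * (1 + 8 * d)) ^ B) / Real.log 2) := by
  have hd1 : (1 : ℝ) ≤ d := by exact_mod_cast (by omega : 1 ≤ d)
  have hch : Pool.Agent.U256.GD.Chain d (c : ℂ) p B (4 * d * (1 + 8 * d)) := by
    refine ⟨hp0, fun k => (h k).2.1, fun k => (h k).2.2.1, hB, by nlinarith, fun k i => ?_⟩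
    have h1 := h.complex_bounds hd2 k i
    refine le_trans (le_of_eq ?_) h1
    rw [mul_comm i (p k)]
    exact (Pool.Agent.U256.GD.norm_deriv_iter d (c : ℂ) (p k * i) (p k)).symm
  have h2 := hch.poly_explicit m (m + n) (by omega)
  rw [Nat.add_sub_cancel_left] at h2
  refine le_trans (le_of_eq ?_) h2
  exact Pool.Agent.U256.GD.norm_deriv_iter d (c : ℂ) m n

end Pool.Agent.U256.RR
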