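import Pool.Agent.U256.RR.D
import Pool.Prelude.Def_F_c31e40fa

set_option autoImplicit false

/-!
# Real infinitely renormalizable unicritical maps in the complex plane

The parameter lies in the Multibrot set, and the derivatives of the iterates at the points of the
critical orbit grow subexponentially, uniformly in the point.
-/

open Set Filter Topology MeasureTheory N62a1eb23

namespace Pool.Agent.U256.RR

variable {d : ℕ} {c : ℝ} {p : ℕ → ℕ} {β : ℕ → ℝ}

/-- the complex map at a real point -/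
lemma iter_ofReal (d : ℕ) (c : ℝ) (n : ℕ) (x : ℝ) :
    (fun z : ℂ => z ^ d + (c : ℂ))^[n] (x : ℂ) = (((g d c)^[n] x : ℝ) : ℂ) := by
  induction n with
  | zero => rfl
  | succ n ih =>
    rw [Function.iterate_succ_apply', Function.iterate_succ_apply', ih]
    unfold g
    push_cast
    rfl

lemma norm_deriv (d : ℕ) (c : ℝ) (n : ℕ) (x : ℝ) :
    ‖deriv ((fun z : ℂ => z ^ d + (c : ℂ))^[n]) (x : ℂ)‖ = D d c n x := by
  have key : ∃ s, HasDerivAt ((fun z : ℂ => z ^ d + (c : ℂ))^[n]) s (x : ℂ) ∧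
      ‖s‖ = D d c n x := by
    induction n with
    | zero => exact ⟨1, by simpa using hasDerivAt_id (x : ℂ), by simp [D]⟩
    | succ n ih =>
      obtain ⟨s, hs, h⟩ := ih
      have h1 : HasDerivAt (fun z : ℂ => z ^ d + (c : ℂ))
          ((d : ℂ) * ((fun z : ℂ => z ^ d + (c : ℂ))^[n] (x : ℂ)) ^ (d - 1))
          ((fun z : ℂ => z ^ d + (c : ℂ))^[n] (x : ℂ)) :=
        (hasDerivAt_pow d _).add_const (c : ℂ)
      refine ⟨(d : ℂ) * ((fun z : ℂ => z ^ d + (c : ℂ))^[n] (x : ℂ)) ^ (d - 1) * s, ?_, ?_⟩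
      · rw [Function.iterate_succ']
        exact h1.comp (x : ℂ) hs
      · rw [norm_mul, h, norm_mul, norm_pow, iter_ofReal, Complex.norm_real, Complex.norm_natCast,
          Real.norm_eq_abs, D, D, Finset.prod_range_succ, mul_comm, F]
  obtain ⟨s, hs, h⟩ := key
  rw [hs.deriv, h]

/-- the critical orbit returns to the intervals -/
lemma Tower.return_mem (h : Tower d c p β) (k n : ℕ) :
    (g d c)^[n * p k] 0 ∈ Icc (-β k) (β k) := by
  rw [Nat.mul_comm, Function.iterate_mul]
  have hb := (h k).2.2.2.1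
  exact (h k).2.2.2.2.2.1.iterate n ⟨by linarith, hb.le⟩

/-- the parameter lies in the Multibrot set -/
theorem Tower.mem (h : Tower d c p β) : (c : ℂ) ∈ multibrotSet d := by
  obtain ⟨R, -, -, hR⟩ := h.bounded
  have hb := (h 0).2.2.2.1
  intro htend
  have h1 := (tendsto_norm_cobounded_atTop.comp htend).eventually_gt_atTop R
  obtain ⟨k, hk⟩ := h1.exists
  have h2 : (fun z : ℂ => z ^ d + (c : ℂ))^[k] 0 = (((g d c)^[k] 0 : ℝ) : ℂ) := by
    have := iter_ofReal d c k 0
    rwa [Complex.ofReal_zero] at this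
  simp only [Function.comp_apply] at hk
  rw [h2, Complex.norm_real, Real.norm_eq_abs] at hk
  have h3 := hR 0 k 0 ⟨by linarith, hb.le⟩
  linarith

lemma D_le_pow {M : ℝ} {u : ℝ} (hM : ∀ j, F d c u j ≤ M) (n : ℕ) : D d c n u ≤ M ^ n := by
  have h := Finset.prod_le_prod (s := Finset.range n) (fun j _ => F_nonneg (d := d) (c := c) u j)
    (fun j _ => hM j)
  rwa [Finset.prod_const, Finset.card_range] at h

/-- **Subexponential growth of the derivatives along the critical orbit.** -/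
theorem Tower.all_blocks (hd : 2 ≤ d) (h : Tower d c p β) {a : ℝ} (ha : 0 < a) :
    ∃ N : ℕ, ∀ n ≥ N, ∀ m, D d c n ((g d c)^[m] 0) ≤ Real.exp (a * n) := by
  obtain ⟨R, hR1, hβR, hR⟩ := h.bounded
  obtain ⟨k, -, hk⟩ := h.subexponential hd (half_pos ha) 0
  obtain ⟨q, hq⟩ : ∃ q, q = p k := ⟨_, rfl⟩
  have hq0 : 0 < q := hq ▸ (h k).1
  have hret := h.return_mem k
  rw [← hq] at hk hret
  obtain ⟨M, hM⟩ : ∃ M : ℝ, M = max (d * R ^ (d - 1)) 1 := ⟨_, rfl⟩
  have hM1 : 1 ≤ M := hM ▸ le_max_right _ _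
  have hb := (h 0).2.2.2.1
  have hFM : ∀ m j, F d c ((g d c)^[m] 0) j ≤ M := by
    intro m j
    rw [F_shift]
    unfold F
    refine le_trans ?_ (hM ▸ le_max_left (d * R ^ (d - 1)) 1)
    refine mul_le_mul_of_nonneg_left ?_ (Nat.cast_nonneg d)
    exact pow_le_pow_left₀ (abs_nonneg _) (hR 0 _ 0 ⟨by linarith, hb.le⟩) _
  have hMD : ∀ m n, D d c n ((g d c)^[m] 0) ≤ M ^ n := fun m n => D_le_pow (hFM m) n
  -- blocks of full periods
  have hfull : ∀ i j, D d c (q * j) ((g d c)^[i * q] 0) ≤ Real.exp (a / 2 * (q * j)) := by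
    intro i j
    induction j with
    | zero => simp [D]
    | succ j ih =>
      rw [Nat.mul_add, Nat.mul_one, D_add]
      have h1 : (g d c)^[q * j] ((g d c)^[i * q] 0) = (g d c)^[(j + i) * q] 0 := by
        rw [← Function.iterate_add_apply]
        congr 2
        ring
      rw [h1]
      have h2 := hk _ (hret (j + i))
      calc D d c (q * j) ((g d c)^[i * q] 0) * D d c q ((g d c)^[(j + i) * q] 0)
          ≤ Real.exp (a / 2 * (q * j)) * Real.exp (a / 2 * q) :=
            mul_le_mul ih h2 (D_nonneg _ _) (Real.exp_pos _).le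
        _ = _ := by
            rw [← Real.exp_add]
            congr 1
            push_cast
            ring
  -- all blocks
  have hall : ∀ m n, D d c n ((g d c)^[m] 0) ≤ M ^ (2 * q) * Real.exp (a / 2 * n) := by
    intro m n
    have hexp1 : ∀ x : ℕ, 1 ≤ Real.exp (a / 2 * x) := fun x => Real.one_le_exp (by positivity)
    obtain ⟨i, s, hs, hms⟩ : ∃ i s, s < q ∧ m + s = i * q := by
      obtain ⟨i, hi⟩ : ∃ i, i = (m + (q - 1)) / q := ⟨_, rfl⟩
      have h1 := Nat.div_add_mod (m + (q - 1)) q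
      have h2 := Nat.mod_lt (m + (q - 1)) hq0
      rw [← hi] at h1
      refine ⟨i, i * q - m, ?_, ?_⟩
      · have : q * i = i * q := Nat.mul_comm _ _
        omega
      · have : q * i = i * q := Nat.mul_comm _ _
        omega
    by_cases hns : n ≤ s
    · calc D d c n ((g d c)^[m] 0) ≤ M ^ n := hMD m n
        _ ≤ M ^ (2 * q) := pow_le_pow_right₀ hM1 (by omega)
        _ ≤ M ^ (2 * q) * Real.exp (a / 2 * n) :=
            le_mul_of_one_le_right (by positivity) (hexp1 n)
    · obtain ⟨j, r, hr, hn⟩ : ∃ j r, r < q ∧ n = s + (q * j + r) := by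
        refine ⟨(n - s) / q, (n - s) % q, Nat.mod_lt _ hq0, ?_⟩
        have h1 := Nat.div_add_mod (n - s) q
        omega
      have h1 : (g d c)^[s] ((g d c)^[m] 0) = (g d c)^[i * q] 0 := by
        rw [← Function.iterate_add_apply, Nat.add_comm, hms]
      have h2 : (g d c)^[q * j] ((g d c)^[i * q] 0) = (g d c)^[q * j + i * q] 0 := by
        rw [← Function.iterate_add_apply]
      have h3 : D d c n ((g d c)^[m] 0) = D d c s ((g d c)^[m] 0) *
          (D d c (q * j) ((g d c)^[i * q] 0) * D d c r ((g d c)^[q * j + i * q] 0)) := by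
        rw [hn, D_add, h1, D_add, h2]
      rw [h3]
      have h4 : D d c (q * j) ((g d c)^[i * q] 0) ≤ Real.exp (a / 2 * n) := by
        refine (hfull i j).trans (Real.exp_le_exp.2 ?_)
        have h5 : ((q * j : ℕ) : ℝ) ≤ n := by exact_mod_cast (by omega : q * j ≤ n)
        push_cast at h5
        nlinarith
      calc D d c s ((g d c)^[m] 0) *
          (D d c (q * j) ((g d c)^[i * q] 0) * D d c r ((g d c)^[q * j + i * q] 0))
          ≤ M ^ q * (Real.exp (a / 2 * n) * M ^ q) := by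
            refine mul_le_mul ((hMD _ _).trans (pow_le_pow_right₀ hM1 hs.le)) ?_
              (mul_nonneg (D_nonneg _ _) (D_nonneg _ _)) (by positivity)
            exact mul_le_mul h4 ((hMD _ _).trans (pow_le_pow_right₀ hM1 hr.le))
              (D_nonneg _ _) (Real.exp_pos _).le
        _ = _ := by
            rw [two_mul, pow_add]
            ring
  obtain ⟨N, hN⟩ := exists_nat_gt (Real.log (M ^ (2 * q)) / (a / 2))
  rw [div_lt_iff₀ (by positivity)] at hN
  refine ⟨N, fun n hn m => (hall m n).trans ?_⟩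
  have h1 : M ^ (2 * q) ≤ Real.exp (a / 2 * n) := by
    rw [← Real.log_le_iff_le_exp (by positivity)]
    have h2 : (N : ℝ) ≤ n := by exact_mod_cast hn
    nlinarith
  calc M ^ (2 * q) * Real.exp (a / 2 * n) ≤ Real.exp (a / 2 * n) * Real.exp (a / 2 * n) :=
        mul_le_mul_of_nonneg_right h1 (Real.exp_pos _).le
    _ = _ := by
        rw [← Real.exp_add]
        congr 1
        ring

/-- **Uniform subexponential bound of all derivatives of order less than `n`.** -/
theorem Tower.deriv_bound (hd : 2 ≤ d) (h : Tower d c p β) {a : ℝ} (ha : 0 < a) :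
    ∀ᶠ n : ℕ in atTop, ∀ m k : ℕ, k < n → D d c k ((g d c)^[m] 0) ≤ Real.exp (a * n) := by
  obtain ⟨R, hR1, hβR, hR⟩ := h.bounded
  obtain ⟨N, hN⟩ := h.all_blocks hd ha
  obtain ⟨M, hM⟩ : ∃ M : ℝ, M = max (d * R ^ (d - 1)) 1 := ⟨_, rfl⟩
  have hM1 : 1 ≤ M := hM ▸ le_max_right _ _
  have hb := (h 0).2.2.2.1
  have hFM : ∀ m j, F d c ((g d c)^[m] 0) j ≤ M := by
    intro m j
    rw [F_shift]
    unfold F
    refine le_trans ?_ (hM ▸ le_max_left (d * R ^ (d - 1)) 1)
    refine mul_le_mul_of_nonneg_left ?_ (Nat.cast_nonneg d)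
    exact pow_le_pow_left₀ (abs_nonneg _) (hR 0 _ 0 ⟨by linarith, hb.le⟩) _
  obtain ⟨N₁, hN₁⟩ := exists_nat_gt (Real.log (M ^ N) / a)
  rw [div_lt_iff₀ ha] at hN₁
  filter_upwards [eventually_ge_atTop N₁] with n hn m k hk
  by_cases hkN : N ≤ k
  · refine (hN k hkN m).trans (Real.exp_le_exp.2 ?_)
    have : (k : ℝ) ≤ n := by exact_mod_cast hk.le
    nlinarith
  · have h1 : D d c k ((g d c)^[m] 0) ≤ M ^ N :=
      (D_le_pow (hFM m) k).trans (pow_le_pow_right₀ hM1 (by omega))
    refine h1.trans ?_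
    rw [← Real.log_le_iff_le_exp (by positivity)]
    have h2 : (N₁ : ℝ) ≤ n := by exact_mod_cast hn
    nlinarith

end Pool.Agent.U256.RR
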