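import Pool.Agent.U256.RR.Cx
import Pool.Agent.Y736.RN.L

set_option autoImplicit false

/-!
# The Multibrot set at the real infinitely renormalizable parameters

Harmonic measure and Green's function of small discs decay faster than every power of the radius.
-/

open Filter Topology Set Metric MeasureTheory Complex N62a1eb23

namespace Pool.Agent.U256.RR

open Pool.Agent.H713R2

/-- the loop at a point where harmonic measure is small -/
theorem loop_osc {ψ : ℂ → ℂ} {c₀ : ℂ} {κ p : ℝ} (hp0 : 0 < p) (hκp : 1 < p * κ)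
    (hvol : ∀ᶠ r : ℝ in 𝓝[>] 0, (volume (Pool.Agent.Y736.HD.Ang ψ c₀ r)).toReal < r ^ κ)
    {F : ℂ → ℂ} (hF : ContinuousOn F {w | 1 ≤ ‖w‖}) (hE : ∀ w, 1 < ‖w‖ → F w = ψ w) {ζ : ℂ}
    (hζ : ‖ζ‖ = 1) (hFζ : F ζ = c₀) :
    ∀ᶠ δ : ℝ in 𝓝[>] 0, ∃ ξ : ℂ, ‖ξ‖ = 1 ∧ ‖ξ - ζ‖ ≤ δ ∧ δ ^ p ≤ ‖F ξ - F ζ‖ := by
  have hpi := Real.pi_pos
  -- the angle of `ζ`
  obtain ⟨θ₀, hθ₀, hθζ⟩ : ∃ θ₀ : ℝ, θ₀ ∈ Ioc 0 (2 * Real.pi) ∧ exp (θ₀ * I) = ζ := by
    have h1 : exp ((arg ζ : ℝ) * I) = ζ := by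
      have := Complex.norm_mul_exp_arg_mul_I ζ
      rwa [hζ, ofReal_one, one_mul] at this
    rcases le_or_gt (arg ζ) 0 with h2 | h2
    · refine ⟨arg ζ + 2 * Real.pi, ⟨?_, by linarith⟩, ?_⟩
      · have := Complex.neg_pi_lt_arg ζ
        linarith
      · push_cast
        rw [add_mul, Complex.exp_add, Complex.exp_two_pi_mul_I, mul_one]
        exact h1
    · exact ⟨arg ζ, ⟨h2, by linarith [Complex.arg_le_pi ζ]⟩, h1⟩
  have hlim : Tendsto (fun δ : ℝ => δ ^ p) (𝓝[>] 0) (𝓝[>] 0) := by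
    rw [tendsto_nhdsWithin_iff]
    refine ⟨?_, ?_⟩
    · have h1 := (Real.continuousAt_rpow_const 0 p (Or.inr hp0.le)).tendsto.mono_left
        (nhdsWithin_le_nhds (s := Ioi (0 : ℝ)))
      rwa [Real.zero_rpow hp0.ne'] at h1
    · filter_upwards [Pool.Agent.Y736.HD.ev_pos] with δ hδ
      exact Real.rpow_pos_of_pos hδ _
  filter_upwards [Pool.Agent.Y736.HD.ev_pos, Pool.Agent.Y736.HD.ev_lt one_pos,
    Pool.Agent.Y736.HD.ev_lt hθ₀.1, hlim.eventually hvol] with δ hδ0 hδ1 hδ2 hδ3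
  by_contra hcon
  push Not at hcon
  -- an interval of angles
  have hsub : Ioc (θ₀ - δ) θ₀ ⊆ Pool.Agent.Y736.HD.Ang ψ c₀ (δ ^ p) := by
    intro θ hθ
    refine ⟨⟨by linarith [hθ.1], hθ.2.trans hθ₀.2⟩, F (exp (θ * I)), ?_, ?_⟩
    · rw [mem_ball, dist_eq_norm, ← hFζ]
      apply hcon
      · exact Complex.norm_exp_ofReal_mul_I θ
      · rw [← hθζ]
        have h1 : exp (θ * I) - exp (θ₀ * I) = exp (θ₀ * I) * (exp (I * ((θ - θ₀ : ℝ) : ℂ)) - 1) := by
          rw [mul_sub, ← Complex.exp_add, mul_one]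
          congr 2
          push_cast
          ring
        rw [h1, norm_mul, Complex.norm_exp_ofReal_mul_I, one_mul]
        refine (Real.norm_exp_I_mul_ofReal_sub_one_le).trans ?_
        rw [Real.norm_eq_abs, abs_le]
        constructor <;> linarith [hθ.1, hθ.2]
    · have h1 : ContinuousWithinAt F {w | 1 ≤ ‖w‖} (exp (θ * I)) :=
        hF _ (by
          show 1 ≤ ‖exp (θ * I)‖
          rw [Complex.norm_exp_ofReal_mul_I])
      have h2 : Tendsto (fun ρ : ℝ => (ρ : ℂ) * exp (θ * I)) (𝓝[>] 1)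
          (𝓝[{w | 1 ≤ ‖w‖}] (exp (θ * I))) := by
        rw [tendsto_nhdsWithin_iff]
        refine ⟨?_, ?_⟩
        · have h3 : Continuous fun ρ : ℝ => (ρ : ℂ) * exp (θ * I) := by fun_prop
          have h4 := (h3.tendsto 1).mono_left (nhdsWithin_le_nhds (s := Ioi (1 : ℝ)))
          simpa using h4
        · filter_upwards [self_mem_nhdsWithin] with ρ hρ
          have hρ' : 1 < ρ := hρ
          show 1 ≤ ‖(ρ : ℂ) * exp (θ * I)‖
          rw [norm_mul, Complex.norm_exp_ofReal_mul_I, mul_one, Complex.norm_real,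
            Real.norm_of_nonneg (by linarith)]
          exact hρ'.le
      refine (h1.tendsto.comp h2).congr' ?_
      filter_upwards [self_mem_nhdsWithin] with ρ hρ
      have hρ' : 1 < ρ := hρ
      apply hE
      rw [norm_mul, Complex.norm_exp_ofReal_mul_I, mul_one, Complex.norm_real,
        Real.norm_of_nonneg (by linarith)]
      exact hρ'
  have h1 : δ ≤ (volume (Pool.Agent.Y736.HD.Ang ψ c₀ (δ ^ p))).toReal := by
    have h2 := ENNReal.toReal_mono (Pool.Agent.Y736.HD.vol_Ang_ne ψ c₀ (δ ^ p)) (measure_mono hsub)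
    rw [Real.volume_Ioc, ENNReal.toReal_ofReal (by linarith)] at h2
    have h3 : δ ≤ (volume (Pool.Agent.Y736.HD.Ang ψ c₀ (δ ^ p))).toReal := by linarith
    exact h3
  have h2 := h1.trans_lt hδ3
  rw [← Real.rpow_mul hδ0.le] at h2
  have h3 : δ ^ (p * κ) < δ ^ (1 : ℝ) := Real.rpow_lt_rpow_of_exponent_gt hδ0 hδ1 hκp
  rw [Real.rpow_one] at h3
  linarith

/-- Green's function is small -/
theorem Tower.not_big {d : ℕ} (hd : 2 ≤ d) {ψ : ℂ → ℂ} (hψ : IsExteriorMap (multibrotSet d) ψ)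
    {c : ℝ} {p : ℕ → ℕ} {β : ℕ → ℝ} (h : Tower d c p β) {κ : ℝ} (hκ : 0 < κ) :
    ¬ Pool.Agent.Y736.RN.Big ψ κ (c : ℂ) := by
  intro hB
  have hlogd : 0 < Real.log d := Real.log_pos (by exact_mod_cast (by omega : 1 < d))
  obtain ⟨a, ha⟩ : ∃ a, a = Real.log d / (2 * κ) := ⟨_, rfl⟩
  have ha0 : 0 < a := by rw [ha]; positivity
  have hκa : κ * a = Real.log d / 2 := by
    rw [ha]
    field_simp
  obtain ⟨N, hN⟩ := h.all_blocks hd ha0
  obtain ⟨k, hk⟩ := exists_nat_gt (κ * Real.log 4 / (Real.log d / 2))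
  obtain ⟨q, hq⟩ : ∃ q, q = max N k + 1 := ⟨_, rfl⟩
  have hNq : N ≤ q := by
    have := le_max_left N k
    omega
  have hkq : k ≤ q := by
    have := le_max_right N k
    omega
  rw [div_lt_iff₀ (by positivity)] at hk
  have h1 : (k : ℝ) ≤ q := by exact_mod_cast hkq
  have hq0 : (0 : ℝ) ≤ q := q.cast_nonneg
  obtain ⟨C, hC⟩ : ∃ C, C = Real.exp (a * q) := ⟨_, rfl⟩
  have hC1 : 1 ≤ C := by
    rw [hC]
    exact Real.one_le_exp (by positivity)
  have hlogC0 : 0 < Real.log (C + 3) := Real.log_pos (by linarith)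
  have hlogC : Real.log (C + 3) ≤ a * q + Real.log 4 := by
    have h2 : C + 3 ≤ C * 4 := by linarith
    have h3 := Real.log_le_log (by linarith) h2
    rw [Real.log_mul (by linarith) (by norm_num)] at h3
    have h4 : Real.log C = a * q := by rw [hC, Real.log_exp]
    linarith
  refine Pool.Agent.Y736.RN.not_fast (d := d) hd h.mem (p := q) (C := C) (by linarith) ?_
    (Pool.Agent.Y736.RN.fast_of_big (d := d) hd (by omega) hψ hκ hlogC0 ?_ hB isBounded_ball)
  · intro i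
    have h2 : Pool.Agent.H712R2.P d (q * i) (c : ℂ) = (((g d c)^[q * i] 0 : ℝ) : ℂ) := by
      have := iter_ofReal d c (q * i) 0
      rwa [ofReal_zero] at this
    have h3 := norm_deriv d c q ((g d c)^[q * i] 0)
    rw [← h2] at h3
    have h4 := hN q hNq (q * i)
    rw [← h3, ← hC] at h4
    exact h4
  · calc Real.log (C + 3) * κ ≤ (a * q + Real.log 4) * κ := by gcongr
      _ = q * (κ * a) + κ * Real.log 4 := by ring
      _ < q * Real.log d := by
        rw [hκa]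
        nlinarith

/-- **Flatness at the real infinitely renormalizable parameters.** -/
theorem Tower.flat {d : ℕ} (hd : 2 ≤ d) {ψ : ℂ → ℂ} (hψ : IsExteriorMap (multibrotSet d) ψ)
    {c : ℝ} {p : ℕ → ℕ} {β : ℕ → ℝ} (h : Tower d c p β) {κ : ℝ} (hκ : 0 < κ) :
    ∀ᶠ r : ℝ in 𝓝[>] 0, (volume (Pool.Agent.Y736.HD.Ang ψ c r)).toReal < r ^ κ ∧
      sSup {x | ∃ w : ℂ, 1 < ‖w‖ ∧ ‖ψ w - c‖ ≤ r ∧ Real.log ‖w‖ = x} < r ^ κ := by
  refine Filter.Eventually.and ?_ ?_
  · by_contra hcon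
    rw [not_eventually] at hcon
    exact h.not_big hd hψ hκ (Pool.Agent.Y736.RN.big_of_vol (d := d) hd hψ h.mem hκ
      (hcon.mono fun r hr => not_lt.1 hr))
  · by_contra hcon
    rw [not_eventually] at hcon
    exact h.not_big hd hψ hκ (Pool.Agent.Y736.RN.big_of_green
      (hcon.mono fun r hr => not_lt.1 hr))

/-- **The derivatives of the polynomials with respect to the parameter.** -/
theorem Tower.param_deriv {d : ℕ} (hd : 2 ≤ d) {ψ : ℂ → ℂ}
    (hψ : IsExteriorMap (multibrotSet d) ψ)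
    {c : ℝ} {p : ℕ → ℕ} {β : ℕ → ℝ} (h : Tower d c p β) {a : ℝ} (ha : 0 < a) :
    ∀ᶠ n : ℕ in atTop, ‖deriv (Pool.Agent.H712R2.P d n) (c : ℂ)‖ < Real.exp (a * n) := by
  by_contra hcon
  rw [not_eventually] at hcon
  have hlogd : 0 < Real.log d := Real.log_pos (by exact_mod_cast (by omega : 1 < d))
  have hκ : 0 < (Real.log d + 1) / a := by positivity
  exact h.not_big hd hψ hκ (Pool.Agent.Y736.RN.big_of_deriv (d := d) hd hψ h.mem hκ
    (by rw [div_mul_cancel₀ _ ha.ne']; linarith) (hcon.mono fun n hn => not_lt.1 hn))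

end Pool.Agent.U256.RR
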