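import Mathlib

set_option autoImplicit false

/-!
# Real infinitely renormalizable unicritical maps: basic facts

`g d c x = x ^ d + c` on the real line, the absolute values of the derivatives of its iterates, and
the fact that `g^p` is not a strict contraction of an interval of a tower of periodic intervals.
-/

open Set Filter Topology

namespace Pool.Agent.U256.RR

/-- The real map `x ↦ x ^ d + c`. -/
def g (d : ℕ) (c : ℝ) : ℝ → ℝ := fun x => x ^ d + c

/-- The absolute value of the derivative of `g` at the `j`-th point of the orbit of `u`. -/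
noncomputable def F (d : ℕ) (c u : ℝ) (j : ℕ) : ℝ := d * |(g d c)^[j] u| ^ (d - 1)

/-- The absolute value of the derivative of the `n`-th iterate at `u`. -/
noncomputable def D (d : ℕ) (c : ℝ) (n : ℕ) (u : ℝ) : ℝ := ∏ j ∈ Finset.range n, F d c u j

/-- The absolute value of the derivative of the `(n - 1)`-st iterate at `g u`. -/
noncomputable def E (d : ℕ) (c : ℝ) (n : ℕ) (u : ℝ) : ℝ :=
  ∏ j ∈ Finset.range (n - 1), F d c u (j + 1)

variable {d : ℕ} {c : ℝ}

lemma F_nonneg (u : ℝ) (j : ℕ) : 0 ≤ F d c u j := by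
  unfold F
  positivity

lemma D_nonneg (n : ℕ) (u : ℝ) : 0 ≤ D d c n u := Finset.prod_nonneg fun j _ => F_nonneg u j

lemma E_nonneg (n : ℕ) (u : ℝ) : 0 ≤ E d c n u := Finset.prod_nonneg fun _ _ => F_nonneg u _

lemma F_shift (u : ℝ) (m j : ℕ) : F d c ((g d c)^[m] u) j = F d c u (j + m) := by
  unfold F
  rw [← Function.iterate_add_apply]

lemma D_add (m n : ℕ) (u : ℝ) : D d c (m + n) u = D d c m u * D d c n ((g d c)^[m] u) := by
  unfold D
  rw [Finset.prod_range_add]
  congr 1
  refine Finset.prod_congr rfl fun j _ => ?_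
  rw [F_shift, Nat.add_comm]

lemma D_eq {n : ℕ} (hn : 0 < n) (u : ℝ) : D d c n u = d * |u| ^ (d - 1) * E d c n u := by
  obtain ⟨m, rfl⟩ : ∃ m, n = m + 1 := ⟨n - 1, by omega⟩
  unfold D E
  rw [Finset.prod_range_succ', mul_comm]
  rfl

lemma E_eq (n : ℕ) (u : ℝ) : E d c n u = D d c (n - 1) (g d c u) := by
  unfold D E
  refine Finset.prod_congr rfl fun j _ => ?_
  have := F_shift (d := d) (c := c) u 1 j
  rw [← this]
  rfl

/-- the product over `q + 1` blocks -/
lemma E_succ {p q : ℕ} (hp : 0 < p) (hq : 0 < q) (u : ℝ) :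
    E d c (p * (q + 1)) u = E d c (p * q) u * D d c p ((g d c)^[p * q] u) := by
  have h1 : 0 < p * q := Nat.mul_pos hp hq
  unfold D E
  have h2 : p * (q + 1) - 1 = (p * q - 1) + p := by
    rw [Nat.mul_add, Nat.mul_one]
    omega
  rw [h2, Finset.prod_range_add]
  congr 1
  refine Finset.prod_congr rfl fun j _ => ?_
  rw [F_shift]
  congr 1
  omega

lemma hasDerivAt_iter (n : ℕ) (u : ℝ) :
    ∃ s, HasDerivAt ((g d c)^[n]) s u ∧ |s| = D d c n u := by
  induction n with
  | zero => exact ⟨1, by simpa using hasDerivAt_id u, by simp [D]⟩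
  | succ n ih =>
    obtain ⟨s, hs, h⟩ := ih
    have h1 : HasDerivAt (g d c) ((d : ℝ) * ((g d c)^[n] u) ^ (d - 1)) ((g d c)^[n] u) := by
      have := (hasDerivAt_pow d ((g d c)^[n] u)).add_const c
      exact this
    refine ⟨(d : ℝ) * ((g d c)^[n] u) ^ (d - 1) * s, ?_, ?_⟩
    · rw [Function.iterate_succ']
      exact h1.comp u hs
    · rw [abs_mul, h, D, D, Finset.prod_range_succ, mul_comm, F, abs_mul, abs_pow, Nat.abs_cast]

lemma continuous_iter (n : ℕ) : Continuous ((g d c)^[n]) := by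
  refine Continuous.iterate ?_ n
  unfold g
  fun_prop

/-- mean value theorem -/
lemma exists_slope (n : ℕ) {x y : ℝ} (hxy : x < y) :
    ∃ ξ ∈ Ioo x y, |(g d c)^[n] y - (g d c)^[n] x| = D d c n ξ * (y - x) := by
  choose s hs h using fun u => hasDerivAt_iter (d := d) (c := c) n u
  obtain ⟨ξ, hξ, h1⟩ := exists_hasDerivAt_eq_slope ((g d c)^[n]) s hxy
    (continuous_iter n).continuousOn (fun u _ => hs u)
  refine ⟨ξ, hξ, ?_⟩
  rw [← h, h1, abs_div, abs_of_pos (sub_pos.2 hxy), div_mul_cancel₀ _ (sub_pos.2 hxy).ne']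

lemma finite_fiber (hd : d ≠ 0) (n : ℕ) : ∀ y : ℝ, {x | (g d c)^[n] x = y}.Finite := by
  induction n with
  | zero =>
    intro y
    simp
  | succ n ih =>
    intro y
    have h1 : {x | (g d c)^[n + 1] x = y} ⊆ ⋃ z ∈ {z : ℝ | g d c z = y}, {x | (g d c)^[n] x = z} := by
      intro x hx
      have hx' : (g d c)^[n + 1] x = y := hx
      rw [Function.iterate_succ_apply'] at hx'
      simp only [mem_iUnion]
      exact ⟨_, hx', rfl⟩
    refine Set.Finite.subset (Set.Finite.biUnion ?_ fun z _ => ih z) h1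
    rcases Set.eq_empty_or_nonempty {z : ℝ | g d c z = y} with h2 | ⟨z₀, h2⟩
    · rw [h2]
      exact Set.finite_empty
    · refine Set.Finite.subset (Set.toFinite {z₀, -z₀}) ?_
      intro z hz
      have h3 : z ^ d + c = y := hz
      have h4 : z₀ ^ d + c = y := h2
      have h5 : |z| ^ d = |z₀| ^ d := by
        rw [← abs_pow, ← abs_pow]
        congr 1
        linarith
      rw [pow_left_inj₀ (abs_nonneg _) (abs_nonneg _) hd, abs_eq_abs] at h5
      exact h5

end Pool.Agent.U256.RR
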