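import Pool.Agent.U256.RR.A

set_option autoImplicit false

/-!
# Real infinitely renormalizable unicritical maps: no strict contraction
-/

open Set Filter Topology

namespace Pool.Agent.U256.RR

/-- A tower of periodic intervals: `[-β_k, β_k]` is mapped into itself by `g^(p_k)`, the intervals
`g^i [-β_k, β_k]`, `i < p_k`, have pairwise at most one point in common, `β_k` decreases, and the
periods `p_k` increase, each dividing the next one. -/
def Tower (d : ℕ) (c : ℝ) (p : ℕ → ℕ) (β : ℕ → ℝ) : Prop :=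
  ∀ k, 0 < p k ∧ p k ∣ p (k + 1) ∧ p k < p (k + 1) ∧ 0 < β k ∧ β (k + 1) < β k ∧
    MapsTo ((g d c)^[p k]) (Icc (-β k) (β k)) (Icc (-β k) (β k)) ∧
    ∀ i j, i < j → j < p k →
      (((g d c)^[i] '' Icc (-β k) (β k)) ∩ ((g d c)^[j] '' Icc (-β k) (β k))).Subsingleton

variable {d : ℕ} {c : ℝ} {p : ℕ → ℕ} {β : ℕ → ℝ}

lemma Tower.anti (h : Tower d c p β) : StrictAnti β :=
  strictAnti_nat_of_succ_lt fun k => (h k).2.2.2.2.1

lemma Tower.mono (h : Tower d c p β) : StrictMono p :=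
  strictMono_nat_of_lt_succ fun k => (h k).2.2.1

lemma Tower.dvd (h : Tower d c p β) {k l : ℕ} (hkl : k ≤ l) : p k ∣ p l := by
  induction l, hkl using Nat.le_induction with
  | base => exact dvd_rfl
  | succ l _ ih => exact ih.trans (h l).2.1

lemma Tower.sub (h : Tower d c p β) {k l : ℕ} (hkl : k ≤ l) :
    Icc (-β l) (β l) ⊆ Icc (-β k) (β k) := by
  have h1 := h.anti.antitone hkl
  exact Icc_subset_Icc (by linarith) h1

/-- `g^(p_k)` is not a strict contraction of `[-β_k, β_k]`. -/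
theorem Tower.no_contraction (hd : d ≠ 0) (h : Tower d c p β) (k : ℕ) :
    ∃ v ∈ Icc (-β k) (β k), 1 ≤ D d c (p k) v := by
  by_contra hcon
  push Not at hcon
  have hmaps := (h k).2.2.2.2.2.1
  -- distances decrease
  have h1 : ∀ x ∈ Icc (-β k) (β k), ∀ y ∈ Icc (-β k) (β k), x ≠ y →
      |(g d c)^[p k] y - (g d c)^[p k] x| < |y - x| := by
    have h2 : ∀ x ∈ Icc (-β k) (β k), ∀ y ∈ Icc (-β k) (β k), x < y →
        |(g d c)^[p k] y - (g d c)^[p k] x| < |y - x| := by
      intro x hx y hy hxy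
      obtain ⟨ξ, hξ, h3⟩ := exists_slope (d := d) (c := c) (p k) hxy
      rw [h3, abs_of_pos (sub_pos.2 hxy)]
      have h4 := hcon ξ ⟨hx.1.trans hξ.1.le, hξ.2.le.trans hy.2⟩
      have h5 := sub_pos.2 hxy
      nlinarith
    intro x hx y hy hxy
    rcases lt_or_gt_of_ne hxy with h3 | h3
    · exact h2 x hx y hy h3
    · have := h2 y hy x hx h3
      rwa [abs_sub_comm, abs_sub_comm x y] at this
  -- also for iterates
  have h2 : ∀ q : ℕ, 0 < q → ∀ x ∈ Icc (-β k) (β k), ∀ y ∈ Icc (-β k) (β k), x ≠ y →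
      |((g d c)^[p k])^[q] y - ((g d c)^[p k])^[q] x| < |y - x| := by
    intro q hq
    induction q, hq using Nat.le_induction with
    | base => exact h1
    | succ q hq ih =>
      intro x hx y hy hxy
      rw [Function.iterate_succ_apply', Function.iterate_succ_apply']
      by_cases h3 : ((g d c)^[p k])^[q] x = ((g d c)^[p k])^[q] y
      · rw [h3, sub_self, abs_zero]
        exact abs_pos.2 (sub_ne_zero.2 hxy.symm)
      · exact (h1 _ (hmaps.iterate q hx) _ (hmaps.iterate q hy) h3).trans (ih x hx y hy hxy)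
  -- fixed points
  have h3 : ∀ l, k < l → ∃ z ∈ Icc (-β l) (β l), (g d c)^[p k] z = z := by
    intro l hkl
    obtain ⟨q, hq⟩ := h.dvd hkl.le
    have hpl := h.mono hkl
    have hq0 : 0 < q := by
      rcases Nat.eq_zero_or_pos q with h4 | h4
      · rw [h4, Nat.mul_zero] at hq
        omega
      · exact h4
    have hβl := (h l).2.2.2.1
    obtain ⟨z, hz, hfix⟩ := exists_mem_Icc_isFixedPt_of_mapsTo
      (continuous_iter (d := d) (c := c) (p l)).continuousOn (by linarith : -β l ≤ β l)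
      (h l).2.2.2.2.2.1
    refine ⟨z, hz, ?_⟩
    by_contra hne
    have hzk : z ∈ Icc (-β k) (β k) := h.sub hkl.le hz
    have h4 : ((g d c)^[p k])^[q] = (g d c)^[p l] := by
      rw [← Function.iterate_mul, ← hq]
    have h5 := h2 q hq0 z hzk _ (hmaps hzk) (Ne.symm hne)
    rw [h4] at h5
    have h6 : (g d c)^[p l] ((g d c)^[p k] z) = (g d c)^[p k] z := by
      rw [← Function.iterate_add_apply, Nat.add_comm, Function.iterate_add_apply, hfix.eq]
    rw [h6, hfix.eq] at h5
    exact lt_irrefl _ h5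
  obtain ⟨z, hz, hfz⟩ := h3 (k + 1) (by omega)
  obtain ⟨z', hz', hfz'⟩ := h3 (k + 2) (by omega)
  have hzz : z = z' := by
    by_contra hne
    have h4 := h1 z (h.sub (by omega) hz) z' (h.sub (by omega) hz') hne
    rw [hfz, hfz'] at h4
    exact lt_irrefl _ h4
  subst hzz
  have h4 : β (k + 2) < β (k + 1) := h.anti (by omega)
  have hzI : z ∈ Ioo (-β (k + 1)) (β (k + 1)) := ⟨by linarith [hz'.1], by linarith [hz'.2]⟩
  have h5 : Icc (-β (k + 1)) (β (k + 1)) ∈ 𝓝 z := Icc_mem_nhds hzI.1 hzI.2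
  have h6 : ∀ᶠ x in 𝓝 z, (g d c)^[p k] x ∈ Icc (-β (k + 1)) (β (k + 1)) := by
    have h7 := (continuous_iter (d := d) (c := c) (p k)).tendsto z
    rw [hfz] at h7
    exact h7 h5
  have h8 : ∀ᶠ x in 𝓝 z, (g d c)^[p k] x = z := by
    filter_upwards [h5, h6] with x hx1 hx2
    refine (h (k + 1)).2.2.2.2.2.2 0 (p k) (h k).1 (h k).2.2.1 ?_ ?_
    · exact ⟨by simpa using hx2, ⟨x, hx1, rfl⟩⟩
    · exact ⟨by simpa using hz, ⟨z, hz, hfz⟩⟩
  have h9 := finite_fiber (c := c) hd (p k) z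
  exact (infinite_of_mem_nhds z h8) h9

end Pool.Agent.U256.RR
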