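import Pool.Agent.U256.RR.B

set_option autoImplicit false

/-!
# Real infinitely renormalizable unicritical maps: distortion

If the intervals `g^i [-b, b]`, `i < n`, have pairwise at most one point in common and lie in
`[-R, R]`, then the derivative of `g^(n-1)` varies on `g [-b, b]` at most by the factor
`(R / b)^(2 (d - 1))`: the sum of the lengths of the images with respect to `|dt / t|` is at most
`2 log (R / b)`.
-/

open Set Filter Topology MeasureTheory

namespace Pool.Agent.U256.RR

variable {d : ℕ} {c : ℝ}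

/-- monotone function with `dG = |dt / t|` off `[-b, b]` -/
noncomputable def G (b t : ℝ) : ℝ := Real.log (max t b) - Real.log (max (-t) b)

lemma G_mono {b : ℝ} (hb : 0 < b) : Monotone (G b) := by
  intro s t hst
  unfold G
  have h1 : Real.log (max s b) ≤ Real.log (max t b) :=
    Real.log_le_log (lt_max_of_lt_right hb) (max_le_max_right b hst)
  have h2 : Real.log (max (-t) b) ≤ Real.log (max (-s) b) :=
    Real.log_le_log (lt_max_of_lt_right hb) (max_le_max_right b (neg_le_neg hst))
  linarith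

lemma G_of_ge {b t : ℝ} (hb : 0 < b) (h : b ≤ t) : G b t = Real.log t - Real.log b := by
  unfold G
  rw [max_eq_left h, max_eq_right (by linarith)]

lemma G_of_le {b t : ℝ} (hb : 0 < b) (h : t ≤ -b) : G b t = Real.log b - Real.log (-t) := by
  unfold G
  rw [max_eq_right (by linarith), max_eq_left (by linarith)]

/-- two connected sets with at most one common point contain no overlapping intervals -/
lemma no_overlap {S T : Set ℝ} (hS : S.OrdConnected) (hT : T.OrdConnected)
    (h : (S ∩ T).Subsingleton) {s s' t t' : ℝ} (hs : s ∈ S) (hs' : s' ∈ S) (ht : t ∈ T)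
    (ht' : t' ∈ T) : min (max s s') (max t t') ≤ max (min s s') (min t t') := by
  by_contra hcon
  push Not at hcon
  obtain ⟨x, hx1, hx2⟩ := exists_between hcon
  obtain ⟨y, hy1, hy2⟩ := exists_between hx2
  have hS' := hS.uIcc_subset hs hs'
  have hT' := hT.uIcc_subset ht ht'
  have hx : x ∈ S ∩ T := by
    constructor
    · apply hS'
      rw [uIcc, mem_Icc]
      exact ⟨(le_max_left _ _).trans hx1.le, hx2.le.trans (min_le_left _ _)⟩
    · apply hT'
      rw [uIcc, mem_Icc]
      exact ⟨(le_max_right _ _).trans hx1.le, hx2.le.trans (min_le_right _ _)⟩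
  have hy : y ∈ S ∩ T := by
    constructor
    · apply hS'
      rw [uIcc, mem_Icc]
      exact ⟨(le_max_left _ _).trans (hx1.trans hy1).le, hy2.le.trans (min_le_left _ _)⟩
    · apply hT'
      rw [uIcc, mem_Icc]
      exact ⟨(le_max_right _ _).trans (hx1.trans hy1).le, hy2.le.trans (min_le_right _ _)⟩
  exact hy1.ne (h hx hy)

/-- lengths of disjoint intervals -/
lemma sum_le {G : ℝ → ℝ} (hG : Monotone G) {R : ℝ} (hR : 0 ≤ R) (S : Finset ℕ) (a b : ℕ → ℝ)
    (hab : ∀ j ∈ S, a j ≤ b j) (ha : ∀ j ∈ S, -R ≤ a j) (hb : ∀ j ∈ S, b j ≤ R)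
    (hdisj : ∀ i ∈ S, ∀ j ∈ S, i ≠ j → min (b i) (b j) ≤ max (a i) (a j)) :
    ∑ j ∈ S, (G (b j) - G (a j)) ≤ G R - G (-R) := by
  have h0 : ∀ j ∈ S, 0 ≤ G (b j) - G (a j) := fun j hj => sub_nonneg.2 (hG (hab j hj))
  have h1 : (S : Set ℕ).PairwiseDisjoint fun j => Ioo (G (a j)) (G (b j)) := by
    intro i hi j hj hij
    have h2 := hdisj i hi j hj hij
    rw [Function.onFun, Set.disjoint_left]
    intro x hx hy
    rw [min_le_iff, le_max_iff, le_max_iff] at h2
    rcases h2 with (h3 | h3) | (h3 | h3)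
    · exact absurd (hx.1.trans hx.2) (not_lt.2 (hG h3))
    · exact absurd (hy.1.trans hx.2) (not_lt.2 (hG h3))
    · exact absurd (hx.1.trans hy.2) (not_lt.2 (hG h3))
    · exact absurd (hy.1.trans hy.2) (not_lt.2 (hG h3))
  have h2 : volume (⋃ j ∈ S, Ioo (G (a j)) (G (b j))) = ∑ j ∈ S, volume (Ioo (G (a j)) (G (b j))) :=
    measure_biUnion_finset h1 fun j _ => measurableSet_Ioo
  have h3 : (⋃ j ∈ S, Ioo (G (a j)) (G (b j))) ⊆ Icc (G (-R)) (G R) := by
    intro x hx
    simp only [mem_iUnion] at hx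
    obtain ⟨j, hj, hx1, hx2⟩ := hx
    exact ⟨(hG (ha j hj)).trans hx1.le, hx2.le.trans (hG (hb j hj))⟩
  have h4 := measure_mono (μ := volume) h3
  rw [h2, Real.volume_Icc] at h4
  simp only [Real.volume_Ioo] at h4
  rw [← ENNReal.ofReal_sum_of_nonneg h0] at h4
  exact (ENNReal.ofReal_le_ofReal_iff (sub_nonneg.2 (hG (by linarith)))).1 h4

/-- **Distortion.** -/
theorem distortion {n : ℕ} {b R : ℝ} (hb : 0 < b) (hbR : b ≤ R)
    (hdis : ∀ i j, i < j → j < n →
      (((g d c)^[i] '' Icc (-b) b) ∩ ((g d c)^[j] '' Icc (-b) b)).Subsingleton)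
    (hR : ∀ j < n, ∀ u ∈ Icc (-b) b, |(g d c)^[j] u| ≤ R) {u v : ℝ} (hu : u ∈ Icc (-b) b)
    (hv : v ∈ Icc (-b) b) : E d c n u ≤ (R / b) ^ (2 * (d - 1)) * E d c n v := by
  have hoc : ∀ j, ((g d c)^[j] '' Icc (-b) b).OrdConnected := fun j =>
    (isPreconnected_Icc.image _ (continuous_iter (d := d) (c := c) j).continuousOn).ordConnected
  obtain ⟨x, hx⟩ : ∃ x : ℕ → ℝ, x = fun j => (g d c)^[j] u := ⟨_, rfl⟩
  obtain ⟨y, hy⟩ : ∃ y : ℕ → ℝ, y = fun j => (g d c)^[j] v := ⟨_, rfl⟩
  have hxm : ∀ j, x j ∈ (g d c)^[j] '' Icc (-b) b := fun j => ⟨u, hu, by rw [hx]⟩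
  have hym : ∀ j, y j ∈ (g d c)^[j] '' Icc (-b) b := fun j => ⟨v, hv, by rw [hy]⟩
  -- disjointness
  have h1 : ∀ i j, i < j → j < n → min (max (x i) (y i)) (max (x j) (y j)) ≤
      max (min (x i) (y i)) (min (x j) (y j)) := fun i j hij hj =>
    no_overlap (hoc i) (hoc j) (hdis i j hij hj) (hxm i) (hym i) (hxm j) (hym j)
  have hsum := sum_le (G_mono hb) (hb.le.trans hbR) (Finset.Ico 1 n)
    (fun j => min (x j) (y j)) (fun j => max (x j) (y j)) (fun j _ => min_le_max)
    (fun j hj => by
      have h2 := Finset.mem_Ico.1 hj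
      have h3 := (abs_le.1 (hR j h2.2 u hu)).1
      have h4 := (abs_le.1 (hR j h2.2 v hv)).1
      rw [hx, hy]
      exact le_min h3 h4)
    (fun j hj => by
      have h2 := Finset.mem_Ico.1 hj
      have h3 := (abs_le.1 (hR j h2.2 u hu)).2
      have h4 := (abs_le.1 (hR j h2.2 v hv)).2
      rw [hx, hy]
      exact max_le h3 h4)
    (fun i hi j hj hij => by
      have h2 := Finset.mem_Ico.1 hi
      have h3 := Finset.mem_Ico.1 hj
      rcases lt_or_gt_of_ne hij with h4 | h4
      · exact h1 i j h4 h3.2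
      · have := h1 j i h4 h2.2
        rwa [min_comm, max_comm (min (x j) (y j))] at this)
  rw [G_of_ge hb hbR, G_of_le hb (neg_le_neg hbR), neg_neg] at hsum
  -- one point
  have h2 : ∀ j, 1 ≤ j → j < n →
      |x j| ≤ Real.exp (G b (max (x j) (y j)) - G b (min (x j) (y j))) * |y j| := by
    intro j hj1 hjn
    have h3 := no_overlap (hoc 0) (hoc j) (hdis 0 j (by omega) hjn) (s := -b) (s' := b)
      ⟨-b, ⟨le_rfl, by linarith⟩, rfl⟩ ⟨b, ⟨by linarith, le_rfl⟩, rfl⟩ (hxm j) (hym j)
    rw [max_eq_right (by linarith : -b ≤ b), min_eq_left (by linarith : -b ≤ b)] at h3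
    rw [min_le_iff, le_max_iff, le_max_iff] at h3
    rcases h3 with (h4 | h4) | (h4 | h4)
    · linarith
    · have h5 := h4.trans (min_le_left _ _)
      have h6 := h4.trans (min_le_right _ _)
      rw [G_of_ge hb (h4.trans min_le_max), G_of_ge hb h4, abs_of_pos (by linarith),
        abs_of_pos (by linarith)]
      have h7 : Real.log (x j) ≤ Real.log (max (x j) (y j)) :=
        Real.log_le_log (by linarith) (le_max_left _ _)
      have h8 : Real.log (min (x j) (y j)) ≤ Real.log (y j) :=
        Real.log_le_log (by linarith) (min_le_right _ _)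
      calc x j = Real.exp (Real.log (x j) - Real.log (y j)) * y j := by
            rw [Real.exp_sub, Real.exp_log (by linarith), Real.exp_log (by linarith),
              div_mul_cancel₀ _ (by linarith)]
        _ ≤ _ := by
            refine mul_le_mul_of_nonneg_right (Real.exp_le_exp.2 (by linarith)) (by linarith)
    · have h5 := (le_max_left (x j) (y j)).trans h4
      have h6 := (le_max_right (x j) (y j)).trans h4
      rw [G_of_le hb h4, G_of_le hb (min_le_max.trans h4), abs_of_neg (by linarith),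
        abs_of_neg (by linarith)]
      have h7 : Real.log (-x j) ≤ Real.log (-min (x j) (y j)) :=
        Real.log_le_log (by linarith) (neg_le_neg (min_le_left _ _))
      have h8 : Real.log (-max (x j) (y j)) ≤ Real.log (-y j) :=
        Real.log_le_log (by linarith) (neg_le_neg (le_max_right _ _))
      calc -x j = Real.exp (Real.log (-x j) - Real.log (-y j)) * (-y j) := by
            rw [Real.exp_sub, Real.exp_log (by linarith), Real.exp_log (by linarith),
              div_mul_cancel₀ _ (by linarith)]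
        _ ≤ _ := by
            refine mul_le_mul_of_nonneg_right (Real.exp_le_exp.2 (by linarith)) (by linarith)
    · have h5 : x j = y j := le_antisymm
        ((le_max_left _ _).trans (h4.trans (min_le_right _ _)))
        ((le_max_right _ _).trans (h4.trans (min_le_left _ _)))
      rw [h5, min_self, max_self, sub_self, Real.exp_zero, one_mul]
  -- the product
  have h3 : E d c n u ≤ ∏ j ∈ Finset.range (n - 1),
      (Real.exp (G b (max (x (j + 1)) (y (j + 1))) - G b (min (x (j + 1)) (y (j + 1)))) ^ (d - 1) *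
        F d c v (j + 1)) := by
    unfold E
    refine Finset.prod_le_prod (fun j _ => F_nonneg _ _) fun j hj => ?_
    have h4 := h2 (j + 1) (by omega) (by have := Finset.mem_range.1 hj; omega)
    unfold F
    have h5 := pow_le_pow_left₀ (abs_nonneg _) h4 (d - 1)
    rw [mul_pow, hx, hy] at h5
    rw [hx, hy]
    calc (d : ℝ) * |(g d c)^[j + 1] u| ^ (d - 1) ≤ d * _ :=
          mul_le_mul_of_nonneg_left h5 (Nat.cast_nonneg d)
      _ = _ := by ring
  refine h3.trans ?_
  rw [Finset.prod_mul_distrib, Finset.prod_pow, ← Real.exp_sum, ← Real.exp_nat_mul]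
  refine mul_le_mul_of_nonneg_right ?_ (E_nonneg n v)
  have h4 : ∑ j ∈ Finset.range (n - 1),
      (G b (max (x (j + 1)) (y (j + 1))) - G b (min (x (j + 1)) (y (j + 1)))) =
      ∑ j ∈ Finset.Ico 1 n, (G b (max (x j) (y j)) - G b (min (x j) (y j))) := by
    rw [Finset.sum_Ico_eq_sum_range]
    refine Finset.sum_congr rfl fun j _ => ?_
    rw [Nat.add_comm]
  rw [h4]
  calc Real.exp (((d - 1 : ℕ) : ℝ) * ∑ j ∈ Finset.Ico 1 n, (G b (max (x j) (y j)) - G b (min (x j) (y j))))
      ≤ Real.exp (((d - 1 : ℕ) : ℝ) * (2 * (Real.log R - Real.log b))) := by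
        refine Real.exp_le_exp.2 (mul_le_mul_of_nonneg_left ?_ (Nat.cast_nonneg _))
        linarith
    _ = (R / b) ^ (2 * (d - 1)) := by
        rw [← Real.log_div (by linarith) hb.ne', ← Real.rpow_natCast (R / b) (2 * (d - 1)),
          Real.rpow_def_of_pos (div_pos (by linarith) hb)]
        congr 1
        push_cast
        ring

end Pool.Agent.U256.RR
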