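import Pool.Agent.U256.RR.C

set_option autoImplicit false

/-!
# Real infinitely renormalizable unicritical maps: subexponential derivatives

For every tower of periodic intervals of `g x = x ^ d + c` and every `a > 0` there are infinitely
many `k` such that the derivative of `g^(p_k)` on `[-β_k, β_k]` is at most `exp (a p_k)`.
-/

open Set Filter Topology MeasureTheory

namespace Pool.Agent.U256.RR

variable {d : ℕ} {c : ℝ} {p : ℕ → ℕ} {β : ℕ → ℝ}

/-- all orbits of points of the intervals are bounded -/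
lemma Tower.bounded (h : Tower d c p β) :
    ∃ R : ℝ, 1 ≤ R ∧ β 0 ≤ R ∧ ∀ k j, ∀ u ∈ Icc (-β k) (β k), |(g d c)^[j] u| ≤ R := by
  have h1 : IsCompact (⋃ j ∈ Finset.range (p 0), (g d c)^[j] '' Icc (-β 0) (β 0)) := by
    refine (Finset.range (p 0)).isCompact_biUnion fun j _ => ?_
    exact isCompact_Icc.image (continuous_iter j)
  obtain ⟨R, hR⟩ := h1.isBounded.exists_norm_le
  refine ⟨max (max R 1) (β 0), le_max_of_le_left (le_max_right _ _), le_max_right _ _, ?_⟩
  intro k j u hu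
  have hu0 : u ∈ Icc (-β 0) (β 0) := h.sub (Nat.zero_le k) hu
  refine le_max_of_le_left (le_max_of_le_left ?_)
  rw [← Real.norm_eq_abs]
  apply hR
  have h2 : (g d c)^[j] u = (g d c)^[j % p 0] (((g d c)^[p 0])^[j / p 0] u) := by
    rw [← Function.iterate_mul, ← Function.iterate_add_apply, Nat.mod_add_div]
  rw [h2]
  simp only [mem_iUnion]
  refine ⟨j % p 0, Finset.mem_range.2 (Nat.mod_lt _ (h 0).1), _, ?_, rfl⟩
  exact (h 0).2.2.2.2.2.1.iterate _ hu0

/-- upper bound of the derivative by the size of the interval -/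
lemma upper' (hd : 2 ≤ d) {n : ℕ} {b R : ℝ} (hn0 : 0 < n) (hb : 0 < b) (hbR : b ≤ R)
    (hmaps : MapsTo ((g d c)^[n]) (Icc (-b) b) (Icc (-b) b))
    (hdis : ∀ i j, i < j → j < n →
      (((g d c)^[i] '' Icc (-b) b) ∩ ((g d c)^[j] '' Icc (-b) b)).Subsingleton)
    (hR : ∀ j < n, ∀ u ∈ Icc (-b) b, |(g d c)^[j] u| ≤ R) {u : ℝ} (hu : u ∈ Icc (-b) b) :
    D d c n u ≤ 2 * d * (R / b) ^ (2 * (d - 1)) := by
  -- mean value
  have h1 : g d c 0 < g d c b := by
    unfold g
    rw [zero_pow (by omega)]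
    have := pow_pos hb d
    linarith
  obtain ⟨ξ, hξ, h2⟩ := exists_slope (d := d) (c := c) (n - 1) h1
  have h3 : ∀ x, (g d c)^[n - 1] (g d c x) = (g d c)^[n] x := by
    intro x
    rw [← Function.iterate_succ_apply, Nat.succ_eq_add_one, Nat.sub_add_cancel hn0]
  rw [h3, h3] at h2
  have h4 : g d c b - g d c 0 = b ^ d := by
    unfold g
    rw [zero_pow (by omega)]
    ring
  rw [h4] at h2
  -- the point `w`
  obtain ⟨w, hw, hwξ⟩ : ∃ w ∈ Icc (-b) b, g d c w = ξ := by
    have h5 := intermediate_value_Icc hb.le (f := g d c)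
      (by unfold g; fun_prop : Continuous (g d c)).continuousOn
    obtain ⟨w, hw, hwξ⟩ := h5 ⟨hξ.1.le, hξ.2.le⟩
    exact ⟨w, ⟨by linarith [hw.1], hw.2⟩, hwξ⟩
  rw [← hwξ, ← E_eq] at h2
  have h5 : |(g d c)^[n] b - (g d c)^[n] 0| ≤ 2 * b := by
    have h6 := hmaps (⟨by linarith, le_rfl⟩ : b ∈ Icc (-b) b)
    have h7 := hmaps (⟨by linarith, hb.le⟩ : (0 : ℝ) ∈ Icc (-b) b)
    rw [abs_le]
    constructor <;> linarith [h6.1, h6.2, h7.1, h7.2]
  rw [h2] at h5
  have h6 : E d c n w * b ^ (d - 1) ≤ 2 := by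
    have h7 : b ^ d = b ^ (d - 1) * b := by
      rw [← pow_succ]
      congr 1
      omega
    rw [h7] at h5
    have h8 : (E d c n w * b ^ (d - 1)) * b ≤ 2 * b := by linarith
    exact le_of_mul_le_mul_right h8 hb
  have h7 := distortion (d := d) (c := c) hb hbR hdis hR hu hw
  rw [D_eq hn0]
  have h8 : |u| ^ (d - 1) ≤ b ^ (d - 1) :=
    pow_le_pow_left₀ (abs_nonneg _) (abs_le.2 ⟨hu.1, hu.2⟩) _
  have h9 : 0 ≤ (R / b) ^ (2 * (d - 1)) := by
    have : 0 ≤ R / b := div_nonneg (by linarith) hb.le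
    positivity
  calc (d : ℝ) * |u| ^ (d - 1) * E d c n u
      ≤ d * b ^ (d - 1) * ((R / b) ^ (2 * (d - 1)) * E d c n w) := by
        refine mul_le_mul (mul_le_mul_of_nonneg_left h8 (Nat.cast_nonneg d)) h7 (E_nonneg _ _)
          (by positivity)
    _ = d * (R / b) ^ (2 * (d - 1)) * (E d c n w * b ^ (d - 1)) := by ring
    _ ≤ d * (R / b) ^ (2 * (d - 1)) * 2 := by
        refine mul_le_mul_of_nonneg_left h6 (by positivity)
    _ = _ := by ring

/-- upper bound of the derivative by the size of the interval -/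
lemma Tower.upper (hd : 2 ≤ d) (h : Tower d c p β) {R : ℝ}
    (hβR : β 0 ≤ R) (hR : ∀ k j, ∀ u ∈ Icc (-β k) (β k), |(g d c)^[j] u| ≤ R) (k : ℕ) {u : ℝ}
    (hu : u ∈ Icc (-β k) (β k)) : D d c (p k) u ≤ 2 * d * (R / β k) ^ (2 * (d - 1)) :=
  upper' hd (h k).1 (h k).2.2.2.1 ((h.anti.antitone (Nat.zero_le k)).trans hβR)
    (h k).2.2.2.2.2.1 (h k).2.2.2.2.2.2 (fun j _ u hu => hR k j u hu) hu

/-- derivatives over several periods -/
lemma Tower.blocks (h : Tower d c p β) (m : ℕ) {e : ℝ} (he : ∀ w ∈ Icc (-β m) (β m),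
    E d c (p m) w ≤ e) {q : ℕ} (hq : 0 < q) {u : ℝ} (hu : u ∈ Icc (-β m) (β m)) :
    E d c (p m * q) u ≤ e ^ q * (d * β m ^ (d - 1)) ^ (q - 1) := by
  have hb : 0 < β m := (h m).2.2.2.1
  have he0 : 0 ≤ e := (E_nonneg _ _).trans (he u hu)
  induction q, hq using Nat.le_induction with
  | base => simpa using he u hu
  | succ q hq ih =>
    rw [E_succ (h m).1 hq]
    have h1 : (g d c)^[p m * q] u ∈ Icc (-β m) (β m) := by
      rw [Function.iterate_mul]
      exact (h m).2.2.2.2.2.1.iterate q hu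
    obtain ⟨w, hw⟩ : ∃ w, w = (g d c)^[p m * q] u := ⟨_, rfl⟩
    rw [← hw] at h1 ⊢
    have h2 : D d c (p m) w ≤ d * β m ^ (d - 1) * e := by
      rw [D_eq (h m).1]
      refine mul_le_mul (mul_le_mul_of_nonneg_left ?_ (Nat.cast_nonneg d)) (he w h1)
        (E_nonneg _ _) (by positivity)
      exact pow_le_pow_left₀ (abs_nonneg _) (abs_le.2 ⟨h1.1, h1.2⟩) _
    have h3 : q + 1 - 1 = (q - 1) + 1 := by omega
    rw [h3]
    calc E d c (p m * q) u * D d c (p m) w
        ≤ (e ^ q * (d * β m ^ (d - 1)) ^ (q - 1)) * (d * β m ^ (d - 1) * e) :=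
          mul_le_mul ih h2 (D_nonneg _ _) (by positivity)
      _ = _ := by ring

/-- The intervals are not exponentially small with respect to the periods. -/
theorem Tower.not_small (hd : 2 ≤ d) (h : Tower d c p β) {ε : ℝ} (hε : 0 < ε) (K : ℕ) :
    ∃ k ≥ K, Real.exp (-(ε * p k)) < β k := by
  by_contra hcon
  push Not at hcon
  obtain ⟨R, hR1, -, hR⟩ := h.bounded
  have hd1 : (1 : ℝ) ≤ d := by
    have : 1 ≤ d := by omega
    exact_mod_cast this
  have hlogd : 0 ≤ Real.log d := Real.log_nonneg hd1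
  -- a large level
  obtain ⟨N, hN⟩ := exists_nat_gt (Real.log d / (ε / 4))
  rw [div_lt_iff₀ (by positivity)] at hN
  obtain ⟨m₀, hm₀⟩ : ∃ m₀, m₀ = max K N := ⟨_, rfl⟩
  have hid : ∀ k, k ≤ p k := h.mono.id_le
  have hlarge : ∀ m, m₀ ≤ m → Real.log d ≤ ε / 4 * p m := by
    intro m hm
    have h1 : N ≤ p m := ((le_max_right K N).trans (hm₀ ▸ hm)).trans (hid m)
    have h2 : (N : ℝ) ≤ p m := by exact_mod_cast h1
    nlinarith
  have hsmall : ∀ m, m₀ ≤ m → β m ≤ Real.exp (-(ε * p m)) := fun m hm =>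
    hcon m ((le_max_left K N).trans (hm₀ ▸ hm))
  have hβ1 : ∀ m, m₀ ≤ m → β m ≤ 1 := by
    intro m hm
    refine (hsmall m hm).trans (Real.exp_le_one_iff.2 ?_)
    have : (0 : ℝ) ≤ p m := Nat.cast_nonneg _
    nlinarith
  -- the induction
  obtain ⟨a, ha⟩ : ∃ a, a = Real.log (max ((d * R ^ (d - 1)) ^ (p m₀ - 1)) 1) := ⟨_, rfl⟩
  have ha0 : 0 ≤ a := by
    rw [ha]
    exact Real.log_nonneg (le_max_right _ _)
  have key : ∀ i : ℕ, ∀ u ∈ Icc (-β (m₀ + i)) (β (m₀ + i)),
      E d c (p (m₀ + i)) u ≤ Real.exp ((a - i * (ε / 8)) * p (m₀ + i)) := by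
    intro i
    induction i with
    | zero =>
      intro u hu
      have h1 : E d c (p m₀) u ≤ (d * R ^ (d - 1)) ^ (p m₀ - 1) := by
        unfold E
        have h2 : ∀ j ∈ Finset.range (p m₀ - 1), F d c u (j + 1) ≤ d * R ^ (d - 1) := by
          intro j _
          unfold F
          refine mul_le_mul_of_nonneg_left ?_ (Nat.cast_nonneg d)
          exact pow_le_pow_left₀ (abs_nonneg _) (hR _ _ u hu) _
        have h3 := Finset.prod_le_prod (fun j _ => F_nonneg (d := d) (c := c) u (j + 1)) h2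
        rwa [Finset.prod_const, Finset.card_range] at h3
      have h2 : (max ((d * R ^ (d - 1)) ^ (p m₀ - 1)) 1 : ℝ) = Real.exp a := by
        rw [ha, Real.exp_log (lt_max_of_lt_right one_pos)]
      rw [Nat.cast_zero, zero_mul, sub_zero]
      refine (h1.trans (le_max_left _ 1)).trans ?_
      rw [h2]
      refine Real.exp_le_exp.2 ?_
      have h3 : (1 : ℝ) ≤ p m₀ := by exact_mod_cast (h m₀).1
      show a ≤ a * p m₀
      nlinarith
    | succ i ih =>
      intro u hu
      obtain ⟨m, hm⟩ : ∃ m, m = m₀ + i := ⟨_, rfl⟩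
      have hm' : m₀ + (i + 1) = m + 1 := by omega
      rw [hm'] at hu ⊢
      rw [← hm] at ih
      have hmm : m₀ ≤ m := by omega
      obtain ⟨q, hq⟩ := (h m).2.1
      have hlt := (h m).2.2.1
      have hp0 := (h m).1
      have hq2 : 2 ≤ q := by
        by_contra hq2
        have : q ≤ 1 := by omega
        have h3 : p m * q ≤ p m * 1 := Nat.mul_le_mul_left _ this
        omega
      have h1 := h.blocks m ih (by omega : 0 < q) (h.sub (Nat.le_succ m) hu)
      rw [← hq] at h1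
      refine h1.trans ?_
      obtain ⟨P, hP⟩ : ∃ P : ℝ, P = p m := ⟨_, rfl⟩
      have hP1 : 1 ≤ P := by rw [hP]; exact_mod_cast hp0
      have hpq : ((p (m + 1) : ℕ) : ℝ) = P * q := by
        rw [hq, hP]
        push_cast
        ring
      have hb0 : 0 < β m := (h m).2.2.2.1
      have h2 : (d : ℝ) * β m ^ (d - 1) ≤ Real.exp (-(3 / 4 * ε * P)) := by
        have h3 : β m ^ (d - 1) ≤ β m ^ 1 :=
          pow_le_pow_of_le_one hb0.le (hβ1 m hmm) (by omega)
        rw [pow_one] at h3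
        have h4 := hsmall m hmm
        have h5 := hlarge m hmm
        calc (d : ℝ) * β m ^ (d - 1) ≤ d * Real.exp (-(ε * p m)) :=
              mul_le_mul_of_nonneg_left (h3.trans h4) (Nat.cast_nonneg d)
          _ = Real.exp (Real.log d - ε * p m) := by
              rw [sub_eq_add_neg, Real.exp_add, Real.exp_log (by linarith)]
          _ ≤ _ := by
              refine Real.exp_le_exp.2 ?_
              rw [hP]
              linarith
      have h3 : (d * β m ^ (d - 1) : ℝ) ^ (q - 1) ≤ Real.exp (-(3 / 4 * ε * P)) ^ (q - 1) :=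
        pow_le_pow_left₀ (by positivity) h2 _
      refine (mul_le_mul_of_nonneg_left h3 (by positivity)).trans ?_
      rw [← Real.exp_nat_mul, ← Real.exp_nat_mul, ← Real.exp_add]
      refine Real.exp_le_exp.2 ?_
      have hq1 : ((q - 1 : ℕ) : ℝ) = q - 1 := by
        rw [Nat.cast_sub (by omega), Nat.cast_one]
      have hq2' : (2 : ℝ) ≤ q := by exact_mod_cast hq2
      rw [hq1, hpq, ← hP]
      push_cast
      have h4 : 0 ≤ ε * P := by positivity
      nlinarith [mul_nonneg h4 (by linarith : (0 : ℝ) ≤ q - 2)]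
  -- the contradiction
  obtain ⟨i, hi⟩ := exists_nat_gt ((a + (Real.log d + 1)) / (ε / 8))
  rw [div_lt_iff₀ (by positivity)] at hi
  obtain ⟨v, hv, h1⟩ := h.no_contraction (by omega) (m₀ + i)
  rw [D_eq (h _).1] at h1
  have h2 := key i v hv
  have h3 : |v| ^ (d - 1) ≤ 1 := by
    refine pow_le_one₀ (abs_nonneg _) ?_
    exact (abs_le.2 ⟨hv.1, hv.2⟩).trans (hβ1 _ (by omega))
  have h4 : (1 : ℝ) ≤ p (m₀ + i) := by exact_mod_cast (h (m₀ + i)).1
  have h5 : Real.exp ((a - i * (ε / 8)) * p (m₀ + i)) ≤ Real.exp (-(Real.log d + 1)) := by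
    refine Real.exp_le_exp.2 ?_
    nlinarith
  have h6 : Real.exp (-(Real.log d + 1)) = Real.exp (-1) / d := by
    rw [neg_add, Real.exp_add, Real.exp_neg, Real.exp_log (by linarith)]
    field_simp
  have h7 : (d : ℝ) * |v| ^ (d - 1) * E d c (p (m₀ + i)) v ≤ d * 1 * (Real.exp (-1) / d) := by
    rw [← h6]
    exact mul_le_mul (mul_le_mul_of_nonneg_left h3 (Nat.cast_nonneg d)) (h2.trans h5)
      (E_nonneg _ _) (by positivity)
  have h8 : (d : ℝ) * 1 * (Real.exp (-1) / d) = Real.exp (-1) := by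
    field_simp
  rw [h8] at h7
  have h9 : Real.exp (-1) < 1 := by
    rw [← Real.exp_zero]
    exact Real.exp_lt_exp.2 (by norm_num)
  linarith

/-- **Subexponential derivatives.** -/
theorem Tower.subexponential (hd : 2 ≤ d) (h : Tower d c p β) {a : ℝ} (ha : 0 < a) (K : ℕ) :
    ∃ k ≥ K, ∀ u ∈ Icc (-β k) (β k), D d c (p k) u ≤ Real.exp (a * p k) := by
  obtain ⟨R, hR1, hβR, hR⟩ := h.bounded
  have hd0 : (0 : ℝ) < d := by
    have : 0 < d := by omega
    exact_mod_cast this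
  obtain ⟨ε, hε⟩ : ∃ ε, ε = a / (4 * d) := ⟨_, rfl⟩
  have hε0 : 0 < ε := by rw [hε]; positivity
  obtain ⟨N, hN⟩ := exists_nat_gt (Real.log (2 * d * R ^ (2 * (d - 1))) / (a / 2))
  rw [div_lt_iff₀ (by positivity)] at hN
  obtain ⟨k, hk, hβ⟩ := h.not_small hd hε0 (max K N)
  refine ⟨k, (le_max_left _ _).trans hk, fun u hu => ?_⟩
  refine (h.upper hd hβR hR k hu).trans ?_
  have hb : 0 < β k := (h k).2.2.2.1
  have hNp : (N : ℝ) ≤ p k := by
    exact_mod_cast ((le_max_right K N).trans hk).trans (h.mono.id_le k)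
  have h1 : R / β k ≤ R * Real.exp (ε * p k) := by
    rw [div_le_iff₀ hb]
    have h2 : 1 ≤ Real.exp (ε * p k) * β k := by
      have h3 := mul_le_mul_of_nonneg_left hβ.le (Real.exp_pos (ε * p k)).le
      rwa [← Real.exp_add, add_neg_cancel, Real.exp_zero] at h3
    nlinarith
  have h2 : (R / β k) ^ (2 * (d - 1)) ≤ (R * Real.exp (ε * p k)) ^ (2 * (d - 1)) :=
    pow_le_pow_left₀ (div_nonneg (by linarith) hb.le) h1 _
  have h3 : Real.log (2 * d * R ^ (2 * (d - 1))) ≤ a / 2 * p k := by nlinarith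
  have h4 : 2 * d * R ^ (2 * (d - 1)) ≤ Real.exp (a / 2 * p k) := by
    rwa [← Real.log_le_iff_le_exp (by positivity)]
  calc 2 * (d : ℝ) * (R / β k) ^ (2 * (d - 1))
      ≤ 2 * d * (R * Real.exp (ε * p k)) ^ (2 * (d - 1)) :=
        mul_le_mul_of_nonneg_left h2 (by positivity)
    _ = (2 * d * R ^ (2 * (d - 1))) * Real.exp (ε * p k) ^ (2 * (d - 1)) := by
        rw [mul_pow]
        ring
    _ ≤ Real.exp (a / 2 * p k) * Real.exp (a / 2 * p k) := by
        refine mul_le_mul h4 ?_ (by positivity) (Real.exp_pos _).le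
        rw [← Real.exp_nat_mul]
        refine Real.exp_le_exp.2 ?_
        have h5 : ((2 * (d - 1) : ℕ) : ℝ) ≤ 2 * d := by
          push_cast
          have : ((d - 1 : ℕ) : ℝ) ≤ d := by exact_mod_cast Nat.sub_le d 1
          linarith
        have h6 : 0 ≤ ε * p k := by positivity
        calc ((2 * (d - 1) : ℕ) : ℝ) * (ε * p k) ≤ 2 * d * (ε * p k) :=
              mul_le_mul_of_nonneg_right h5 h6
          _ = a / 2 * p k := by
              rw [hε]
              field_simp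
              ring
    _ = Real.exp (a * p k) := by
        rw [← Real.exp_add]
        congr 1
        ring

end Pool.Agent.U256.RR
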