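import Pool.Agent.U256.RR.A

set_option autoImplicit false

/-!
# The cross ratio inequality for `x ^ d`
-/

open Set Filter Topology

namespace Pool.Agent.U256.RR

/-- the divided difference of `x ^ d` -/
noncomputable def q (d : ℕ) (x y : ℝ) : ℝ := ∑ i ∈ Finset.range d, x ^ i * y ^ (d - 1 - i)

lemma q_mul (d : ℕ) (x y : ℝ) : q d x y * (x - y) = x ^ d - y ^ d :=
  (Commute.all x y).geom_sum₂_mul d

lemma q_self (d : ℕ) (x : ℝ) : q d x x = d * x ^ (d - 1) := by
  unfold q
  rw [Finset.sum_congr rfl (g := fun _ => x ^ (d - 1)) (fun i hi => by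
    have := Finset.mem_range.1 hi
    rw [← pow_add]
    congr 1
    omega), Finset.sum_const, Finset.card_range, nsmul_eq_mul]

lemma q_ineq (d : ℕ) {a b c e : ℝ} (ha : 0 ≤ a) (hb : 0 ≤ b) (hac : a ≤ c) (hbe : b ≤ e) :
    q d a b * q d c e ≤ q d a e * q d c b := by
  have hc : 0 ≤ c := ha.trans hac
  have he : 0 ≤ e := hb.trans hbe
  have aux : ∀ i j, i ≤ j → j < d → 0 ≤ a ^ i * c ^ j - a ^ j * c ^ i ∧
      0 ≤ e ^ (d - 1 - i) * b ^ (d - 1 - j) - b ^ (d - 1 - i) * e ^ (d - 1 - j) := by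
    intro i j hij hj
    obtain ⟨l, rfl⟩ := Nat.exists_eq_add_of_le hij
    constructor
    · have h1 : a ^ l ≤ c ^ l := pow_le_pow_left₀ ha hac l
      have h2 : a ^ i * c ^ (i + l) - a ^ (i + l) * c ^ i = a ^ i * c ^ i * (c ^ l - a ^ l) := by
        ring
      rw [h2]
      exact mul_nonneg (by positivity) (sub_nonneg.2 h1)
    · have h1 : b ^ l ≤ e ^ l := pow_le_pow_left₀ hb hbe l
      obtain ⟨r, hr⟩ : ∃ r, r = d - 1 - (i + l) := ⟨_, rfl⟩
      have e1 : d - 1 - i = r + l := by omega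
      rw [e1, ← hr]
      have h2 : e ^ (r + l) * b ^ r - b ^ (r + l) * e ^ r = e ^ r * b ^ r * (e ^ l - b ^ l) := by
        ring
      rw [h2]
      exact mul_nonneg (by positivity) (sub_nonneg.2 h1)
  have key : ∀ i ∈ Finset.range d, ∀ j ∈ Finset.range d, 0 ≤
      (a ^ i * c ^ j - a ^ j * c ^ i) *
        (e ^ (d - 1 - i) * b ^ (d - 1 - j) - b ^ (d - 1 - i) * e ^ (d - 1 - j)) := by
    intro i hi j hj
    rw [Finset.mem_range] at hi hj
    rcases le_total i j with h | h
    · exact mul_nonneg (aux i j h hj).1 (aux i j h hj).2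
    · have h1 := aux j i h hi
      have h2 := mul_nonneg h1.1 h1.2
      refine h2.trans (le_of_eq ?_)
      ring
  obtain ⟨Z, hZ⟩ : ∃ Z : ℕ → ℕ → ℝ, Z = fun i j => a ^ i * e ^ (d - 1 - i) * (c ^ j * b ^ (d - 1 - j)) -
    a ^ i * b ^ (d - 1 - i) * (c ^ j * e ^ (d - 1 - j)) := ⟨_, rfl⟩
  have h1 : q d a e * q d c b - q d a b * q d c e =
      ∑ i ∈ Finset.range d, ∑ j ∈ Finset.range d, Z i j := by
    unfold q
    rw [Finset.sum_mul_sum, Finset.sum_mul_sum, ← Finset.sum_sub_distrib]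
    refine Finset.sum_congr rfl fun i _ => ?_
    rw [← Finset.sum_sub_distrib, hZ]
  have h2 : ∑ i ∈ Finset.range d, ∑ j ∈ Finset.range d, Z i j =
      ∑ i ∈ Finset.range d, ∑ j ∈ Finset.range d, Z j i := Finset.sum_comm
  have h3 : 0 ≤ ∑ i ∈ Finset.range d, ∑ j ∈ Finset.range d, (Z i j + Z j i) := by
    refine Finset.sum_nonneg fun i hi => Finset.sum_nonneg fun j hj => ?_
    refine (key i hi j hj).trans (le_of_eq ?_)
    rw [hZ]
    ring
  have h4 : ∑ i ∈ Finset.range d, ∑ j ∈ Finset.range d, (Z i j + Z j i) =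
      ∑ i ∈ Finset.range d, ∑ j ∈ Finset.range d, Z i j +
      ∑ i ∈ Finset.range d, ∑ j ∈ Finset.range d, Z j i := by
    rw [← Finset.sum_add_distrib]
    refine Finset.sum_congr rfl fun i _ => ?_
    rw [← Finset.sum_add_distrib]
  rw [h4, ← h2, ← h1] at h3
  linarith

/-- the absolute value -/
lemma abs_q (d : ℕ) {x y : ℝ} (h : 0 ≤ x * y) : |q d x y| = q d |x| |y| := by
  have hnn : ∀ u v : ℝ, 0 ≤ u → 0 ≤ v → 0 ≤ q d u v := by
    intro u v hu hv
    exact Finset.sum_nonneg fun i _ => by positivity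
  rcases le_total 0 x with hx | hx
  · rcases hx.eq_or_lt with hx0 | hx0
    · -- `x = 0`
      subst hx0
      rcases Nat.eq_zero_or_pos d with rfl | hd
      · simp [q]
      have h0 : ∀ v : ℝ, q d 0 v = v ^ (d - 1) := by
        intro v
        unfold q
        rw [Finset.sum_eq_single 0]
        · simp
        · intro i _ hi
          rw [zero_pow hi, zero_mul]
        · intro h1
          exact absurd (Finset.mem_range.2 hd) h1
      rw [h0, abs_zero, h0, abs_pow]
    · have hy : 0 ≤ y := nonneg_of_mul_nonneg_right h hx0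
      rw [abs_of_nonneg (hnn x y hx hy), abs_of_nonneg hx, abs_of_nonneg hy]
  · rcases hx.eq_or_lt with hx0 | hx0
    · subst hx0
      rcases Nat.eq_zero_or_pos d with rfl | hd
      · simp [q]
      have h0 : ∀ v : ℝ, q d 0 v = v ^ (d - 1) := by
        intro v
        unfold q
        rw [Finset.sum_eq_single 0]
        · simp
        · intro i _ hi
          rw [zero_pow hi, zero_mul]
        · intro h1
          exact absurd (Finset.mem_range.2 hd) h1
      rw [h0, abs_zero, h0, abs_pow]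
    · have hy : y ≤ 0 := by
        by_contra h1
        push Not at h1
        have := mul_neg_of_neg_of_pos hx0 h1
        linarith
      have h1 : q d x y = (-1) ^ (d - 1) * q d |x| |y| := by
        unfold q
        rw [Finset.mul_sum]
        refine Finset.sum_congr rfl fun i hi => ?_
        have hi' := Finset.mem_range.1 hi
        rw [abs_of_nonpos hx, abs_of_nonpos hy]
        have h2 : ((-1 : ℝ)) ^ (d - 1) = (-1) ^ i * (-1) ^ (d - 1 - i) := by
          rw [← pow_add]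
          congr 1
          omega
        rw [h2]
        calc x ^ i * y ^ (d - 1 - i) = ((-1) * (-x)) ^ i * ((-1) * (-y)) ^ (d - 1 - i) := by
              norm_num
          _ = _ := by
              rw [mul_pow, mul_pow]
              ring
      rw [h1, abs_mul, abs_pow, abs_neg, abs_one, one_pow, one_mul,
        abs_of_nonneg (hnn _ _ (abs_nonneg _) (abs_nonneg _))]

variable {d : ℕ} {c : ℝ}

/-- the divided difference of the iterate -/
noncomputable def Q (d : ℕ) (c : ℝ) (m : ℕ) (x y : ℝ) : ℝ :=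
  ∏ j ∈ Finset.range m, q d ((g d c)^[j] x) ((g d c)^[j] y)

lemma Q_mul (m : ℕ) (x y : ℝ) : Q d c m x y * (x - y) = (g d c)^[m] x - (g d c)^[m] y := by
  induction m with
  | zero => simp [Q]
  | succ m ih =>
    unfold Q at ih ⊢
    rw [Finset.prod_range_succ, mul_right_comm, ih, mul_comm, q_mul, Function.iterate_succ_apply',
      Function.iterate_succ_apply']
    unfold g
    ring

lemma Q_self (m : ℕ) (x : ℝ) : |Q d c m x x| = D d c m x := by
  unfold Q D F
  rw [Finset.abs_prod]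
  refine Finset.prod_congr rfl fun j _ => ?_
  rw [q_self, abs_mul, abs_pow, Nat.abs_cast]

/-- on `T` the first `m` iterates do not change the sign -/
def Sgn (d : ℕ) (c : ℝ) (m : ℕ) (T : Set ℝ) : Prop :=
  ∀ j < m, ∀ x ∈ T, ∀ y ∈ T, 0 ≤ (g d c)^[j] x * (g d c)^[j] y

lemma Sgn.mono {m : ℕ} {S T : Set ℝ} (h : Sgn d c m T) (hS : S ⊆ T) : Sgn d c m S :=
  fun j hj x hx y hy => h j hj x (hS hx) y (hS hy)

lemma Sgn.cases {m : ℕ} {T : Set ℝ} (h : Sgn d c m T) {j : ℕ} (hj : j < m) :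
    (∀ x ∈ T, 0 ≤ (g d c)^[j] x) ∨ ∀ x ∈ T, (g d c)^[j] x ≤ 0 := by
  by_cases h1 : ∃ x ∈ T, 0 < (g d c)^[j] x
  · obtain ⟨x, hx, h1⟩ := h1
    exact Or.inl fun y hy => nonneg_of_mul_nonneg_right (h j hj x hx y hy) h1
  · push Not at h1
    exact Or.inr h1

/-- the iterates are strictly monotone -/
lemma Sgn.strict (hd : Even d) (hd0 : d ≠ 0) {m : ℕ} {T : Set ℝ} (h : Sgn d c m T) :
    ∀ j ≤ m, StrictMonoOn ((g d c)^[j]) T ∨ StrictAntiOn ((g d c)^[j]) T := by
  intro j
  induction j with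
  | zero =>
    intro _
    left
    intro x _ y _ hxy
    exact hxy
  | succ j ih =>
    intro hj
    have hpos : ∀ u v : ℝ, 0 ≤ u → u < v → g d c u < g d c v := by
      intro u v hu huv
      unfold g
      have := pow_lt_pow_left₀ huv hu hd0
      linarith
    have hneg : ∀ u v : ℝ, v ≤ 0 → u < v → g d c v < g d c u := by
      intro u v hv huv
      have h1 := hpos (-v) (-u) (by linarith) (by linarith)
      unfold g at h1 ⊢
      rwa [hd.neg_pow, hd.neg_pow] at h1
    rcases h.cases (j := j) (by omega) with h1 | h1 <;> rcases ih (by omega) with h2 | h2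
    · left
      intro x hx y hy hxy
      rw [Function.iterate_succ_apply', Function.iterate_succ_apply']
      exact hpos _ _ (h1 x hx) (h2 hx hy hxy)
    · right
      intro x hx y hy hxy
      rw [Function.iterate_succ_apply', Function.iterate_succ_apply']
      exact hpos _ _ (h1 y hy) (h2 hx hy hxy)
    · right
      intro x hx y hy hxy
      rw [Function.iterate_succ_apply', Function.iterate_succ_apply']
      exact hneg _ _ (h1 y hy) (h2 hx hy hxy)
    · left
      intro x hx y hy hxy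
      rw [Function.iterate_succ_apply', Function.iterate_succ_apply']
      exact hneg _ _ (h1 x hx) (h2 hx hy hxy)

/-- the modulus of an iterate is monotone -/
lemma Sgn.abs_mono (hd : Even d) (hd0 : d ≠ 0) {m : ℕ} {T : Set ℝ} (h : Sgn d c m T) {j : ℕ}
    (hj : j < m) : (∀ x ∈ T, ∀ y ∈ T, x ≤ y → |(g d c)^[j] x| ≤ |(g d c)^[j] y|) ∨
      ∀ x ∈ T, ∀ y ∈ T, x ≤ y → |(g d c)^[j] y| ≤ |(g d c)^[j] x| := by
  rcases h.cases hj with h1 | h1 <;> rcases h.strict hd hd0 j hj.le with h2 | h2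
  · left
    intro x hx y hy hxy
    rw [abs_of_nonneg (h1 x hx), abs_of_nonneg (h1 y hy)]
    exact h2.monotoneOn hx hy hxy
  · right
    intro x hx y hy hxy
    rw [abs_of_nonneg (h1 x hx), abs_of_nonneg (h1 y hy)]
    exact h2.antitoneOn hx hy hxy
  · right
    intro x hx y hy hxy
    rw [abs_of_nonpos (h1 x hx), abs_of_nonpos (h1 y hy)]
    exact neg_le_neg (h2.monotoneOn hx hy hxy)
  · left
    intro x hx y hy hxy
    rw [abs_of_nonpos (h1 x hx), abs_of_nonpos (h1 y hy)]
    exact neg_le_neg (h2.antitoneOn hx hy hxy)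

/-- **The cross ratio inequality.** -/
theorem Sgn.cross (hd : Even d) (hd0 : d ≠ 0) {m : ℕ} {T : Set ℝ} (h : Sgn d c m T)
    {x₀ x₁ x₂ x₃ : ℝ} (h₀ : x₀ ∈ T) (h₁ : x₁ ∈ T) (h₂ : x₂ ∈ T) (h₃ : x₃ ∈ T) (h02 : x₀ ≤ x₂)
    (h13 : x₁ ≤ x₃) :
    |Q d c m x₀ x₁| * |Q d c m x₂ x₃| ≤ |Q d c m x₀ x₃| * |Q d c m x₂ x₁| := by
  unfold Q
  rw [Finset.abs_prod, Finset.abs_prod, Finset.abs_prod, Finset.abs_prod,
    ← Finset.prod_mul_distrib, ← Finset.prod_mul_distrib]
  refine Finset.prod_le_prod (fun j _ => by positivity) fun j hj => ?_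
  have hj' := Finset.mem_range.1 hj
  rw [abs_q d (h j hj' _ h₀ _ h₁), abs_q d (h j hj' _ h₂ _ h₃), abs_q d (h j hj' _ h₀ _ h₃),
    abs_q d (h j hj' _ h₂ _ h₁)]
  rcases h.abs_mono hd hd0 hj' with h1 | h1
  · exact q_ineq d (abs_nonneg _) (abs_nonneg _) (h1 _ h₀ _ h₂ h02) (h1 _ h₁ _ h₃ h13)
  · have h2 := q_ineq d (abs_nonneg _) (abs_nonneg _) (h1 _ h₀ _ h₂ h02) (h1 _ h₁ _ h₃ h13)
    calc _ = q d |(g d c)^[j] x₂| |(g d c)^[j] x₃| * q d |(g d c)^[j] x₀| |(g d c)^[j] x₁| :=
          mul_comm _ _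
      _ ≤ _ := h2
      _ = _ := mul_comm _ _

end Pool.Agent.U256.RR
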