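import Pool.Agent.U256.RR.E

set_option autoImplicit false

/-!
# Extension of the iterates beyond a periodic interval
-/

open Set Filter Topology

namespace Pool.Agent.U256.RR

variable {d : ℕ} {c : ℝ}

lemma g_neg (hd : Even d) (x : ℝ) : g d c (-x) = g d c x := by
  unfold g
  rw [hd.neg_pow]

lemma iter_neg (hd : Even d) {i : ℕ} (hi : 1 ≤ i) (x : ℝ) : (g d c)^[i] (-x) = (g d c)^[i] x := by
  obtain ⟨i, rfl⟩ : ∃ l, i = l + 1 := ⟨i - 1, by omega⟩
  rw [Function.iterate_succ_apply, Function.iterate_succ_apply, g_neg hd]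

lemma iter_abs (hd : Even d) {i : ℕ} (hi : 1 ≤ i) {x a : ℝ} (h : |x| = a) :
    (g d c)^[i] x = (g d c)^[i] a := by
  rcases abs_choice x with h1 | h1
  · rw [← h, h1]
  · rw [← h, h1, iter_neg hd hi]

/-- the iterates are proper -/
lemma iter_large (hd : 2 ≤ d) (m : ℕ) {x : ℝ} (hx : 2 + |c| ≤ |x|) : |x| ≤ |(g d c)^[m] x| := by
  have h : ∀ m, |x| ≤ |(g d c)^[m] x| := by
    intro m
    induction m with
    | zero => exact le_rfl
    | succ m ih =>
      rw [Function.iterate_succ_apply']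
      obtain ⟨y, hy⟩ : ∃ y, y = (g d c)^[m] x := ⟨_, rfl⟩
      rw [← hy] at ih ⊢
      have h1 : |y| ^ 2 ≤ |y| ^ d := by
        apply pow_le_pow_right₀ _ hd
        have := abs_nonneg c
        linarith
      have h2 : |y| ^ d - |c| ≤ |g d c y| := by
        unfold g
        have h3 : |y ^ d| ≤ |y ^ d + c| + |c| := by
          calc |y ^ d| = |(y ^ d + c) - c| := by ring_nf
            _ ≤ _ := abs_sub _ _
        rw [abs_pow] at h3
        linarith
      have := abs_nonneg c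
      nlinarith
  exact h m

/-- no zero between points of the same sign, along the path `γ` -/
lemma sgn_of_no_zero {γ : ℝ → ℝ} (hγ : Continuous γ) {m : ℕ} {A : Set ℝ}
    (hA : ∀ u ∈ A, ∀ v ∈ A, u < v → ∀ w ∈ Ioo u v, ∀ j < m, (g d c)^[j] (γ w) ≠ 0) :
    Sgn d c m (γ '' A) := by
  have main : ∀ u ∈ A, ∀ v ∈ A, u < v → ∀ j < m,
      0 ≤ (g d c)^[j] (γ u) * (g d c)^[j] (γ v) := by
    intro u hu v hv huv j hj
    by_contra hcon
    push Not at hcon
    have hc : ContinuousOn (fun w => (g d c)^[j] (γ w)) (Icc u v) :=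
      ((continuous_iter j).comp hγ).continuousOn
    rcases mul_neg_iff.1 hcon with h1 | h1
    · obtain ⟨w, hw, hw0⟩ := intermediate_value_Ioo' huv.le hc ⟨h1.2, h1.1⟩
      exact hA u hu v hv huv w hw j hj hw0
    · obtain ⟨w, hw, hw0⟩ := intermediate_value_Ioo huv.le hc ⟨h1.1, h1.2⟩
      exact hA u hu v hv huv w hw j hj hw0
  rintro j hj _ ⟨u, hu, rfl⟩ _ ⟨v, hv, rfl⟩
  rcases lt_trichotomy u v with h | h | h
  · exact main u hu v hv h j hj
  · rw [h]
    exact mul_self_nonneg _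
  · rw [mul_comm]
    exact main v hv u hu h j hj

/-- monotone functions and distances -/
lemma dist_le_of_strict {T : Set ℝ} {f : ℝ → ℝ} (h : StrictMonoOn f T ∨ StrictAntiOn f T)
    {x y z : ℝ} (hx : x ∈ T) (hy : y ∈ T) (hz : z ∈ T) (hxyz : x ≤ y ∧ y ≤ z ∨ z ≤ y ∧ y ≤ x) :
    |f z - f y| ≤ |f z - f x| := by
  apply abs_sub_right_of_mem_uIcc
  rw [mem_uIcc]
  rcases h with h | h <;> rcases hxyz with h1 | h1
  · exact Or.inl ⟨h.monotoneOn hx hy h1.1, h.monotoneOn hy hz h1.2⟩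
  · exact Or.inr ⟨h.monotoneOn hz hy h1.1, h.monotoneOn hy hx h1.2⟩
  · exact Or.inr ⟨h.antitoneOn hy hz h1.2, h.antitoneOn hx hy h1.1⟩
  · exact Or.inl ⟨h.antitoneOn hy hx h1.2, h.antitoneOn hz hy h1.1⟩

/-- **Extension.** -/
theorem extend (hd : Even d) (hd2 : 2 ≤ d) {a : ℝ} (ha : 0 < a) {m : ℕ} {e σ lam : ℝ}
    (hσ : σ = 1 ∨ σ = -1) (hlam : 0 < lam) (he : ∀ j < m, a ≤ |(g d c)^[j] e|)
    (hlen : ∀ i, 1 ≤ i → i ≤ m → lam ≤ |(g d c)^[i] a - (g d c)^[i] 0| ∨
      lam ≤ |(g d c)^[m] e - (g d c)^[i] a| ∨ lam ≤ |(g d c)^[m] e - (g d c)^[i] 0|) :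
    ∃ u : ℝ, 0 < u ∧ Sgn d c m ((fun v : ℝ => e + σ * v) '' Icc 0 u) ∧
      |(g d c)^[m] (e + σ * u) - (g d c)^[m] e| = lam := by
  have hd0 : d ≠ 0 := by omega
  obtain ⟨γ, hγ⟩ : ∃ γ : ℝ → ℝ, γ = fun v : ℝ => e + σ * v := ⟨_, rfl⟩
  have hγc : Continuous γ := by
    rw [hγ]
    fun_prop
  have hγ0 : γ 0 = e := by rw [hγ]; simp
  rw [← hγ]
  have hγu : ∀ u, e + σ * u = γ u := fun u => by rw [hγ]
  simp only [hγu]
  have hcont : ∀ j, Continuous fun v => (g d c)^[j] (γ v) := fun j => (continuous_iter j).comp hγc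
  -- it suffices to reach `lam`
  suffices H : ∃ U : ℝ, 0 ≤ U ∧ Sgn d c m (γ '' Icc 0 U) ∧
      lam ≤ |(g d c)^[m] (γ U) - (g d c)^[m] e| by
    obtain ⟨U, hU, hS, hl⟩ := H
    have hc : ContinuousOn (fun v => |(g d c)^[m] (γ v) - (g d c)^[m] e|) (Icc 0 U) :=
      ((hcont m).sub continuous_const).abs.continuousOn
    have h0 : |(g d c)^[m] (γ 0) - (g d c)^[m] e| = 0 := by rw [hγ0, sub_self, abs_zero]
    obtain ⟨u, hu, hu'⟩ := intermediate_value_Icc hU hc (show lam ∈ _ from ⟨by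
      rw [h0]; exact hlam.le, hl⟩)
    refine ⟨u, ?_, hS.mono (image_mono (Icc_subset_Icc_right hu.2)), hu'⟩
    rcases hu.1.eq_or_lt with h1 | h1
    · exfalso
      rw [← h1] at hu'
      simp only at hu'
      rw [h0] at hu'
      exact hlam.ne hu'
    · exact h1
  obtain ⟨E, hE⟩ : ∃ E : Set ℝ, E = ⋃ j ∈ Finset.range m,
      {u | 0 ≤ u ∧ (g d c)^[j] (γ u) = 0} := ⟨_, rfl⟩
  have hmem : ∀ u, u ∈ E ↔ ∃ j < m, 0 ≤ u ∧ (g d c)^[j] (γ u) = 0 := by
    intro u
    rw [hE]
    simp only [Finset.mem_range, mem_iUnion, mem_setOf_eq, exists_prop]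
  have hEc : IsClosed E := by
    rw [hE]
    refine isClosed_biUnion_finset fun j _ => ?_
    exact (isClosed_le continuous_const continuous_id).inter
      (isClosed_eq (hcont j) continuous_const)
  rcases E.eq_empty_or_nonempty with h0 | hne
  · -- no zero at all
    obtain ⟨U, hU⟩ : ∃ U, U = 2 + |c| + |e| + |(g d c)^[m] e| + lam := ⟨_, rfl⟩
    have n1 := abs_nonneg c
    have n2 := abs_nonneg e
    have n3 := abs_nonneg ((g d c)^[m] e)
    have hU0 : 0 ≤ U := by rw [hU]; linarith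
    refine ⟨U, hU0, sgn_of_no_zero hγc fun u hu v hv huv w hw j hj h1 => ?_, ?_⟩
    · have : w ∈ E := (hmem w).2 ⟨j, hj, by linarith [hu.1, hw.1], h1⟩
      rw [h0] at this
      exact this
    · have h1 : U - |e| ≤ |γ U| := by
        rw [hγ]
        have h2 : |σ * U| = U := by
          rcases hσ with rfl | rfl
          · rw [one_mul, abs_of_nonneg hU0]
          · rw [neg_one_mul, abs_neg, abs_of_nonneg hU0]
        have h3 : |σ * U| ≤ |e + σ * U| + |e| := by
          calc |σ * U| = |(e + σ * U) - e| := by ring_nf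
            _ ≤ _ := abs_sub _ _
        rw [h2] at h3
        simp only
        linarith
      have h2 := iter_large (c := c) hd2 m (x := γ U) (by linarith)
      have h3 : |(g d c)^[m] (γ U)| ≤ |(g d c)^[m] (γ U) - (g d c)^[m] e| + |(g d c)^[m] e| := by
        calc |(g d c)^[m] (γ U)| = |((g d c)^[m] (γ U) - (g d c)^[m] e) + (g d c)^[m] e| := by
              ring_nf
          _ ≤ _ := abs_add_le _ _
      linarith
  · -- the first zero
    have hbdd : BddBelow E := ⟨0, fun u hu => by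
      obtain ⟨j, _, h1, _⟩ := (hmem u).1 hu
      exact h1⟩
    obtain ⟨U, hU⟩ : ∃ U, U = sInf E := ⟨_, rfl⟩
    have hUE : U ∈ E := hU ▸ hEc.csInf_mem hne hbdd
    obtain ⟨j, hj, hU0, hjU⟩ := (hmem U).1 hUE
    have hS : Sgn d c m (γ '' Icc 0 U) := by
      refine sgn_of_no_zero hγc fun u hu v hv huv w hw i hi h1 => ?_
      have h2 : w ∈ E := (hmem w).2 ⟨i, hi, by linarith [hu.1, hw.1], h1⟩
      have h3 : U ≤ w := hU ▸ csInf_le hbdd h2
      linarith [hw.2, hv.2]
    have hcj : ContinuousOn (fun v => |(g d c)^[j] (γ v)|) (Icc 0 U) := (hcont j).abs.continuousOn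
    obtain ⟨v, hv, hva⟩ := intermediate_value_Icc' hU0 hcj (show a ∈ _ from ⟨by
      simp only [hjU, abs_zero]; exact ha.le, by
      simp only [hγ0]; exact he j hj⟩)
    simp only at hva
    have hi : m = (m - j) + j := by omega
    have hi1 : 1 ≤ m - j := by omega
    have e1 : (g d c)^[m] (γ v) = (g d c)^[m - j] a := by
      conv_lhs => rw [hi]
      rw [Function.iterate_add_apply]
      exact iter_abs hd hi1 hva
    have e2 : (g d c)^[m] (γ U) = (g d c)^[m - j] 0 := by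
      conv_lhs => rw [hi]
      rw [Function.iterate_add_apply, hjU]
    have hst := hS.strict hd hd0 m le_rfl
    rcases hlen (m - j) hi1 (by omega) with h1 | h1 | h1
    · refine ⟨U, hU0, hS, ?_⟩
      rw [← e1, ← e2, abs_sub_comm] at h1
      refine h1.trans ?_
      rw [← hγ0]
      apply dist_le_of_strict hst (mem_image_of_mem _ ⟨le_rfl, hU0⟩) (mem_image_of_mem _ hv)
        (mem_image_of_mem _ ⟨hU0, le_rfl⟩)
      rw [hγ]
      rcases hσ with rfl | rfl
      · left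
        constructor <;> simp only <;> linarith [hv.1, hv.2]
      · right
        constructor <;> simp only <;> linarith [hv.1, hv.2]
    · refine ⟨v, hv.1, hS.mono (image_mono (Icc_subset_Icc_right hv.2)), ?_⟩
      rw [← e1, abs_sub_comm] at h1
      exact h1
    · refine ⟨U, hU0, hS, ?_⟩
      rw [← e2, abs_sub_comm] at h1
      exact h1

end Pool.Agent.U256.RR
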