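import Pool.Agent.U256.RR.Fx

set_option autoImplicit false

/-!
# Real a priori bounds for a periodic cycle of intervals
-/

open Set Filter Topology

namespace Pool.Agent.U256.RR

variable {d : ℕ} {c : ℝ}

/-- `[-a, a]` is periodic of period `n`, its first `n - 1` images are outside `(-a, a)`, and
`g^n [-a, a]` contains `[0, a]` or `[-a, 0]`. -/
def Cyc (d : ℕ) (c a : ℝ) (n : ℕ) : Prop :=
  0 < a ∧ 1 ≤ n ∧ (∀ x, |x| ≤ a → ∀ i, 1 ≤ i → i < n → a ≤ |(g d c)^[i] x|) ∧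
    (∀ x, |x| ≤ a → |(g d c)^[n] x| ≤ a) ∧ (g d c)^[n] 0 * (g d c)^[n] a ≤ 0 ∧
    (|(g d c)^[n] 0| = a ∨ |(g d c)^[n] a| = a)

lemma mul_trans' {x y w : ℝ} (hw : w ≠ 0) (h1 : 0 ≤ x * w) (h2 : 0 ≤ w * y) : 0 ≤ x * y := by
  by_contra hcon
  push Not at hcon
  have h3 : 0 < w ^ 2 := by positivity
  have h4 := mul_neg_of_neg_of_pos hcon h3
  nlinarith [mul_nonneg h1 h2]

lemma g_zero (hd0 : d ≠ 0) : g d c 0 = c := by
  unfold g
  rw [zero_pow hd0, zero_add]

lemma g_abs (hd : Even d) (x : ℝ) : g d c x = |x| ^ d + c := by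
  unfold g
  rw [hd.pow_abs]

variable {a : ℝ} {n : ℕ}

lemma g_lt (hd0 : d ≠ 0) (ha : 0 < a) : g d c 0 < g d c a := by
  rw [g_zero hd0]
  unfold g
  have : 0 < a ^ d := by positivity
  linarith

lemma exists_preimage (hd0 : d ≠ 0) (ha : 0 < a) {z : ℝ} (hz : z ∈ Icc (g d c 0) (g d c a)) :
    ∃ x, |x| ≤ a ∧ g d c x = z := by
  have hc : ContinuousOn (g d c) (Icc 0 a) := (continuous_iter (d := d) (c := c) 1).continuousOn
  obtain ⟨x, hx, hx'⟩ := intermediate_value_Icc ha.le hc hz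
  exact ⟨x, by rw [abs_of_nonneg hx.1]; exact hx.2, hx'⟩

lemma Cyc.outside (hd0 : d ≠ 0) (h : Cyc d c a n) {z : ℝ} (hz : z ∈ Icc (g d c 0) (g d c a))
    {j : ℕ} (hj : j < n - 1) : a ≤ |(g d c)^[j] z| := by
  obtain ⟨x, hx, rfl⟩ := exists_preimage hd0 h.1 hz
  have := h.2.2.1 x hx (j + 1) (by omega) (by omega)
  rwa [Function.iterate_succ_apply] at this

lemma Cyc.mid (hd0 : d ≠ 0) (h : Cyc d c a n) : Sgn d c (n - 1) (Icc (g d c 0) (g d c a)) := by
  have h1 := sgn_of_no_zero (d := d) (c := c) (γ := id) continuous_id (m := n - 1)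
    (A := Icc (g d c 0) (g d c a)) (fun u hu v hv _ w hw j hj h0 => by
      have h2 := h.outside hd0 (z := w) ⟨hu.1.trans hw.1.le, hw.2.le.trans hv.2⟩ hj
      have h3 : (g d c)^[j] w = 0 := h0
      rw [h3, abs_zero] at h2
      linarith [h.1])
  rwa [image_id] at h1

/-- extension on both sides -/
lemma Cyc.ext (hd : Even d) (hd2 : 2 ≤ d) (h : Cyc d c a n) {m : ℕ} (hm : m ≤ n - 1) {lam : ℝ}
    (hlam : 0 < lam)
    (hlen : ∀ e : ℝ, e = g d c 0 ∨ e = g d c a → ∀ i, 1 ≤ i → i ≤ m →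
      lam ≤ |(g d c)^[i] a - (g d c)^[i] 0| ∨
      lam ≤ |(g d c)^[m] e - (g d c)^[i] a| ∨ lam ≤ |(g d c)^[m] e - (g d c)^[i] 0|) :
    ∃ t₀ t₁ : ℝ, t₀ < g d c 0 ∧ g d c a < t₁ ∧ Sgn d c m (Icc t₀ t₁) ∧
      |(g d c)^[m] t₀ - (g d c)^[m] (g d c 0)| = lam ∧
      |(g d c)^[m] t₁ - (g d c)^[m] (g d c a)| = lam := by
  have hd0 : d ≠ 0 := by omega
  have hlt := g_lt (c := c) hd0 h.1
  have o0 : ∀ j < m, a ≤ |(g d c)^[j] (g d c 0)| := fun j hj =>
    h.outside hd0 ⟨le_rfl, hlt.le⟩ (by omega)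
  have o1 : ∀ j < m, a ≤ |(g d c)^[j] (g d c a)| := fun j hj =>
    h.outside hd0 ⟨hlt.le, le_rfl⟩ (by omega)
  obtain ⟨u, hu, hSu, hu'⟩ := extend hd hd2 h.1 (m := m) (e := g d c a) (Or.inl rfl) hlam o1
    (hlen _ (Or.inr rfl))
  obtain ⟨v, hv, hSv, hv'⟩ := extend hd hd2 h.1 (m := m) (e := g d c 0) (Or.inr rfl) hlam o0
    (hlen _ (Or.inl rfl))
  refine ⟨g d c 0 + -1 * v, g d c a + 1 * u, by linarith, by linarith, ?_, hv', hu'⟩
  have hmid : Sgn d c m (Icc (g d c 0) (g d c a)) := fun j hj => h.mid hd0 j (by omega)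
  have hne : ∀ z, (∀ j < m, a ≤ |(g d c)^[j] z|) → ∀ j < m, (g d c)^[j] z ≠ 0 := by
    intro z hz j hj h0
    have := hz j hj
    rw [h0, abs_zero] at this
    linarith [h.1]
  have key : ∀ j < m, ∀ z ∈ Icc (g d c 0 + -1 * v) (g d c a + 1 * u),
      0 ≤ (g d c)^[j] z * (g d c)^[j] (g d c 0) := by
    intro j hj z hz
    rcases le_total z (g d c 0) with h1 | h1
    · refine hSv j hj _ ⟨g d c 0 - z, ⟨by linarith, by linarith [hz.1]⟩, by ring⟩ _
        ⟨0, ⟨le_rfl, hv.le⟩, by ring⟩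
    · rcases le_total z (g d c a) with h2 | h2
      · exact hmid j hj _ ⟨h1, h2⟩ _ ⟨le_rfl, hlt.le⟩
      · refine mul_trans' (hne _ o1 j hj) ?_ (hmid j hj _ ⟨hlt.le, le_rfl⟩ _ ⟨le_rfl, hlt.le⟩)
        exact hSu j hj _ ⟨z - g d c a, ⟨by linarith, by linarith [hz.2]⟩, by ring⟩ _
          ⟨0, ⟨le_rfl, hu.le⟩, by ring⟩
  intro j hj x hx y hy
  refine mul_trans' (hne _ o0 j hj) (key j hj x hx) ?_
  rw [mul_comm]
  exact key j hj y hy

lemma Q_abs (m : ℕ) (x y : ℝ) :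
    |Q d c m x y| * |x - y| = |(g d c)^[m] x - (g d c)^[m] y| := by
  rw [← abs_mul, Q_mul]

lemma dist_lt_of_strict {T : Set ℝ} {f : ℝ → ℝ} (h : StrictMonoOn f T ∨ StrictAntiOn f T)
    {x y z : ℝ} (hx : x ∈ T) (hy : y ∈ T) (hz : z ∈ T) (hxy : x ≤ y) (hyz : y < z) :
    |f y - f x| < |f z - f x| := by
  rcases h with h | h
  · have h1 := h.monotoneOn hx hy hxy
    have h2 := h hy hz hyz
    rw [abs_of_nonneg (by linarith), abs_of_nonneg (by linarith)]
    linarith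
  · have h1 := h.antitoneOn hx hy hxy
    have h2 := h hy hz hyz
    rw [abs_of_nonpos (by linarith), abs_of_nonpos (by linarith)]
    linarith

/-- **Space on the right of the critical value.** -/
lemma Cyc.space (hd : Even d) (hd2 : 2 ≤ d) (h : Cyc d c a n) :
    ∃ (s : ℕ) (lam t : ℝ), 1 ≤ s ∧ s ≤ n ∧ 0 < lam ∧
      (∀ i, 1 ≤ i → i ≤ n → lam ≤ |(g d c)^[i] a - (g d c)^[i] 0|) ∧
      g d c a < t ∧ Sgn d c (s - 1) (Icc (g d c 0) t) ∧
      |(g d c)^[s - 1] t - (g d c)^[s - 1] (g d c a)| = lam ∧ a ^ d ≤ 3 * (t - g d c a) := by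
  have hd0 : d ≠ 0 := by omega
  have hlt := g_lt (c := c) hd0 h.1
  obtain ⟨s, hs, hmin⟩ := Finset.exists_min_image (Finset.Icc 1 n)
    (fun i => |(g d c)^[i] a - (g d c)^[i] 0|) ⟨1, Finset.mem_Icc.2 ⟨le_rfl, h.2.1⟩⟩
  rw [Finset.mem_Icc] at hs
  obtain ⟨lam, hlam⟩ : ∃ lam, lam = |(g d c)^[s] a - (g d c)^[s] 0| := ⟨_, rfl⟩
  have hmin' : ∀ i, 1 ≤ i → i ≤ n → lam ≤ |(g d c)^[i] a - (g d c)^[i] 0| := fun i h1 h2 => by
    rw [hlam]
    exact hmin i (Finset.mem_Icc.2 ⟨h1, h2⟩)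
  obtain ⟨m, hm⟩ : ∃ m, m = s - 1 := ⟨_, rfl⟩
  have hsm : s = m + 1 := by omega
  have hl2 : |(g d c)^[m] (g d c a) - (g d c)^[m] (g d c 0)| = lam := by
    rw [hlam, hsm, Function.iterate_succ_apply, Function.iterate_succ_apply]
  have hlam0 : 0 < lam := by
    rw [← hl2]
    apply abs_pos.2
    intro h0
    rcases (h.mid hd0).strict hd hd0 m (by omega) with h1 | h1
    · have := h1 ⟨le_rfl, hlt.le⟩ ⟨hlt.le, le_rfl⟩ hlt
      linarith
    · have := h1 ⟨le_rfl, hlt.le⟩ ⟨hlt.le, le_rfl⟩ hlt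
      linarith
  obtain ⟨t₀, t₁, ht₀, ht₁, hS, h0, h1⟩ := h.ext hd hd2 (m := m) (by omega) hlam0
    (fun e _ i hi1 hi2 => Or.inl (hmin' i hi1 (by omega)))
  refine ⟨s, lam, t₁, hs.1, hs.2, hlam0, hmin', ht₁, ?_, ?_, ?_⟩
  · rw [← hm]
    exact hS.mono (Icc_subset_Icc_left ht₀.le)
  · rw [← hm]
    exact h1
  · have hcr := hS.cross hd hd0 (x₀ := t₀) (x₁ := g d c 0) (x₂ := g d c a) (x₃ := t₁)
      ⟨le_rfl, by linarith⟩ ⟨by linarith, by linarith⟩ ⟨by linarith, by linarith⟩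
      ⟨by linarith, le_rfl⟩ (by linarith) (by linarith)
    obtain ⟨A, hA⟩ : ∃ A, A = |Q d c m t₀ (g d c 0)| := ⟨_, rfl⟩
    obtain ⟨B, hB⟩ : ∃ B, B = |Q d c m (g d c a) t₁| := ⟨_, rfl⟩
    obtain ⟨C, hC⟩ : ∃ C, C = |Q d c m t₀ t₁| := ⟨_, rfl⟩
    obtain ⟨E, hE⟩ : ∃ E, E = |Q d c m (g d c a) (g d c 0)| := ⟨_, rfl⟩
    obtain ⟨p1, hp1⟩ : ∃ p1, p1 = g d c 0 - t₀ := ⟨_, rfl⟩
    obtain ⟨p2, hp2⟩ : ∃ p2, p2 = g d c a - g d c 0 := ⟨_, rfl⟩
    obtain ⟨p3, hp3⟩ : ∃ p3, p3 = t₁ - g d c a := ⟨_, rfl⟩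
    have q1 : 0 < p1 := by linarith
    have q2 : 0 < p2 := by linarith
    have q3 : 0 < p3 := by linarith
    have eA : A * p1 = lam := by
      have := Q_abs (d := d) (c := c) m t₀ (g d c 0)
      rw [← hA, h0, abs_of_neg (by linarith : t₀ - g d c 0 < 0)] at this
      rw [← this, hp1]
      ring
    have eB : B * p3 = lam := by
      have := Q_abs (d := d) (c := c) m (g d c a) t₁
      rw [← hB, abs_sub_comm ((g d c)^[m] (g d c a)), h1,
        abs_of_neg (by linarith : g d c a - t₁ < 0)] at this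
      rw [← this, hp3]
      ring
    have eE : E * p2 = lam := by
      have := Q_abs (d := d) (c := c) m (g d c a) (g d c 0)
      rw [← hE, hl2, abs_of_pos (by linarith : 0 < g d c a - g d c 0)] at this
      rw [← this, hp2]
    have eC : C * (p1 + p2 + p3) ≤ 3 * lam := by
      have := Q_abs (d := d) (c := c) m t₀ t₁
      rw [← hC, abs_of_neg (by linarith : t₀ - t₁ < 0)] at this
      have h2 : C * (p1 + p2 + p3) = |(g d c)^[m] t₀ - (g d c)^[m] t₁| := by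
        rw [← this, hp1, hp2, hp3]
        ring
      rw [h2]
      have h3 : |(g d c)^[m] t₀ - (g d c)^[m] t₁| ≤
          |(g d c)^[m] t₀ - (g d c)^[m] (g d c 0)| + |(g d c)^[m] (g d c 0) - (g d c)^[m] t₁| :=
        abs_sub_le _ _ _
      have h4 : |(g d c)^[m] (g d c 0) - (g d c)^[m] t₁| ≤
          |(g d c)^[m] (g d c 0) - (g d c)^[m] (g d c a)| +
            |(g d c)^[m] (g d c a) - (g d c)^[m] t₁| := abs_sub_le _ _ _
      rw [abs_sub_comm ((g d c)^[m] (g d c 0)) ((g d c)^[m] (g d c a)), hl2,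
        abs_sub_comm ((g d c)^[m] (g d c a)) ((g d c)^[m] t₁), h1] at h4
      rw [h0] at h3
      linarith
    rw [← hA, ← hB, ← hC, ← hE] at hcr
    have hP : 0 < p1 + p2 + p3 := by linarith
    have hE0 : 0 ≤ E := hE ▸ abs_nonneg _
    have h5 : lam * lam * (p2 * (p1 + p2 + p3)) ≤ lam * lam * (3 * (p1 * p3)) := by
      calc lam * lam * (p2 * (p1 + p2 + p3)) = (A * p1) * (B * p3) * (p2 * (p1 + p2 + p3)) := by
            rw [eA, eB]
        _ = (A * B) * (p1 * p3 * p2 * (p1 + p2 + p3)) := by ring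
        _ ≤ (C * E) * (p1 * p3 * p2 * (p1 + p2 + p3)) := by gcongr
        _ = (C * (p1 + p2 + p3)) * (E * p2) * (p1 * p3) := by ring
        _ ≤ (3 * lam) * (E * p2) * (p1 * p3) := by gcongr
        _ = _ := by
            rw [eE]
            ring
    have h6 := le_of_mul_le_mul_left h5 (mul_pos hlam0 hlam0)
    have h7 : p1 * p2 ≤ p1 * (3 * p3) := by nlinarith [mul_pos q2 q2, mul_pos q2 q3]
    have h8 := le_of_mul_le_mul_left h7 q1
    have h9 : p2 = a ^ d := by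
      rw [hp2, g_zero hd0]
      unfold g
      ring
    rw [← h9, ← hp3]
    exact h8

/-- the constant -/
lemma pow_lt_four_thirds (hd0 : d ≠ 0) : (1 + 1 / (4 * (d : ℝ))) ^ d < 4 / 3 := by
  have hd1 : (0 : ℝ) < d := by exact_mod_cast Nat.pos_of_ne_zero hd0
  have h1 : (1 + 1 / (4 * (d : ℝ))) ^ d ≤ Real.exp (1 / 4) := by
    have h2 : 1 + 1 / (4 * (d : ℝ)) ≤ Real.exp (1 / (4 * (d : ℝ))) := by
      have := Real.add_one_le_exp (1 / (4 * (d : ℝ)))
      linarith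
    calc (1 + 1 / (4 * (d : ℝ))) ^ d ≤ Real.exp (1 / (4 * (d : ℝ))) ^ d := by gcongr
      _ = Real.exp (1 / 4) := by
          rw [← Real.exp_nat_mul]
          congr 1
          field_simp
  refine h1.trans_lt ?_
  have h3 : Real.exp (1 / 4) ^ 4 < (4 / 3 : ℝ) ^ 4 := by
    rw [← Real.exp_nat_mul]
    have := Real.exp_one_lt_d9
    norm_num at this ⊢
    linarith
  exact lt_of_pow_lt_pow_left₀ 4 (by norm_num) h3

/-- **The other intervals are not near `[-a, a]`.** -/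
lemma Cyc.far (hd : Even d) (hd2 : 2 ≤ d) (h : Cyc d c a n) {i : ℕ} (hi : 1 ≤ i) (hin : i < n) :
    (1 + 1 / (4 * (d : ℝ))) * a < |(g d c)^[i] a| ∨ (1 + 1 / (4 * (d : ℝ))) * a < |(g d c)^[i] 0| := by
  have hd0 : d ≠ 0 := by omega
  have ha := h.1
  have hlt := g_lt (c := c) hd0 h.1
  by_contra hcon
  push Not at hcon
  obtain ⟨s, lam, t, hs1, hsn, hlam, hmin, ht, hS, ht', hsp⟩ := h.space hd hd2
  obtain ⟨m, hm⟩ : ∃ m, m = s - 1 := ⟨_, rfl⟩
  rw [← hm] at hS ht'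
  -- the two end points of the next interval
  have key : ∀ x, |x| ≤ a → |(g d c)^[i] x| ≤ (1 + 1 / (4 * (d : ℝ))) * a →
      (g d c)^[i + 1] x ∈ Icc (g d c a) t ∧ (g d c)^[i + 1] x < t := by
    intro x hx hxw
    have h1 := h.2.2.1 x hx i hi hin
    rw [Function.iterate_succ_apply', g_abs hd ((g d c)^[i] x)]
    have h2 : |(g d c)^[i] x| ^ d ≤ ((1 + 1 / (4 * (d : ℝ))) * a) ^ d :=
      pow_le_pow_left₀ (abs_nonneg _) hxw d
    rw [mul_pow] at h2
    have h3 : a ^ d ≤ |(g d c)^[i] x| ^ d := pow_le_pow_left₀ ha.le h1 d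
    have h4 := pow_lt_four_thirds hd0
    have h5 : 0 < a ^ d := by positivity
    have h6 : g d c a = a ^ d + c := rfl
    have h7 : |(g d c)^[i] x| ^ d + c < t := by nlinarith
    exact ⟨⟨by linarith, h7.le⟩, h7⟩
  have kX := key a (by rw [abs_of_pos ha]) hcon.1
  have kY := key 0 (by rw [abs_zero]; exact ha.le) hcon.2
  obtain ⟨X, hX⟩ : ∃ X, X = (g d c)^[i + 1] a := ⟨_, rfl⟩
  obtain ⟨Y, hY⟩ : ∃ Y, Y = (g d c)^[i + 1] 0 := ⟨_, rfl⟩
  rw [← hX] at kX
  rw [← hY] at kY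
  have hst := hS.strict hd hd0 m le_rfl
  have mem : ∀ z, z ∈ Icc (g d c a) t → z ∈ Icc (g d c 0) t := fun z hz =>
    ⟨hlt.le.trans hz.1, hz.2⟩
  have hdist : |(g d c)^[m] X - (g d c)^[m] Y| < lam := by
    rcases le_total X Y with h1 | h1
    · have h2 := dist_le_of_strict hst (mem _ ⟨le_rfl, ht.le⟩) (mem _ kX.1) (mem _ kY.1)
        (Or.inl ⟨kX.1.1, h1⟩)
      have h3 := dist_lt_of_strict hst (mem _ ⟨le_rfl, ht.le⟩) (mem _ kY.1)
        (mem _ ⟨ht.le, le_rfl⟩) kY.1.1 kY.2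
      rw [ht'] at h3
      rw [abs_sub_comm]
      exact h2.trans_lt h3
    · have h2 := dist_le_of_strict hst (mem _ ⟨le_rfl, ht.le⟩) (mem _ kY.1) (mem _ kX.1)
        (Or.inl ⟨kY.1.1, h1⟩)
      have h3 := dist_lt_of_strict hst (mem _ ⟨le_rfl, ht.le⟩) (mem _ kX.1)
        (mem _ ⟨ht.le, le_rfl⟩) kX.1.1 kX.2
      rw [ht'] at h3
      exact h2.trans_lt h3
  have eX : ∀ x : ℝ, (g d c)^[m] ((g d c)^[i + 1] x) = (g d c)^[i + s] x := by
    intro x
    rw [← Function.iterate_add_apply]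
    congr 1
    omega
  rcases le_or_gt (i + s) n with hcase | hcase
  · have h1 := hmin (i + s) (by omega) hcase
    rw [← eX, ← eX, ← hX, ← hY] at h1
    linarith
  · -- the cycle has been completed
    obtain ⟨j, hj⟩ : ∃ j, j = n - (i + 1) := ⟨_, rfl⟩
    obtain ⟨r, hr⟩ : ∃ r, r = i + s - n := ⟨_, rfl⟩
    have eJ : ∀ x : ℝ, (g d c)^[j] ((g d c)^[i + 1] x) = (g d c)^[n] x := by
      intro x
      rw [← Function.iterate_add_apply]
      congr 1
      omega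
    have eR : ∀ x : ℝ, (g d c)^[i + s] x = (g d c)^[r] ((g d c)^[n] x) := by
      intro x
      rw [← Function.iterate_add_apply]
      congr 1
      omega
    have hsg := hS j (by omega) X (mem _ kX.1) Y (mem _ kY.1)
    rw [hX, hY, eJ, eJ] at hsg
    have h3 := h.2.2.2.2.1
    rw [mul_comm] at h3
    have h0 : (g d c)^[n] a * (g d c)^[n] 0 = 0 := le_antisymm h3 hsg
    have hl := hmin r (by omega) (by omega)
    rw [hX, hY, eX, eX, eR, eR] at hdist
    rcases mul_eq_zero.1 h0 with h1 | h1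
    · have h2 : |(g d c)^[n] 0| = a := by
        rcases h.2.2.2.2.2 with h2 | h2
        · exact h2
        · rw [h1, abs_zero] at h2
          linarith
      rw [h1, iter_abs hd (by omega : 1 ≤ r) h2, abs_sub_comm] at hdist
      linarith
    · have h2 : |(g d c)^[n] a| = a := by
        rcases h.2.2.2.2.2 with h2 | h2
        · rw [h1, abs_zero] at h2
          linarith
        · exact h2
      rw [h1, iter_abs hd (by omega : 1 ≤ r) h2] at hdist
      linarith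

lemma alg {A B C E p r a δ : ℝ} (hE : 0 ≤ E) (hp : 0 < p) (hr : 0 < r) (ha : 0 < a) (hδ : 0 < δ)
    (hB : B * r = δ * a) (hC' : C * (p + r) ≤ δ * a + 2 * a) (hE' : E * p ≤ 2 * a)
    (h : A * B ≤ C * E) : A * p * δ ≤ (δ + 2) * (2 * a) := by
  have h1 : a * (p + r) * (A * p * δ) ≤ a * (p + r) * ((δ + 2) * (2 * a)) := by
    calc a * (p + r) * (A * p * δ) = A * (δ * a) * (p * (p + r)) := by ring
      _ = A * B * (r * p * (p + r)) := by rw [← hB]; ring
      _ ≤ C * E * (r * p * (p + r)) := by gcongr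
      _ = (C * (p + r)) * (E * p) * r := by ring
      _ ≤ (δ * a + 2 * a) * (2 * a) * (p + r) := by
          have h2 : 0 ≤ E * p := by positivity
          calc (C * (p + r)) * (E * p) * r ≤ (δ * a + 2 * a) * (E * p) * r := by gcongr
            _ ≤ (δ * a + 2 * a) * (2 * a) * r := by gcongr
            _ ≤ _ := by gcongr; linarith
      _ = _ := by ring
  exact le_of_mul_le_mul_left h1 (by positivity)

/-- **Real a priori bounds.** -/
theorem Cyc.bound (hd : Even d) (hd2 : 2 ≤ d) (h : Cyc d c a n) {x : ℝ} (hx : |x| ≤ a) :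
    D d c n x ≤ 4 * d * (1 + 8 * d) := by
  have hd0 : d ≠ 0 := by omega
  have hd1 : (0 : ℝ) < d := by exact_mod_cast Nat.pos_of_ne_zero hd0
  have ha := h.1
  have hlt := g_lt (c := c) hd0 h.1
  obtain ⟨δ, hδ⟩ : ∃ δ : ℝ, δ = 1 / (4 * (d : ℝ)) := ⟨_, rfl⟩
  have hδ0 : 0 < δ := by rw [hδ]; positivity
  have hδd : δ * (4 * d) = 1 := by
    rw [hδ]
    field_simp
  obtain ⟨m, hm⟩ : ∃ m, m = n - 1 := ⟨_, rfl⟩
  have hn1 := h.2.1
  have hnm : n = m + 1 := by omega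
  have hT2 : ∀ z, |z| ≤ a → |(g d c)^[m] (g d c z)| ≤ a := by
    intro z hz
    have := h.2.2.2.1 z hz
    rwa [hnm, Function.iterate_succ_apply] at this
  obtain ⟨t₀, t₁, ht₀, ht₁, hS, h0, h1⟩ := h.ext hd hd2 (m := m) (by omega)
    (lam := δ * a) (by positivity) (fun e he i hi1 hi2 => by
      right
      have hea : |(g d c)^[m] e| ≤ a := by
        rcases he with rfl | rfl
        · exact hT2 0 (by rw [abs_zero]; exact ha.le)
        · exact hT2 a (by rw [abs_of_pos ha])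
      have h2 := h.far hd hd2 hi1 (by omega : i < n)
      rw [← hδ] at h2
      rcases h2 with h2 | h2
      · left
        have := abs_sub_abs_le_abs_sub ((g d c)^[i] a) ((g d c)^[m] e)
        rw [abs_sub_comm ((g d c)^[m] e)]
        linarith
      · right
        have := abs_sub_abs_le_abs_sub ((g d c)^[i] 0) ((g d c)^[m] e)
        rw [abs_sub_comm ((g d c)^[m] e)]
        linarith)
  obtain ⟨y, hy⟩ : ∃ y, y = g d c x := ⟨_, rfl⟩
  have hyI : y ∈ Icc (g d c 0) (g d c a) := by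
    have h2 : |x| ^ d ≤ a ^ d := pow_le_pow_left₀ (abs_nonneg _) hx d
    have h3 : 0 ≤ |x| ^ d := by positivity
    rw [hy, g_abs hd x, g_zero hd0, show g d c a = a ^ d + c from rfl]
    exact ⟨by linarith, by linarith⟩
  have hya : |(g d c)^[m] y| ≤ a := by
    rw [hy]
    exact hT2 x hx
  have h0a : |(g d c)^[m] (g d c 0)| ≤ a := hT2 0 (by rw [abs_zero]; exact ha.le)
  have h1a : |(g d c)^[m] (g d c a)| ≤ a := hT2 a (by rw [abs_of_pos ha])
  have hgap : g d c a - g d c 0 = a ^ d := by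
    rw [g_zero hd0]
    unfold g
    ring
  have hmain : ∃ p : ℝ, a ^ d / 2 ≤ p ∧ |Q d c m y y| * p * δ ≤ (δ + 2) * (2 * a) := by
    have had : 0 < a ^ d := by positivity
    have tri : ∀ u v : ℝ, |u| ≤ a → |v| ≤ a → |u - v| ≤ 2 * a := fun u v hu hv =>
      (abs_sub u v).trans (by linarith)
    rcases le_total y ((g d c 0 + g d c a) / 2) with hc | hc
    · refine ⟨g d c a - y, by linarith, ?_⟩
      have hcr := hS.cross hd hd0 (x₀ := y) (x₁ := y) (x₂ := g d c a) (x₃ := t₁)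
        ⟨by linarith [hyI.1], by linarith [hyI.2]⟩ ⟨by linarith [hyI.1], by linarith [hyI.2]⟩
        ⟨by linarith, by linarith⟩ ⟨by linarith, le_rfl⟩ hyI.2 (by linarith [hyI.2])
      have hp : 0 < g d c a - y := by linarith
      have hr : 0 < t₁ - g d c a := by linarith
      refine alg (r := t₁ - g d c a) (abs_nonneg _) hp hr ha hδ0 ?_ ?_ ?_ hcr
      · have := Q_abs (d := d) (c := c) m (g d c a) t₁
        rw [abs_sub_comm ((g d c)^[m] (g d c a)), h1, abs_sub_comm (g d c a),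
          abs_of_pos hr] at this
        exact this
      · have := Q_abs (d := d) (c := c) m y t₁
        rw [abs_sub_comm y, abs_of_pos (by linarith [hyI.2] : 0 < t₁ - y)] at this
        have e : (g d c a - y) + (t₁ - g d c a) = t₁ - y := by ring
        rw [e, this]
        have h2 := abs_sub_le ((g d c)^[m] y) ((g d c)^[m] (g d c a)) ((g d c)^[m] t₁)
        rw [abs_sub_comm ((g d c)^[m] (g d c a)), h1] at h2
        linarith [tri _ _ hya h1a]
      · have := Q_abs (d := d) (c := c) m (g d c a) y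
        rw [abs_of_pos hp] at this
        rw [this]
        exact tri _ _ h1a hya
    · refine ⟨y - g d c 0, by linarith, ?_⟩
      have hcr := hS.cross hd hd0 (x₀ := g d c 0) (x₁ := t₀) (x₂ := y) (x₃ := y)
        ⟨by linarith, by linarith⟩ ⟨le_rfl, by linarith⟩
        ⟨by linarith [hyI.1], by linarith [hyI.2]⟩ ⟨by linarith [hyI.1], by linarith [hyI.2]⟩
        hyI.1 (by linarith [hyI.1])
      have hp : 0 < y - g d c 0 := by linarith
      have hr : 0 < g d c 0 - t₀ := by linarith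
      refine alg (r := g d c 0 - t₀) (B := |Q d c m (g d c 0) t₀|) (C := |Q d c m y t₀|)
        (E := |Q d c m (g d c 0) y|) (abs_nonneg _) hp hr ha hδ0 ?_ ?_ ?_ ?_
      · have := Q_abs (d := d) (c := c) m (g d c 0) t₀
        rw [abs_sub_comm ((g d c)^[m] (g d c 0)), h0, abs_of_pos hr] at this
        exact this
      · have := Q_abs (d := d) (c := c) m y t₀
        rw [abs_of_pos (by linarith [hyI.1] : 0 < y - t₀)] at this
        have e : (y - g d c 0) + (g d c 0 - t₀) = y - t₀ := by ring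
        rw [e, this]
        have h2 := abs_sub_le ((g d c)^[m] y) ((g d c)^[m] (g d c 0)) ((g d c)^[m] t₀)
        rw [abs_sub_comm ((g d c)^[m] (g d c 0)), h0] at h2
        linarith [tri _ _ hya h0a]
      · have := Q_abs (d := d) (c := c) m (g d c 0) y
        rw [abs_sub_comm (g d c 0), abs_of_pos hp] at this
        rw [this]
        exact tri _ _ h0a hya
      · rw [mul_comm, mul_comm (|Q d c m y t₀|)]
        exact hcr
  obtain ⟨p, hp, hmain⟩ := hmain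
  have hD : D d c n x = d * |x| ^ (d - 1) * |Q d c m y y| := by
    rw [D_eq (by omega) x, E_eq, ← hy, ← hm, Q_self]
  obtain ⟨A, hA⟩ : ∃ A, A = |Q d c m y y| := ⟨_, rfl⟩
  have hA0 : 0 ≤ A := hA ▸ abs_nonneg _
  rw [hD, ← hA]
  rw [← hA] at hmain
  have had : a ^ d = a ^ (d - 1) * a := by
    rw [← pow_succ]
    congr 1
    omega
  have h2 : A * a ^ (d - 1) ≤ 4 * (1 + 8 * d) := by
    have h3 : A * (a ^ d / 2) * δ ≤ (δ + 2) * (2 * a) := by
      refine le_trans ?_ hmain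
      gcongr
    rw [had] at h3
    have h4 : a * (A * a ^ (d - 1) * δ) ≤ a * (4 * (δ + 2)) := by nlinarith
    have h5 := le_of_mul_le_mul_left h4 ha
    have h6 : A * a ^ (d - 1) = A * a ^ (d - 1) * δ * (4 * d) := by
      rw [mul_assoc, hδd, mul_one]
    rw [h6]
    calc A * a ^ (d - 1) * δ * (4 * d) ≤ 4 * (δ + 2) * (4 * d) := by gcongr
      _ = 4 * (δ * (4 * d) + 8 * d) := by ring
      _ = _ := by rw [hδd]
  calc d * |x| ^ (d - 1) * A ≤ d * a ^ (d - 1) * A := by gcongr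
    _ = d * (A * a ^ (d - 1)) := by ring
    _ ≤ d * (4 * (1 + 8 * d)) := by gcongr
    _ = _ := by ring

end Pool.Agent.U256.RR
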