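import Pool.Agent.U256.RR.G
import Pool.Agent.U256.RR.Cx

set_option autoImplicit false

/-!
# Real a priori bounds for the towers of periodic intervals
-/

open Set Filter Topology

namespace Pool.Agent.U256.RR

variable {d : ℕ} {c : ℝ} {p : ℕ → ℕ} {β : ℕ → ℝ}

lemma side' {S T : Set ℝ} (hS : S.OrdConnected) (hT : T.OrdConnected)
    (h : (S ∩ T).Subsingleton) {x s t : ℝ} (hxS : x ∈ S) (hxT : x ∈ T) (hs : s ∈ S) (ht : t ∈ T) :
    (s ≤ x ∨ t ≤ x) ∧ (x ≤ s ∨ x ≤ t) := by
  have h1 := no_overlap hS hT h hxS hs hxT ht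
  constructor
  · by_contra hcon
    push Not at hcon
    rw [max_eq_right hcon.1.le, max_eq_right hcon.2.le, min_eq_left hcon.1.le,
      min_eq_left hcon.2.le, max_self] at h1
    rcases min_le_iff.1 h1 with h2 | h2 <;> linarith [hcon.1, hcon.2]
  · by_contra hcon
    push Not at hcon
    rw [max_eq_left hcon.1.le, max_eq_left hcon.2.le, min_eq_right hcon.1.le,
      min_eq_right hcon.2.le, min_self] at h1
    rcases le_max_iff.1 h1 with h2 | h2 <;> linarith [hcon.1, hcon.2]

lemma exists_ne' (hd : d ≠ 0) {b : ℝ} (hb : 0 < b) (n : ℕ) (x : ℝ) :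
    ∃ y ∈ (g d c)^[n] '' Icc (-b) b, y ≠ x := by
  by_contra hcon
  push Not at hcon
  have h1 : Icc (-b) b ⊆ {u | (g d c)^[n] u = x} := fun u hu => hcon _ ⟨u, hu, rfl⟩
  exact (Icc_infinite (by linarith)) ((finite_fiber (c := c) hd n x).subset h1)

/-- the other intervals are outside -/
lemma Tower.out (hd : d ≠ 0) (h : Tower d c p β) (k : ℕ) {x : ℝ} (hx : x ∈ Icc (-β k) (β k))
    {i : ℕ} (hi : 1 ≤ i) (hin : i < p k) : β k ≤ |(g d c)^[i] x| := by
  by_contra hcon
  push Not at hcon
  rw [abs_lt] at hcon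
  have hb := (h k).2.2.2.1
  obtain ⟨y, hy, hne⟩ := exists_ne' (c := c) hd hb i ((g d c)^[i] x)
  have hdis := (h k).2.2.2.2.2.2 0 i hi hin
  have e0 : (g d c)^[0] '' Icc (-β k) (β k) = Icc (-β k) (β k) := by simp
  rw [e0] at hdis
  have hJ : ((g d c)^[i] '' Icc (-β k) (β k)).OrdConnected :=
    (isPreconnected_Icc.image _ (continuous_iter i).continuousOn).ordConnected
  have hz : (g d c)^[i] x ∈ Icc (-β k) (β k) := ⟨hcon.1.le, hcon.2.le⟩
  have hz' : (g d c)^[i] x ∈ (g d c)^[i] '' Icc (-β k) (β k) := ⟨x, hx, rfl⟩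
  rcases lt_or_gt_of_ne hne with h1 | h1
  · have := (side' ordConnected_Icc hJ hdis hz hz' (s := -β k) ⟨le_rfl, by linarith⟩ hy).2
    rcases this with h2 | h2 <;> linarith
  · have := (side' ordConnected_Icc hJ hdis hz hz' (s := β k) ⟨by linarith, le_rfl⟩ hy).1
    rcases this with h2 | h2 <;> linarith

/-- the degree is even -/
lemma Tower.even (hd : d ≠ 0) (h : Tower d c p β) : Even d := by
  by_contra hcon
  rw [Nat.not_even_iff_odd] at hcon
  have hn : 1 < p 1 := lt_of_le_of_lt (h 0).1 (h 0).2.2.1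
  have hb := (h 1).2.2.2.1
  have hmono : StrictMono (g d c) := by
    intro x y hxy
    unfold g
    have := hcon.strictMono_pow hxy
    simp only at this
    linarith
  have h0 : (0 : ℝ) ∈ Icc (-β 1) (β 1) := ⟨by linarith, hb.le⟩
  have h1 := h.out hd 1 h0 (i := 1) le_rfl hn
  have h2 := h.return_mem 1 1
  rw [one_mul] at h2
  rw [Function.iterate_one] at h1
  rcases lt_trichotomy (g d c 0) 0 with h3 | h3 | h3
  · have h4 := (hmono.strictAnti_iterate_of_map_lt h3) hn
    simp only [Function.iterate_one] at h4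
    rw [abs_of_neg h3] at h1
    linarith [h2.1]
  · rw [h3, abs_zero] at h1
    linarith
  · have h4 := (hmono.strictMono_iterate_of_lt_map h3) hn
    simp only [Function.iterate_one] at h4
    rw [abs_of_pos h3] at h1
    linarith [h2.2]

lemma mid' (hd0 : d ≠ 0) {a : ℝ} {n : ℕ} (ha : 0 < a)
    (T1 : ∀ x, |x| ≤ a → ∀ i, 1 ≤ i → i < n → a ≤ |(g d c)^[i] x|) :
    Sgn d c (n - 1) (Icc (g d c 0) (g d c a)) := by
  have h1 := sgn_of_no_zero (d := d) (c := c) (γ := id) continuous_id (m := n - 1)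
    (A := Icc (g d c 0) (g d c a)) (fun u hu v hv _ w hw j hj h0 => by
      obtain ⟨x, hx, hxw⟩ := exists_preimage (c := c) hd0 ha (z := w)
        ⟨hu.1.trans hw.1.le, hw.2.le.trans hv.2⟩
      have h2 := T1 x hx (j + 1) (by omega) (by omega)
      rw [Function.iterate_succ_apply, hxw] at h2
      have h3 : (g d c)^[j] w = 0 := h0
      rw [h3, abs_zero] at h2
      linarith)
  rwa [image_id] at h1

/-- `g^n` is strictly monotone on `[0, a]` -/
lemma strict_half (hd : Even d) (hd0 : d ≠ 0) {a : ℝ} {n : ℕ} (ha : 0 < a) (hn : 1 ≤ n)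
    (T1 : ∀ x, |x| ≤ a → ∀ i, 1 ≤ i → i < n → a ≤ |(g d c)^[i] x|) :
    StrictMonoOn ((g d c)^[n]) (Icc 0 a) ∨ StrictAntiOn ((g d c)^[n]) (Icc 0 a) := by
  have hS := (mid' hd0 ha T1).strict hd hd0 (n - 1) le_rfl
  have hg : StrictMonoOn (g d c) (Icc 0 a) := by
    intro x hx y _ hxy
    unfold g
    have := pow_lt_pow_left₀ hxy hx.1 hd0
    linarith
  have hmaps : MapsTo (g d c) (Icc 0 a) (Icc (g d c 0) (g d c a)) := fun x hx =>
    ⟨hg.monotoneOn ⟨le_rfl, ha.le⟩ hx hx.1, hg.monotoneOn hx ⟨ha.le, le_rfl⟩ hx.2⟩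
  obtain ⟨m, rfl⟩ : ∃ m, n = m + 1 := ⟨n - 1, by omega⟩
  rw [Nat.add_sub_cancel] at hS
  rcases hS with h1 | h1
  · left
    intro x hx y hy hxy
    rw [Function.iterate_succ_apply, Function.iterate_succ_apply]
    exact h1 (hmaps hx) (hmaps hy) (hg hx hy hxy)
  · right
    intro x hx y hy hxy
    rw [Function.iterate_succ_apply, Function.iterate_succ_apply]
    exact h1 (hmaps hx) (hmaps hy) (hg hx hy hxy)

/-- **The cycles of a tower.** -/
theorem Tower.cyc (hd2 : 2 ≤ d) (h : Tower d c p β) (k : ℕ) :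
    ∃ a, Cyc d c a (p k) ∧ ∀ j, |(g d c)^[j * p k] 0| ≤ a := by
  have hd0 : d ≠ 0 := by omega
  have hd := h.even hd0
  obtain ⟨n, hn⟩ : ∃ n, n = p k := ⟨_, rfl⟩
  have hn1 : 1 ≤ n := hn ▸ (h k).1
  have hb := (h k).2.2.2.1
  have hret := h.return_mem k
  rw [← hn] at hret
  obtain ⟨u, hu⟩ : ∃ u : ℕ → ℝ, u = fun j => |(g d c)^[j * n] 0| := ⟨_, rfl⟩
  have hu0 : u 0 = 0 := by
    rw [hu]
    simp
  have hub : ∀ j, u j ≤ β k := fun j => by
    rw [hu]
    exact abs_le.2 (hret j)
  have hbdd : BddAbove (range u) := ⟨β k, by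
    rintro _ ⟨j, rfl⟩
    exact hub j⟩
  obtain ⟨a, ha⟩ : ∃ a, a = sSup (range u) := ⟨_, rfl⟩
  have hle : ∀ j, u j ≤ a := fun j => ha ▸ le_csSup hbdd ⟨j, rfl⟩
  have haβ : a ≤ β k := by
    rw [ha]
    apply csSup_le (range_nonempty u)
    rintro _ ⟨j, rfl⟩
    exact hub j
  have hunn : ∀ j, 0 ≤ u j := fun j => by
    rw [hu]
    exact abs_nonneg _
  have hnlt : n < p (k + 1) := hn ▸ (h k).2.2.1
  have hb1 := (h (k + 1)).2.2.2.1
  have ha0 : 0 < a := by
    have h1 := h.out hd0 (k + 1) (x := 0) ⟨by linarith, hb1.le⟩ hn1 hnlt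
    have h2 := hle 1
    rw [hu] at h2
    simp only [one_mul] at h2
    linarith
  have T1 : ∀ x, |x| ≤ a → ∀ i, 1 ≤ i → i < n → a ≤ |(g d c)^[i] x| := by
    intro x hx i hi hin
    exact haβ.trans (h.out hd0 k (abs_le.1 (hx.trans haβ)) hi (hn ▸ hin))
  have hstr := strict_half hd hd0 ha0 hn1 T1
  have hnext : ∀ j, (g d c)^[n] (u j) = (g d c)^[(j + 1) * n] 0 := by
    intro j
    rw [hu, Nat.add_mul, Nat.one_mul, Nat.add_comm, Function.iterate_add_apply]
    exact (iter_abs hd hn1 rfl).symm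
  have hna : |(g d c)^[n] a| ≤ a := by
    have hcl : IsClosed {y | |(g d c)^[n] y| ≤ a} :=
      isClosed_le (continuous_iter n).abs continuous_const
    have h1 : closure (range u) ⊆ {y | |(g d c)^[n] y| ≤ a} := by
      apply closure_minimal _ hcl
      rintro _ ⟨j, rfl⟩
      have h2 := hle (j + 1)
      show |(g d c)^[n] (u j)| ≤ a
      rw [hnext]
      rw [hu] at h2
      exact h2
    have h2 := csSup_mem_closure (range_nonempty u) hbdd
    rw [← ha] at h2
    exact h1 h2
  have hn0 : |(g d c)^[n] 0| ≤ a := by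
    have h2 := hle 1
    rw [hu] at h2
    simpa using h2
  have hbet : ∀ x, |x| ≤ a → (g d c)^[n] x ∈ uIcc ((g d c)^[n] 0) ((g d c)^[n] a) := by
    intro x hx
    have e : (g d c)^[n] x = (g d c)^[n] |x| := iter_abs hd hn1 rfl
    rw [e, mem_uIcc]
    have hx0 := abs_nonneg x
    rcases hstr with h1 | h1
    · exact Or.inl ⟨h1.monotoneOn ⟨le_rfl, ha0.le⟩ ⟨hx0, hx⟩ hx0,
        h1.monotoneOn ⟨hx0, hx⟩ ⟨ha0.le, le_rfl⟩ hx⟩
    · exact Or.inr ⟨h1.antitoneOn ⟨hx0, hx⟩ ⟨ha0.le, le_rfl⟩ hx,
        h1.antitoneOn ⟨le_rfl, ha0.le⟩ ⟨hx0, hx⟩ hx0⟩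
  have hmax : ∀ x, |x| ≤ a → |(g d c)^[n] x| ≤ max |(g d c)^[n] 0| |(g d c)^[n] a| := by
    intro x hx
    have h1 := hbet x hx
    rw [mem_uIcc] at h1
    have m1 := le_max_left |(g d c)^[n] 0| |(g d c)^[n] a|
    have m2 := le_max_right |(g d c)^[n] 0| |(g d c)^[n] a|
    rw [abs_le]
    have a1 := neg_abs_le ((g d c)^[n] 0)
    have a2 := le_abs_self ((g d c)^[n] 0)
    have a3 := neg_abs_le ((g d c)^[n] a)
    have a4 := le_abs_self ((g d c)^[n] a)
    rcases h1 with h1 | h1
    · constructor <;> linarith [h1.1, h1.2]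
    · constructor <;> linarith [h1.1, h1.2]
  refine ⟨a, ⟨ha0, hn ▸ hn1, hn ▸ T1, ?_, ?_, ?_⟩, fun j => ?_⟩
  · intro x hx
    rw [← hn]
    exact (hmax x hx).trans (max_le hn0 hna)
  · -- the signs
    rw [← hn]
    by_contra hcon
    push Not at hcon
    -- `ψ` is the modulus of `g^n`
    have hψ : StrictMonoOn (fun x => |(g d c)^[n] x|) (Icc 0 a) ∨
        StrictAntiOn (fun x => |(g d c)^[n] x|) (Icc 0 a) := by
      have hsgn : (∀ x ∈ Icc 0 a, 0 ≤ (g d c)^[n] x) ∨ ∀ x ∈ Icc 0 a, (g d c)^[n] x ≤ 0 := by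
        rcases mul_pos_iff.1 hcon with h1 | h1
        · left
          intro x hx
          have h2 := hbet x (by rw [abs_of_nonneg hx.1]; exact hx.2)
          rw [mem_uIcc] at h2
          rcases h2 with h2 | h2 <;> linarith [h2.1, h2.2, h1.1, h1.2]
        · right
          intro x hx
          have h2 := hbet x (by rw [abs_of_nonneg hx.1]; exact hx.2)
          rw [mem_uIcc] at h2
          rcases h2 with h2 | h2 <;> linarith [h2.1, h2.2, h1.1, h1.2]
      rcases hsgn with h1 | h1 <;> rcases hstr with h2 | h2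
      · left
        intro x hx y hy hxy
        simp only
        rw [abs_of_nonneg (h1 x hx), abs_of_nonneg (h1 y hy)]
        exact h2 hx hy hxy
      · right
        intro x hx y hy hxy
        simp only
        rw [abs_of_nonneg (h1 x hx), abs_of_nonneg (h1 y hy)]
        exact h2 hx hy hxy
      · right
        intro x hx y hy hxy
        simp only
        rw [abs_of_nonpos (h1 x hx), abs_of_nonpos (h1 y hy)]
        exact neg_lt_neg (h2 hx hy hxy)
      · left
        intro x hx y hy hxy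
        simp only
        rw [abs_of_nonpos (h1 x hx), abs_of_nonpos (h1 y hy)]
        exact neg_lt_neg (h2 hx hy hxy)
    have hmem : ∀ j, u j ∈ Icc 0 a := fun j => ⟨hunn j, hle j⟩
    have hrec : ∀ j, u (j + 1) = |(g d c)^[n] (u j)| := by
      intro j
      rw [hnext, hu]
    -- the next levels
    obtain ⟨b, hbdef⟩ : ∃ b, b = β (k + 2) := ⟨_, rfl⟩
    have hb2 : 0 < b := hbdef ▸ (h (k + 2)).2.2.2.1
    obtain ⟨M, hM⟩ : ∃ M, p (k + 2) = M * n := by
      obtain ⟨M, hM⟩ := h.dvd (show k ≤ k + 2 by omega)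
      exact ⟨M, by rw [hM, ← hn, Nat.mul_comm]⟩
    have hM4 : 4 ≤ M := by
      have a1 := (h k).2.1
      have a2 := (h k).2.2.1
      have a3 := (h (k + 1)).2.1
      have a4 := (h (k + 1)).2.2.1
      obtain ⟨x, hx⟩ := a1
      obtain ⟨y, hy⟩ := a3
      have hx2 : 2 ≤ x := by
        by_contra hc
        have : x ≤ 1 := by omega
        have : p (k + 1) ≤ p k * 1 := hx ▸ Nat.mul_le_mul_left _ this
        omega
      have hy2 : 2 ≤ y := by
        by_contra hc
        have : y ≤ 1 := by omega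
        have : p (k + 1 + 1) ≤ p (k + 1) * 1 := hy ▸ Nat.mul_le_mul_left _ this
        omega
      have e : M * n = (x * y) * n := by
        rw [← hM, show k + 2 = k + 1 + 1 from rfl, hy, hx, hn]
        ring
      have e2 : M = x * y := Nat.eq_of_mul_eq_mul_right (by omega) e
      rw [e2]
      nlinarith
    have hlow : ∀ i, 1 ≤ i → i < M → b ≤ u i := by
      intro i hi hiM
      rw [hbdef, hu]
      refine h.out hd0 (k + 2) (x := 0) ⟨by linarith, by linarith⟩ ?_ ?_
      · exact Nat.mul_pos hi hn1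
      · rw [hM]
        exact Nat.mul_lt_mul_of_pos_right hiM hn1
    have hup : u M ≤ b := by
      have h1 := h.return_mem (k + 2) 1
      rw [one_mul, hM, ← hbdef] at h1
      rw [hu]
      exact abs_le.2 h1
    have h01 : u 0 < u 1 := by
      rw [hu0]
      exact lt_of_lt_of_le hb2 (hlow 1 le_rfl (by omega))
    rcases hψ with hψ | hψ
    · have hinc : StrictMono u := by
        apply strictMono_nat_of_lt_succ
        intro j
        induction j with
        | zero => exact h01
        | succ j ih =>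
          rw [hrec j, hrec (j + 1)]
          exact hψ (hmem j) (hmem (j + 1)) ih
      have h1 := hinc (show 1 < M by omega)
      have h2 := hlow 1 le_rfl (by omega)
      linarith
    · have hev : ∀ i, u (2 * i) < u (2 * i + 2) := by
        intro i
        induction i with
        | zero =>
          rw [Nat.mul_zero, hu0]
          exact lt_of_lt_of_le hb2 (hlow 2 (by omega) (by omega))
        | succ i ih =>
          have h1 := hψ (hmem _) (hmem _) ih
          simp only at h1
          rw [← hrec, ← hrec] at h1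
          have h2 := hψ (hmem _) (hmem _) h1
          simp only at h2
          rw [← hrec, ← hrec] at h2
          have e1 : 2 * (i + 1) = 2 * i + 1 + 1 := by ring
          have e2 : 2 * (i + 1) + 2 = 2 * i + 2 + 1 + 1 := by ring
          rw [e2, e1]
          exact h2
      have hod : ∀ i, u (2 * i) < u (2 * i + 1) := by
        intro i
        induction i with
        | zero => exact h01
        | succ i ih =>
          have h1 := hψ (hmem _) (hmem _) ih
          simp only at h1
          rw [← hrec, ← hrec] at h1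
          have h2 := hψ (hmem _) (hmem _) h1
          simp only at h2
          rw [← hrec, ← hrec] at h2
          have e1 : 2 * (i + 1) = 2 * i + 1 + 1 := by ring
          rw [e1]
          exact h2
      have hevm : StrictMono fun i => u (2 * i) := by
        apply strictMono_nat_of_lt_succ
        intro i
        exact hev i
      rcases Nat.even_or_odd' M with ⟨i, hi | hi⟩
      · have h1 : u (2 * 1) < u (2 * i) := hevm (show 1 < i by omega)
        have h2 := hlow (2 * 1) (by omega) (by omega)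
        rw [← hi] at h1
        linarith
      · have h1 := hod i
        have h2 := hlow (2 * i) (by omega) (by omega)
        rw [← hi] at h1
        linarith
  · -- the end point
    rw [← hn]
    have h1 : a ≤ max |(g d c)^[n] 0| |(g d c)^[n] a| := by
      conv_lhs => rw [ha]
      apply csSup_le (range_nonempty u)
      rintro _ ⟨j, rfl⟩
      rcases Nat.eq_zero_or_pos j with rfl | hj
      · rw [hu0]
        exact le_max_of_le_left (abs_nonneg _)
      · obtain ⟨j, rfl⟩ : ∃ l, j = l + 1 := ⟨j - 1, by omega⟩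
        have h2 := hmax (u j) (by rw [abs_of_nonneg (hunn j)]; exact hle j)
        rw [hnext] at h2
        rw [hu]
        exact h2
    rcases le_max_iff.1 h1 with h2 | h2
    · exact Or.inl (le_antisymm hn0 h2)
    · exact Or.inr (le_antisymm hna h2)
  · rw [← hn]
    have := hle j
    rwa [hu] at this

/-- **Real a priori bounds.** -/
theorem Tower.real_bounds (hd2 : 2 ≤ d) (h : Tower d c p β) (k j : ℕ) :
    D d c (p k) ((g d c)^[j * p k] 0) ≤ 4 * d * (1 + 8 * d) := by
  obtain ⟨a, ha, hj⟩ := h.cyc hd2 k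
  exact ha.bound (h.even (by omega)) hd2 (hj j)

end Pool.Agent.U256.RR
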